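import Pool.Agent.H12.EV.AsymS
import Pool.Agent.H19.EV.UpF
import Pool.Agent.H87.EV.LowF
import Pool.Agent.H75.EV.Barrier

/-!
The facts are put together.
-/

namespace Pool.Agent.H12.EV

open Filter Finset Pool.Agent.H12.EU Pool.Agent.H83.EX

lemma par_of {θ : ℝ} {w' : Fin 6 → ℝ} (hθ2 : 2 < θ) (hθ3 : θ < 52 / 23) (hw : ∀ i, 0 < w' i)
    (hE : Eqs θ w') : Par θ (vN 1 w') := by
  obtain ⟨h0, h1, h2, h3, h4, h5⟩ := hE
  refine ⟨hθ2, by linarith, ?_, ?_, ?_, ?_, ?_, ?_, ?_⟩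
  · intro r hr
    interval_cases r <;> simp only [vN, one_mul] <;> exact hw _
  · simp only [vN, one_mul]
    exact h0
  · simp only [vN, one_mul]
    exact h1
  · simp only [vN, one_mul]
    exact h2
  · simp only [vN, one_mul]
    exact h3
  · simp only [vN, one_mul]
    exact h4
  · simp only [vN, one_mul]
    exact h5

/-- The facts follow from the renewal theorem. -/
theorem hyp_of {θ : ℝ} {v : ℕ → ℝ} (h : Par θ v) {c : ℝ}
    (hc : ∀ r : ℕ, r < 6 → Tendsto (fun L : ℝ => F r L 0 * L ^ θ) atTop (nhds (c * v r))) :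
    ∃ κ : ℕ → ℝ, Hyp θ κ := by
  obtain ⟨κ, hκ⟩ := Pool.H75.EV.barrier h hc
  exact ⟨κ, Pool.Agent.H87.EV.lowF, Pool.Agent.H19.EV.upF, hκ,
    fun η hη => Pool.H75.EV.dip h hη⟩

/-- The constant is positive. -/
lemma mean_pos {θ : ℝ} (hθ : IsThetaStar θ) {κ : ℕ → ℝ} (h : Hyp θ κ) : 0 < mean κ := by
  have hθ' := hθ
  obtain ⟨hθ0, w', hw, hv⟩ := hθ'
  have hE := eqs_of hv
  have hlt := theta_lt hθ0 hw hE
  obtain ⟨c, hc, N₀, hlow⟩ := lower_L hθ
  obtain ⟨N1, L1, hL1, hup⟩ := asymL_up hθ0 hlt h (show 0 < c / 2 by linarith)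
  -- take `N` large and `L = max L1 1`
  have tN : Tendsto (fun N : ℕ => (N : ℝ) ^ (3 / 50 : ℝ)) atTop atTop :=
    (tendsto_rpow_atTop (by norm_num)).comp tendsto_natCast_atTop_atTop
  obtain ⟨N, a1, a2, a3, a4⟩ := ((tN.eventually_ge_atTop L1).and
    ((eventually_ge_atTop N₀).and ((eventually_ge_atTop N1).and (eventually_ge_atTop 1)))).exists
  have hN1 : (1 : ℝ) ≤ N := by exact_mod_cast a4
  have hN0 : (0 : ℝ) < N := by linarith
  have hL0 : 0 < L1 := by linarith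
  have b1 := hlow N a2 L1 hL1 (a1.trans
    (Real.rpow_le_rpow_of_exponent_le hN1 (by norm_num)))
  have b2 := hup N a3 L1 (le_refl _) a1
  have b3 : (R L1 N : ℝ) ≤ (R' L1 N : ℝ) := by exact_mod_cast R_le_R' L1 N
  have hp : 0 < (N : ℝ) * L1 ^ (-θ) := mul_pos hN0 (Real.rpow_pos_of_pos hL0 _)
  have b4 : c * ((N : ℝ) * L1 ^ (-θ)) ≤ (mean κ + c / 2) * ((N : ℝ) * L1 ^ (-θ)) := by linarith
  have b5 := le_of_mul_le_mul_right b4 hp
  linarith

end Pool.Agent.H12.EV
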