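import Pool.Agent.H12.EV.Short

/-!
The asymptotic formulas from the counts in short intervals.
-/

namespace Pool.Agent.H12.EV

open Filter Finset Pool.Agent.H12.EU

lemma cnt_nat (P : ℕ → Prop) (N : ℕ) [DecidablePred P] :
    cnt P (N : ℝ) = ((Icc 1 N).filter P).card := by
  classical
  unfold cnt
  rw [Nat.floor_natCast]
  congr

lemma R_eq (L : ℝ) (N : ℕ) : (R L N : ℝ) = cnt (fun n => Rises L n) (N : ℝ) := by
  classical
  unfold R
  rw [cnt_nat]

lemma R'_eq (L : ℝ) (N : ℕ) : (R' L N : ℝ) = cnt (fun n => Rises L n ∨ Stays n) (N : ℝ) := by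
  classical
  unfold R'
  rw [cnt_nat]

lemma S_eq (ρ : ℝ) (N : ℕ) : (S ρ N : ℝ) = cnt (fun n => Exceeds ρ n) (N : ℝ) := by
  classical
  unfold S
  rw [cnt_nat]

lemma S'_eq (ρ : ℝ) (N : ℕ) : (S' ρ N : ℝ) = cnt (fun n => Exceeds ρ n ∨ Stays n) (N : ℝ) := by
  classical
  unfold S'
  rw [cnt_nat]

lemma reach_stays {x M R' : ℝ} {n : ℕ} (h1 : R' < n) (h : Stays n) : Reach x R' n := by
  refine Or.inr ?_
  intro j
  have : (n : ℝ) ≤ (Pool.Agent.H83.EX.C^[j] n : ℝ) := by exact_mod_cast h j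
  linarith

/-- For every exponent `p` and `s > 0` the powers `(1 - ε) ^ p`, `(1 + ε) ^ p` are close to one. -/
lemma near_one (p : ℝ) {s : ℝ} (hs : 0 < s) : ∃ δ : ℝ, 0 < δ ∧ ∀ ε : ℝ, 0 < ε → ε ≤ δ →
    (1 - ε) ^ p ≤ 1 + s ∧ 1 - s ≤ (1 + ε) ^ p ∧ 1 - s ≤ (1 + ε) ^ p * (1 - ε) := by
  have c1 : ContinuousAt (fun ε : ℝ => (1 - ε) ^ p) 0 := by
    refine ContinuousAt.rpow_const ?_ (Or.inl (by norm_num))
    fun_prop
  have c2 : ContinuousAt (fun ε : ℝ => (1 + ε) ^ p) 0 := by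
    refine ContinuousAt.rpow_const ?_ (Or.inl (by norm_num))
    fun_prop
  have c3 : ContinuousAt (fun ε : ℝ => (1 + ε) ^ p * (1 - ε)) 0 := by
    refine ContinuousAt.mul c2 ?_
    fun_prop
  have t1 : Tendsto (fun ε : ℝ => (1 - ε) ^ p) (nhds 0) (nhds 1) := by
    have := c1.tendsto
    simpa using this
  have t2 : Tendsto (fun ε : ℝ => (1 + ε) ^ p) (nhds 0) (nhds 1) := by
    have := c2.tendsto
    simpa using this
  have t3 : Tendsto (fun ε : ℝ => (1 + ε) ^ p * (1 - ε)) (nhds 0) (nhds 1) := by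
    have := c3.tendsto
    simpa using this
  have h := ((t1.eventually (gt_mem_nhds (show (1 : ℝ) < 1 + s by linarith))).and
    (t2.eventually (lt_mem_nhds (show 1 - s < (1 : ℝ) by linarith)))).and
    (t3.eventually (lt_mem_nhds (show 1 - s < (1 : ℝ) by linarith)))
  obtain ⟨δ, hδ, hδ'⟩ := Metric.eventually_nhds_iff.mp h
  refine ⟨δ / 2, by linarith, ?_⟩
  intro ε hε hle
  have h1 := hδ' (y := ε) (by
    rw [Real.dist_eq, sub_zero, abs_of_pos hε]
    linarith)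
  exact ⟨h1.1.1.le, h1.1.2.le, h1.2.le⟩

lemma bern_lo {ε a : ℝ} (hε : 0 < ε) (hε1 : ε < 1) (ha : 0 < a) (ha1 : a ≤ 1) :
    a * ε ≤ 1 - (1 - ε) ^ a := by
  have h := rpow_one_add_le_one_add_mul_self (show -1 ≤ -ε by linarith) ha.le ha1
  have e : 1 + -ε = 1 - ε := by ring
  rw [e] at h
  linarith

lemma bern_up {ε a : ℝ} (hε : 0 < ε) (hε1 : ε < 1) (ha : 0 < a) (ha1 : a ≤ 1) :
    1 - (1 - ε) ^ a ≤ a * ε / (1 - ε) := by
  have h1e : 0 < 1 - ε := by linarith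
  have hd : 0 < ε / (1 - ε) := by positivity
  have h := rpow_one_add_le_one_add_mul_self (show -1 ≤ ε / (1 - ε) by linarith) ha.le ha1
  have e : 1 + ε / (1 - ε) = (1 - ε)⁻¹ := by
    field_simp
    ring
  rw [e, Real.inv_rpow h1e.le] at h
  have hp : 0 < (1 - ε) ^ a := Real.rpow_pos_of_pos h1e _
  have hq : 0 < 1 + a * (ε / (1 - ε)) := by positivity
  -- `1 ≤ (1 + a t) (1 - ε)^a`
  have h2 : 1 ≤ (1 + a * (ε / (1 - ε))) * (1 - ε) ^ a := by
    calc (1 : ℝ) = ((1 - ε) ^ a)⁻¹ * (1 - ε) ^ a := by field_simp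
      _ ≤ (1 + a * (ε / (1 - ε))) * (1 - ε) ^ a := mul_le_mul_of_nonneg_right h hp.le
  have h3 : (1 - ε) ^ a ≤ 1 := Real.rpow_le_one h1e.le (by linarith) ha.le
  have h4 : a * (ε / (1 - ε)) * (1 - ε) ^ a ≤ a * (ε / (1 - ε)) := by
    have : 0 ≤ a * (ε / (1 - ε)) := by positivity
    nlinarith
  have e2 : a * ε / (1 - ε) = a * (ε / (1 - ε)) := by ring
  rw [e2]
  nlinarith

/-- A constant plus a constant times `N ^ 0.86` is small compared with `N ^ b`, `b > 0.86`. -/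
lemma small_err (C D : ℝ) {b s : ℝ} (hb : 43 / 50 < b) (hs : 0 < s) :
    ∀ᶠ N : ℕ in atTop, C + D * (N : ℝ) ^ (43 / 50 : ℝ) ≤ s * (N : ℝ) ^ b := by
  have t1 : Tendsto (fun N : ℕ => (N : ℝ) ^ (-b)) atTop (nhds 0) :=
    (tendsto_rpow_neg_atTop (by linarith)).comp tendsto_natCast_atTop_atTop
  have t2 : Tendsto (fun N : ℕ => (N : ℝ) ^ (-(b - 43 / 50))) atTop (nhds 0) :=
    (tendsto_rpow_neg_atTop (by linarith)).comp tendsto_natCast_atTop_atTop
  have t3 : Tendsto (fun N : ℕ => C * (N : ℝ) ^ (-b) + D * (N : ℝ) ^ (-(b - 43 / 50))) atTop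
      (nhds (C * 0 + D * 0)) := (t1.const_mul C).add (t2.const_mul D)
  rw [mul_zero, mul_zero, add_zero] at t3
  filter_upwards [t3.eventually (gt_mem_nhds hs), eventually_ge_atTop 1] with N h1 h2
  have hN0 : (0 : ℝ) < N := by exact_mod_cast h2
  have hp : 0 < (N : ℝ) ^ b := Real.rpow_pos_of_pos hN0 _
  have e1 : (N : ℝ) ^ (-b) * (N : ℝ) ^ b = 1 := by
    rw [← Real.rpow_add hN0]
    simp
  have e2 : (N : ℝ) ^ (-(b - 43 / 50)) * (N : ℝ) ^ b = (N : ℝ) ^ (43 / 50 : ℝ) := by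
    rw [← Real.rpow_add hN0]
    congr 1
    ring
  have h3 := mul_le_mul_of_nonneg_right h1.le hp.le
  have e3 : (C * (N : ℝ) ^ (-b) + D * (N : ℝ) ^ (-(b - 43 / 50))) * (N : ℝ) ^ b =
      C * ((N : ℝ) ^ (-b) * (N : ℝ) ^ b) + D * ((N : ℝ) ^ (-(b - 43 / 50)) * (N : ℝ) ^ b) := by
    ring
  rw [e3, e1, e2] at h3
  linarith

/-- The lower bound for `N * L ^ (-θ)` in the range of `L`. -/
lemma main_ge {θ : ℝ} (hθ0 : 0 < θ) (hθ : θ < 52 / 23) {N : ℕ} (hN : 1 ≤ N) {L : ℝ} (hL : 1 ≤ L)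
    (hLN : L ≤ (N : ℝ) ^ (3 / 50 : ℝ)) :
    (N : ℝ) ^ (1 - 3 / 50 * (52 / 23) : ℝ) ≤ (N : ℝ) * L ^ (-θ) := by
  have hN1 : (1 : ℝ) ≤ N := by exact_mod_cast hN
  have hN0 : (0 : ℝ) < N := by linarith
  have hL0 : 0 < L := by linarith
  have h1 : (N : ℝ) ^ (-(3 / 50 * θ)) ≤ L ^ (-θ) := by
    have h2 : L ^ θ ≤ (N : ℝ) ^ (3 / 50 * θ) := by
      rw [Real.rpow_mul hN0.le]
      exact Real.rpow_le_rpow hL0.le hLN hθ0.le
    rw [Real.rpow_neg hN0.le, Real.rpow_neg hL0.le]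
    exact inv_anti₀ (Real.rpow_pos_of_pos hL0 _) h2
  have h3 : (N : ℝ) ^ (1 - 3 / 50 * (52 / 23) : ℝ) ≤ (N : ℝ) ^ (1 + -(3 / 50 * θ)) :=
    Real.rpow_le_rpow_of_exponent_le hN1 (by linarith)
  rw [Real.rpow_add hN0, Real.rpow_one] at h3
  exact h3.trans (mul_le_mul_of_nonneg_left h1 hN0.le)

theorem asymL_up {θ : ℝ} {κ : ℕ → ℝ} (hθ0 : 0 < θ) (hθ : θ < 52 / 23) (h : Hyp θ κ) {η : ℝ}
    (hη : 0 < η) : ∃ N0 : ℕ, ∃ L0 : ℝ, 1 ≤ L0 ∧ ∀ N : ℕ, N0 ≤ N → ∀ L : ℝ, L0 ≤ L →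
      L ≤ (N : ℝ) ^ (3 / 50 : ℝ) → (R' L N : ℝ) ≤ (mean κ + η) * ((N : ℝ) * L ^ (-θ)) := by
  obtain ⟨ε₁, hε₁, hup⟩ := intUp hθ0 h (show 0 < η / 2 by linarith)
  set ε : ℝ := min ε₁ (1 / 2) with hε
  have hε0 : 0 < ε := lt_min hε₁ (by norm_num)
  have hε2 : ε ≤ 1 / 2 := min_le_right _ _
  obtain ⟨M0, L0, D, hM0, hL0, hD, hrec⟩ := hup ε hε0 (min_le_left _ _)
  have hqb : (1 - ε) ^ (43 / 50 : ℝ) < 1 :=
    Real.rpow_lt_one (by linarith) (by linarith) (by norm_num)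
  have hev := small_err M0 (D / (1 - (1 - ε) ^ (43 / 50 : ℝ))) (b := 1 - 3 / 50 * (52 / 23))
    (s := η / 2) (by norm_num) (by linarith)
  obtain ⟨N1, hN1⟩ := Filter.eventually_atTop.mp hev
  refine ⟨max N1 1, L0, hL0, ?_⟩
  intro N hN L hL hLN
  have hNpos : 1 ≤ N := (le_max_right _ _).trans hN
  have hN0 : (0 : ℝ) < N := by exact_mod_cast hNpos
  have hL1 : 1 ≤ L := hL0.trans hL
  have hLp : 0 < L ^ (-θ) := Real.rpow_pos_of_pos (by linarith) _
  have hmean := mean_nonneg h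
  have key := rec_up (f := fun M => (cnt (fun n => Rises L n ∨ Stays n) M : ℝ)) (q := 1 - ε)
    (A := (mean κ + η / 2) * ε * L ^ (-θ)) (D := D) (a := 1) (b := 43 / 50) (C := M0) (M1 := M0)
    (by linarith) (by linarith) (by norm_num) (by norm_num) (by positivity) hD (by linarith)
    (by linarith) (fun M hM hle => (cnt_le _ hM.le).trans hle)
    (by
      intro M hM
      have hr := hrec M L hM hL (fun n => Rises L n ∨ Stays n) (by
        intro n h1 h2 h3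
        rcases h3 with h3 | h3
        · obtain ⟨i, hi, hj⟩ := h3
          refine Or.inl ⟨i, ?_, ?_⟩
          · have : L * ((1 - ε) * M) ≤ L * n := mul_le_mul_of_nonneg_left h1.le (by linarith)
            linarith
          · intro j hji
            have : (n : ℝ) ≤ (Pool.Agent.H83.EX.C^[j] n : ℝ) := by exact_mod_cast hj j hji
            linarith
        · exact reach_stays (M := M) h1 h3)
      beta_reduce
      rw [Real.rpow_one]
      refine hr.trans (le_of_eq ?_)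
      ring)
    N hN0
  beta_reduce at key
  rw [← R'_eq, Real.rpow_one, Real.rpow_one] at key
  have e1 : (mean κ + η / 2) * ε * L ^ (-θ) / (1 - (1 - ε)) = (mean κ + η / 2) * L ^ (-θ) := by
    have : 1 - (1 - ε) = ε := by ring
    rw [this]
    field_simp
  rw [e1] at key
  have h1 := hN1 N ((le_max_left _ _).trans hN)
  have h2 := main_ge hθ0 hθ hNpos hL1 hLN
  have h3 : η / 2 * (N : ℝ) ^ (1 - 3 / 50 * (52 / 23) : ℝ) ≤ η / 2 * ((N : ℝ) * L ^ (-θ)) :=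
    mul_le_mul_of_nonneg_left h2 (by linarith)
  have e2 : (mean κ + η) * ((N : ℝ) * L ^ (-θ)) =
      (mean κ + η / 2) * L ^ (-θ) * N + η / 2 * ((N : ℝ) * L ^ (-θ)) := by ring
  rw [e2]
  linarith

theorem asymL_low {θ : ℝ} {κ : ℕ → ℝ} (hθ0 : 0 < θ) (hθ : θ < 52 / 23) (h : Hyp θ κ)
    (hκ : 0 < mean κ) {η : ℝ} (hη : 0 < η) : ∃ N0 : ℕ, ∃ L0 : ℝ, 1 ≤ L0 ∧ ∀ N : ℕ, N0 ≤ N →
      ∀ L : ℝ, L0 ≤ L → L ≤ (N : ℝ) ^ (3 / 50 : ℝ) →
      (mean κ - η) * ((N : ℝ) * L ^ (-θ)) ≤ (R L N : ℝ) := by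
  set η' : ℝ := min η (mean κ) / 4 with hη'
  have hη'0 : 0 < η' := by positivity
  have hη'1 : 4 * η' ≤ η := by rw [hη']; linarith [min_le_left η (mean κ)]
  have hη'2 : 4 * η' ≤ mean κ := by rw [hη']; linarith [min_le_right η (mean κ)]
  obtain ⟨δ, hδ, hδ'⟩ := near_one (-θ) (s := η' / mean κ) (by positivity)
  set ε : ℝ := min δ (1 / 2) with hε
  have hε0 : 0 < ε := lt_min hδ (by norm_num)
  have hε2 : ε ≤ 1 / 2 := min_le_right _ _
  obtain ⟨M0, L0, D, hM0, hL0, hD, hrec⟩ := intLow hθ0 h hη'0 hε0 (by linarith)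
  have hfac := (hδ' ε hε0 (min_le_left _ _)).2.1
  have hqb : (1 - ε) ^ (43 / 50 : ℝ) < 1 :=
    Real.rpow_lt_one (by linarith) (by linarith) (by norm_num)
  have hev := small_err (mean κ * M0) (D / (1 - (1 - ε) ^ (43 / 50 : ℝ)))
    (b := 1 - 3 / 50 * (52 / 23)) (s := η') (by norm_num) hη'0
  obtain ⟨N1, hN1⟩ := Filter.eventually_atTop.mp hev
  refine ⟨max N1 1, L0, hL0, ?_⟩
  intro N hN L hL hLN
  have hNpos : 1 ≤ N := (le_max_right _ _).trans hN
  have hN0 : (0 : ℝ) < N := by exact_mod_cast hNpos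
  have hL1 : 1 ≤ L := hL0.trans hL
  have hL00 : 0 < L := by linarith
  have hLp : 0 < L ^ (-θ) := Real.rpow_pos_of_pos hL00 _
  have hLp1 : L ^ (-θ) ≤ 1 := Real.rpow_le_one_of_one_le_of_nonpos hL1 (by linarith)
  have hm2 : 0 ≤ mean κ - 2 * η' := by linarith
  -- the factor `(1 + ε)^(-θ)`
  have hfac2 : mean κ - 2 * η' ≤ (mean κ - η') * (1 + ε) ^ (-θ) := by
    have h1 : (mean κ - η') * (1 - η' / mean κ) ≤ (mean κ - η') * (1 + ε) ^ (-θ) :=
      mul_le_mul_of_nonneg_left hfac (by linarith)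
    have h2 : mean κ - 2 * η' ≤ (mean κ - η') * (1 - η' / mean κ) := by
      have e : (mean κ - η') * (1 - η' / mean κ) = mean κ - 2 * η' + η' ^ 2 / mean κ := by
        field_simp
        ring
      rw [e]
      have : 0 ≤ η' ^ 2 / mean κ := by positivity
      linarith
    linarith
  have key := rec_low (f := fun M => (cnt (fun n => Rises L n) M : ℝ)) (q := 1 - ε)
    (A := (mean κ - 2 * η') * ε * L ^ (-θ)) (D := D) (a := 1) (b := 43 / 50) (M1 := M0)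
    (by linarith) (by linarith) (by norm_num) (by norm_num) (by positivity) hD
    (by linarith) (fun M _ => Nat.cast_nonneg _)
    (by
      intro M hM
      have hMpos : 0 < M := by linarith
      have hr := hrec M ((1 + ε) * L) hM (by nlinarith) (fun n => Rises L n) (by
        intro n h1 h2 h3
        obtain ⟨i, hi, hj⟩ := h3
        refine ⟨i, ?_, ?_⟩
        · have hn0 : (0 : ℝ) < n := lt_of_le_of_lt (by
            have : 0 ≤ 1 - ε := by linarith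
            positivity) h1
          have : L * n < (1 + ε) * L * n := by
            have : 0 < ε * L * n := by positivity
            nlinarith
          linarith
        · intro j hji
          have h4 := hj j hji
          rw [one_mul] at h4
          exact_mod_cast h4)
      beta_reduce
      rw [Real.rpow_one]
      have e1 : ((1 + ε) * L) ^ (-θ) = (1 + ε) ^ (-θ) * L ^ (-θ) :=
        Real.mul_rpow (by linarith) hL00.le
      rw [e1] at hr
      have h5 : (mean κ - 2 * η') * ε * L ^ (-θ) * M ≤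
          (mean κ - η') * ε * M * ((1 + ε) ^ (-θ) * L ^ (-θ)) := by
        have h6 : 0 ≤ ε * L ^ (-θ) * M := by positivity
        have h7 := mul_le_mul_of_nonneg_right hfac2 h6
        nlinarith
      linarith)
    N hN0
  beta_reduce at key
  rw [← R_eq, Real.rpow_one, Real.rpow_one, Real.rpow_one] at key
  have e1 : (mean κ - 2 * η') * ε * L ^ (-θ) / (1 - (1 - ε)) = (mean κ - 2 * η') * L ^ (-θ) := by
    have : 1 - (1 - ε) = ε := by ring
    rw [this]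
    field_simp
  rw [e1] at key
  have h1 := hN1 N ((le_max_left _ _).trans hN)
  have h2 := main_ge hθ0 hθ hNpos hL1 hLN
  have h3 : η' * (N : ℝ) ^ (1 - 3 / 50 * (52 / 23) : ℝ) ≤ η' * ((N : ℝ) * L ^ (-θ)) :=
    mul_le_mul_of_nonneg_left h2 hη'0.le
  have h4 : (mean κ - 2 * η') * L ^ (-θ) * M0 ≤ mean κ * M0 := by
    have h5 : (mean κ - 2 * η') * L ^ (-θ) ≤ mean κ := by nlinarith
    exact mul_le_mul_of_nonneg_right h5 (by linarith)
  have h6 : (mean κ - η) * ((N : ℝ) * L ^ (-θ)) ≤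
      (mean κ - 3 * η') * ((N : ℝ) * L ^ (-θ)) :=
    mul_le_mul_of_nonneg_right (by linarith) (by positivity)
  have e2 : (mean κ - 3 * η') * ((N : ℝ) * L ^ (-θ)) =
      (mean κ - 2 * η') * L ^ (-θ) * N - η' * ((N : ℝ) * L ^ (-θ)) := by ring
  linarith

end Pool.Agent.H12.EV
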