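import Pool.Agent.H12.EV.Asym

/-!
The asymptotic formula for the number of `n ≤ N` whose trajectory exceeds `n ^ ρ` before it falls
below `n`.
-/

namespace Pool.Agent.H12.EV

open Filter Finset Pool.Agent.H12.EU

lemma asymS_up {θ : ℝ} {κ : ℕ → ℝ} (hθ0 : 0 < θ) (hθ : θ < 52 / 23) (h : Hyp θ κ) {ρ : ℝ}
    (hρ1 : 1 < ρ) (hρ2 : ρ ≤ 53 / 50) {η : ℝ} (hη : 0 < η) :
    ∀ᶠ N : ℕ in atTop, (S' ρ N : ℝ) ≤
      (mean κ / (1 - θ * (ρ - 1)) + η) * (N : ℝ) ^ (1 - θ * (ρ - 1)) := by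
  have hmean := mean_nonneg h
  set γ : ℝ := ρ - 1 with hγ
  have hγ0 : 0 < γ := by linarith
  have hγ1 : γ ≤ 3 / 50 := by linarith
  set a : ℝ := 1 - θ * γ with ha
  have hθγ : θ * γ ≤ 52 / 23 * (3 / 50) := mul_le_mul hθ.le hγ1 hγ0.le (by norm_num)
  have hθγ0 : 0 < θ * γ := mul_pos hθ0 hγ0
  have ha86 : 43 / 50 < a := by
    rw [ha]
    have : (52 : ℝ) / 23 * (3 / 50) < 7 / 50 := by norm_num
    linarith
  have ha0 : 0 < a := by linarith
  have ha1 : a ≤ 1 := by rw [ha]; linarith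
  -- the small parameters
  obtain ⟨ε₁, hε₁, hup⟩ := intUp hθ0 h (show 0 < η / 4 by linarith)
  obtain ⟨δ, hδ, hδ'⟩ := near_one (-(γ * θ)) (s := η / 8 / (mean κ + η / 4 + 1)) (by positivity)
  set ε : ℝ := min (min ε₁ (1 / 2)) δ with hε
  have hε0 : 0 < ε := lt_min (lt_min hε₁ (by norm_num)) hδ
  have hε2 : ε ≤ 1 / 2 := (min_le_left _ _).trans (min_le_right _ _)
  have hεδ : ε ≤ δ := min_le_right _ _
  have hεε : ε ≤ ε₁ := (min_le_left _ _).trans (min_le_left _ _)
  obtain ⟨M0, L0, D, hM0, hL0, hD, hrec⟩ := hup ε hε0 hεε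
  have h1ε : 0 < 1 - ε := by linarith
  have hfac := (hδ' ε hε0 hεδ).1
  -- from which `M` on the factor is large enough
  have tg : Tendsto (fun M : ℝ => ((1 - ε) * M) ^ γ) atTop atTop :=
    (tendsto_rpow_atTop hγ0).comp (tendsto_id.const_mul_atTop h1ε)
  obtain ⟨M2, hM2⟩ := Filter.eventually_atTop.mp (tg.eventually_ge_atTop L0)
  set M1 : ℝ := max M0 M2 with hM1
  have hM1ge : 1 ≤ M1 := hM0.trans (le_max_left _ _)
  have hqa : (1 - ε) ^ a < 1 := Real.rpow_lt_one h1ε.le (by linarith) ha0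
  have hqb : (1 - ε) ^ (43 / 50 : ℝ) < 1 := Real.rpow_lt_one h1ε.le (by linarith) (by norm_num)
  set A : ℝ := (mean κ + η / 4) * ε * (1 - ε) ^ (-(γ * θ)) with hA
  have hA0 : 0 ≤ A := by
    have := Real.rpow_nonneg h1ε.le (-(γ * θ))
    positivity
  have hAa : A / (1 - (1 - ε) ^ a) ≤ mean κ / a + η / 2 := by
    have hb := bern_lo hε0 (by linarith) ha0 ha1
    have h1 : A / (1 - (1 - ε) ^ a) ≤ A / (a * ε) :=
      div_le_div_of_nonneg_left hA0 (by positivity) hb
    have h2 : A / (a * ε) = (mean κ + η / 4) * (1 - ε) ^ (-(γ * θ)) / a := by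
      rw [hA]
      field_simp
    have h3 : (mean κ + η / 4) * (1 - ε) ^ (-(γ * θ)) ≤ mean κ + η / 4 + η / 8 := by
      have h4 : (mean κ + η / 4) * (1 - ε) ^ (-(γ * θ)) ≤
          (mean κ + η / 4) * (1 + η / 8 / (mean κ + η / 4 + 1)) :=
        mul_le_mul_of_nonneg_left hfac (by linarith)
      have h5 : (mean κ + η / 4) * (η / 8 / (mean κ + η / 4 + 1)) ≤ η / 8 := by
        rw [← mul_div_assoc, div_le_iff₀ (by positivity)]
        nlinarith
      nlinarith
    have h6 : (mean κ + η / 4) * (1 - ε) ^ (-(γ * θ)) / a ≤ (mean κ + η / 4 + η / 8) / a :=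
      div_le_div_of_nonneg_right h3 ha0.le
    have h7 : (mean κ + η / 4 + η / 8) / a ≤ mean κ / a + η / 2 := by
      have e : (mean κ + η / 4 + η / 8) / a = mean κ / a + (η / 4 + η / 8) / a := by
        field_simp
        ring
      rw [e]
      have : (η / 4 + η / 8) / a ≤ η / 2 := by
        rw [div_le_iff₀ ha0]
        nlinarith
      linarith
    rw [h2] at h1
    linarith
  have hev := small_err M1 (D / (1 - (1 - ε) ^ (43 / 50 : ℝ))) (b := a) (s := η / 2) ha86
    (by linarith)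
  filter_upwards [hev, eventually_ge_atTop 1] with N h1 h2
  have hN0 : (0 : ℝ) < N := by exact_mod_cast h2
  have key := rec_up (f := fun M => (cnt (fun n => Exceeds ρ n ∨ Stays n) M : ℝ)) (q := 1 - ε)
    (A := A) (D := D) (a := a) (b := 43 / 50) (C := M1) (M1 := M1)
    h1ε (by linarith) ha0 (by norm_num) hA0 hD (by linarith)
    (by linarith) (fun M hM hle => (cnt_le _ hM.le).trans hle)
    (by
      intro M hM
      have hMM0 : M0 ≤ M := (le_max_left _ _).trans hM
      have hMpos : 0 < M := by linarith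
      have hX0 : 0 < (1 - ε) * M := by positivity
      have hr := hrec M (((1 - ε) * M) ^ γ) hMM0 (hM2 M ((le_max_right _ _).trans hM))
        (fun n => Exceeds ρ n ∨ Stays n) (by
        intro n h1 h2 h3
        rcases h3 with h3 | h3
        · obtain ⟨i, hi, hj⟩ := h3
          refine Or.inl ⟨i, ?_, ?_⟩
          · have e1 : ((1 - ε) * M) ^ γ * ((1 - ε) * M) = ((1 - ε) * M) ^ ρ := by
              rw [← Real.rpow_add_one hX0.ne']
              congr 1
              rw [hγ]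
              ring
            rw [e1]
            have : ((1 - ε) * M) ^ ρ ≤ (n : ℝ) ^ ρ :=
              Real.rpow_le_rpow hX0.le h1.le (by linarith)
            linarith
          · intro j hji
            have : (n : ℝ) ≤ (Pool.Agent.H83.EX.C^[j] n : ℝ) := by exact_mod_cast hj j hji
            linarith
        · exact reach_stays (M := M) h1 h3)
      beta_reduce
      refine hr.trans (le_of_eq ?_)
      have e2 : (((1 - ε) * M) ^ γ) ^ (-θ) = (1 - ε) ^ (-(γ * θ)) * M ^ (-(γ * θ)) := by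
        rw [← Real.rpow_mul hX0.le, Real.mul_rpow h1ε.le hMpos.le]
        congr 2 <;> ring
      have e3 : M * M ^ (-(γ * θ)) = M ^ a := by
        have : a = 1 + -(γ * θ) := by rw [ha]; ring
        rw [this, Real.rpow_add hMpos, Real.rpow_one]
      rw [e2, hA, ← e3]
      ring)
    N hN0
  beta_reduce at key
  rw [← S'_eq] at key
  have hp : 0 < (N : ℝ) ^ a := Real.rpow_pos_of_pos hN0 _
  have h3 := mul_le_mul_of_nonneg_right hAa hp.le
  have e9 : (mean κ / a + η) * (N : ℝ) ^ a = (mean κ / a + η / 2) * (N : ℝ) ^ a +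
      η / 2 * (N : ℝ) ^ a := by ring
  rw [e9]
  linarith

lemma asymS_low {θ : ℝ} {κ : ℕ → ℝ} (hθ0 : 0 < θ) (hθ : θ < 52 / 23) (h : Hyp θ κ)
    (hκ : 0 < mean κ) {ρ : ℝ} (hρ1 : 1 < ρ) (hρ2 : ρ ≤ 53 / 50) {η : ℝ} (hη : 0 < η) :
    ∀ᶠ N : ℕ in atTop,
      (mean κ / (1 - θ * (ρ - 1)) - η) * (N : ℝ) ^ (1 - θ * (ρ - 1)) ≤ (S ρ N : ℝ) := by
  set γ : ℝ := ρ - 1 with hγ
  have hγ0 : 0 < γ := by linarith
  have hγ1 : γ ≤ 3 / 50 := by linarith
  set a : ℝ := 1 - θ * γ with ha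
  have hθγ : θ * γ ≤ 52 / 23 * (3 / 50) := mul_le_mul hθ.le hγ1 hγ0.le (by norm_num)
  have hθγ0 : 0 < θ * γ := mul_pos hθ0 hγ0
  have ha86 : 43 / 50 < a := by
    rw [ha]
    have : (52 : ℝ) / 23 * (3 / 50) < 7 / 50 := by norm_num
    linarith
  have ha0 : 0 < a := by linarith
  have ha1 : a ≤ 1 := by rw [ha]; linarith
  set η' : ℝ := min η (mean κ) / 8 with hη'
  have hη'0 : 0 < η' := by positivity
  have hη'1 : 8 * η' ≤ η := by rw [hη']; linarith [min_le_left η (mean κ)]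
  have hη'2 : 8 * η' ≤ mean κ := by rw [hη']; linarith [min_le_right η (mean κ)]
  obtain ⟨δ, hδ, hδ'⟩ := near_one (-θ) (s := η' / mean κ) (by positivity)
  set ε : ℝ := min δ (1 / 2) with hε
  have hε0 : 0 < ε := lt_min hδ (by norm_num)
  have hε2 : ε ≤ 1 / 2 := min_le_right _ _
  obtain ⟨M0, L0, D, hM0, hL0, hD, hrec⟩ := intLow hθ0 h hη'0 hε0 (by linarith)
  have h1ε : 0 < 1 - ε := by linarith
  have hfac := (hδ' ε hε0 (min_le_left _ _)).2.2
  have tg : Tendsto (fun M : ℝ => (1 + ε) * M ^ γ) atTop atTop :=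
    (tendsto_rpow_atTop hγ0).const_mul_atTop (by linarith)
  obtain ⟨M2, hM2⟩ := Filter.eventually_atTop.mp (tg.eventually_ge_atTop L0)
  set M1 : ℝ := max M0 M2 with hM1
  have hM1ge : 1 ≤ M1 := hM0.trans (le_max_left _ _)
  have hqa : (1 - ε) ^ a < 1 := Real.rpow_lt_one h1ε.le (by linarith) ha0
  have hqb : (1 - ε) ^ (43 / 50 : ℝ) < 1 := Real.rpow_lt_one h1ε.le (by linarith) (by norm_num)
  have hpε : 0 < (1 + ε) ^ (-θ) := Real.rpow_pos_of_pos (by linarith) _
  set A : ℝ := (mean κ - η') * ε * (1 + ε) ^ (-θ) with hA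
  have hA0 : 0 ≤ A := by
    have : 0 ≤ mean κ - η' := by linarith
    positivity
  have hAa : mean κ / a - 4 * η' ≤ A / (1 - (1 - ε) ^ a) := by
    have hb := bern_up hε0 (by linarith) ha0 ha1
    have h1 : A / (a * ε / (1 - ε)) ≤ A / (1 - (1 - ε) ^ a) :=
      div_le_div_of_nonneg_left hA0 (by linarith) hb
    have h2 : A / (a * ε / (1 - ε)) = (mean κ - η') * ((1 + ε) ^ (-θ) * (1 - ε)) / a := by
      rw [hA]
      field_simp
    have h3 : mean κ - 2 * η' ≤ (mean κ - η') * ((1 + ε) ^ (-θ) * (1 - ε)) := by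
      have h4 : (mean κ - η') * (1 - η' / mean κ) ≤
          (mean κ - η') * ((1 + ε) ^ (-θ) * (1 - ε)) :=
        mul_le_mul_of_nonneg_left hfac (by linarith)
      have h5 : mean κ - 2 * η' ≤ (mean κ - η') * (1 - η' / mean κ) := by
        have e : (mean κ - η') * (1 - η' / mean κ) = mean κ - 2 * η' + η' ^ 2 / mean κ := by
          field_simp
          ring
        rw [e]
        have : 0 ≤ η' ^ 2 / mean κ := by positivity
        linarith
      linarith
    have h6 : (mean κ - 2 * η') / a ≤ (mean κ - η') * ((1 + ε) ^ (-θ) * (1 - ε)) / a :=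
      div_le_div_of_nonneg_right h3 ha0.le
    have h7 : mean κ / a - 4 * η' ≤ (mean κ - 2 * η') / a := by
      have e : (mean κ - 2 * η') / a = mean κ / a - 2 * η' / a := by
        field_simp
      rw [e]
      have : 2 * η' / a ≤ 4 * η' := by
        rw [div_le_iff₀ ha0]
        nlinarith
      linarith
    rw [h2] at h1
    linarith
  have hev := small_err (A / (1 - (1 - ε) ^ a) * M1 ^ a) (D / (1 - (1 - ε) ^ (43 / 50 : ℝ)))
    (b := a) (s := η') ha86 hη'0
  filter_upwards [hev, eventually_ge_atTop 1] with N h1 h2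
  have hN0 : (0 : ℝ) < N := by exact_mod_cast h2
  have key := rec_low (f := fun M => (cnt (fun n => Exceeds ρ n) M : ℝ)) (q := 1 - ε)
    (A := A) (D := D) (a := a) (b := 43 / 50) (M1 := M1)
    h1ε (by linarith) ha0 (by norm_num) hA0 hD (by linarith)
    (fun M _ => Nat.cast_nonneg _)
    (by
      intro M hM
      have hMM0 : M0 ≤ M := (le_max_left _ _).trans hM
      have hMpos : 0 < M := by linarith
      have hr := hrec M ((1 + ε) * M ^ γ) hMM0 (hM2 M ((le_max_right _ _).trans hM))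
        (fun n => Exceeds ρ n) (by
        intro n h1 h2 h3
        obtain ⟨i, hi, hj⟩ := h3
        have hn0 : (0 : ℝ) < n := lt_of_le_of_lt (by positivity) h1
        refine ⟨i, ?_, ?_⟩
        · have e1 : (n : ℝ) ^ ρ = (n : ℝ) ^ γ * n := by
            rw [← Real.rpow_add_one hn0.ne']
            congr 1
            rw [hγ]
            ring
          have e2 : (n : ℝ) ^ γ ≤ M ^ γ := Real.rpow_le_rpow hn0.le h2 hγ0.le
          have hMγ : 0 < M ^ γ := Real.rpow_pos_of_pos hMpos _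
          have e3 : (n : ℝ) ^ γ * n ≤ M ^ γ * n := mul_le_mul_of_nonneg_right e2 hn0.le
          have e4 : M ^ γ * n < (1 + ε) * M ^ γ * n := by
            have : 0 < ε * M ^ γ * n := by positivity
            nlinarith
          rw [e1]
          linarith
        · intro j hji
          have h4 := hj j hji
          rw [one_mul] at h4
          exact_mod_cast h4)
      beta_reduce
      have hMγ : 0 < M ^ γ := Real.rpow_pos_of_pos hMpos _
      have e2 : ((1 + ε) * M ^ γ) ^ (-θ) = (1 + ε) ^ (-θ) * M ^ (-(γ * θ)) := by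
        rw [Real.mul_rpow (by linarith) hMγ.le, ← Real.rpow_mul hMpos.le]
        congr 2
        ring
      have e3 : M * M ^ (-(γ * θ)) = M ^ a := by
        have : a = 1 + -(γ * θ) := by rw [ha]; ring
        rw [this, Real.rpow_add hMpos, Real.rpow_one]
      rw [e2] at hr
      have e4 : (mean κ - η') * ε * M * ((1 + ε) ^ (-θ) * M ^ (-(γ * θ))) = A * M ^ a := by
        rw [hA, ← e3]
        ring
      rw [e4] at hr
      exact hr)
    N hN0
  beta_reduce at key
  rw [← S_eq] at key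
  have hp : 0 < (N : ℝ) ^ a := Real.rpow_pos_of_pos hN0 _
  have h3 := mul_le_mul_of_nonneg_right hAa hp.le
  have h4 : (mean κ / a - η) * (N : ℝ) ^ a ≤ (mean κ / a - 5 * η') * (N : ℝ) ^ a :=
    mul_le_mul_of_nonneg_right (by linarith) hp.le
  have e9 : (mean κ / a - 5 * η') * (N : ℝ) ^ a = (mean κ / a - 4 * η') * (N : ℝ) ^ a -
      η' * (N : ℝ) ^ a := by ring
  rw [e9] at h4
  linarith

/-- The asymptotic formula for `S`. -/
theorem asymS {θ : ℝ} {κ : ℕ → ℝ} (hθ0 : 0 < θ) (hθ : θ < 52 / 23) (h : Hyp θ κ)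
    (hκ : 0 < mean κ) {ρ : ℝ} (hρ1 : 1 < ρ) (hρ2 : ρ ≤ 53 / 50) :
    Tendsto (fun N : ℕ => (S ρ N : ℝ) / (N : ℝ) ^ (1 - θ * (ρ - 1))) atTop
      (nhds (mean κ / (1 - θ * (ρ - 1)))) := by
  rw [Metric.tendsto_nhds]
  intro η hη
  filter_upwards [asymS_up hθ0 hθ h hρ1 hρ2 (show 0 < η / 2 by linarith),
    asymS_low hθ0 hθ h hκ hρ1 hρ2 (show 0 < η / 2 by linarith), eventually_ge_atTop 1]
    with N h1 h2 h3
  have hN0 : (0 : ℝ) < N := by exact_mod_cast h3
  have hp : 0 < (N : ℝ) ^ (1 - θ * (ρ - 1)) := Real.rpow_pos_of_pos hN0 _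
  have h4 : (S ρ N : ℝ) ≤ (S' ρ N : ℝ) := by exact_mod_cast S_le_S' ρ N
  have h5 : (S ρ N : ℝ) / (N : ℝ) ^ (1 - θ * (ρ - 1)) ≤ mean κ / (1 - θ * (ρ - 1)) + η / 2 := by
    rw [div_le_iff₀ hp]
    linarith
  have h6 : mean κ / (1 - θ * (ρ - 1)) - η / 2 ≤ (S ρ N : ℝ) / (N : ℝ) ^ (1 - θ * (ρ - 1)) := by
    rw [le_div_iff₀ hp]
    exact h2
  rw [Real.dist_eq, abs_lt]
  constructor <;> linarith

/-- The density of the starting values whose trajectory rises above `L * n` before it falls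
below `n` is asymptotic to a constant times `L ^ (-θ)`. -/
theorem asymD {θ : ℝ} {κ : ℕ → ℝ} (hθ0 : 0 < θ) (hθ : θ < 52 / 23) (h : Hyp θ κ)
    (hκ : 0 < mean κ) {d : ℝ → ℝ}
    (hd : ∀ L : ℝ, Tendsto (fun N : ℕ => (R L N : ℝ) / N) atTop (nhds (d L))) :
    Tendsto (fun L : ℝ => d L * L ^ θ) atTop (nhds (mean κ)) := by
  rw [Metric.tendsto_nhds]
  intro η hη
  obtain ⟨N1, L1, hL1, h1⟩ := asymL_up hθ0 hθ h (show 0 < η / 2 by linarith)
  obtain ⟨N2, L2, hL2, h2⟩ := asymL_low hθ0 hθ h hκ (show 0 < η / 2 by linarith)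
  filter_upwards [eventually_ge_atTop (max L1 L2)] with L hL
  have hLa : L1 ≤ L := (le_max_left _ _).trans hL
  have hLb : L2 ≤ L := (le_max_right _ _).trans hL
  have hL0 : 0 < L := by linarith
  have hLp : 0 < L ^ (-θ) := Real.rpow_pos_of_pos hL0 _
  have tN : Tendsto (fun N : ℕ => (N : ℝ) ^ (3 / 50 : ℝ)) atTop atTop :=
    (tendsto_rpow_atTop (by norm_num)).comp tendsto_natCast_atTop_atTop
  have hup : d L ≤ (mean κ + η / 2) * L ^ (-θ) := by
    refine le_of_tendsto (hd L) ?_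
    filter_upwards [tN.eventually_ge_atTop L, eventually_ge_atTop N1, eventually_ge_atTop 1]
      with N a1 a2 a3
    have hN0 : (0 : ℝ) < N := by exact_mod_cast a3
    have a4 := h1 N a2 L hLa a1
    have a5 : (R L N : ℝ) ≤ (R' L N : ℝ) := by exact_mod_cast R_le_R' L N
    rw [div_le_iff₀ hN0]
    nlinarith
  have hlow : (mean κ - η / 2) * L ^ (-θ) ≤ d L := by
    refine ge_of_tendsto (hd L) ?_
    filter_upwards [tN.eventually_ge_atTop L, eventually_ge_atTop N2, eventually_ge_atTop 1]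
      with N a1 a2 a3
    have hN0 : (0 : ℝ) < N := by exact_mod_cast a3
    have a4 := h2 N a2 L hLb a1
    rw [le_div_iff₀ hN0]
    nlinarith
  have e : L ^ (-θ) * L ^ θ = 1 := by
    rw [← Real.rpow_add hL0]
    simp
  have hLθ : 0 < L ^ θ := Real.rpow_pos_of_pos hL0 _
  have h3 := mul_le_mul_of_nonneg_right hup hLθ.le
  have h4 := mul_le_mul_of_nonneg_right hlow hLθ.le
  rw [mul_assoc, e, mul_one] at h3 h4
  rw [Real.dist_eq, abs_lt]
  constructor <;> linarith

end Pool.Agent.H12.EV
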