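import Pool.Agent.H12.EV.Model

/-!
The model probabilities are continuous from the left.
-/

namespace Pool.Agent.H12.EV

open Filter

lemma ev_gt {a : ℝ} (ha : 1 < a) : ∀ᶠ ε : ℝ in nhdsWithin 0 (Set.Ioi 0), 1 < a * (1 - ε) := by
  have t : Tendsto (fun ε : ℝ => a * (1 - ε)) (nhds 0) (nhds (a * (1 - 0))) := by
    have : Continuous (fun ε : ℝ => a * (1 - ε)) := by fun_prop
    exact this.tendsto 0
  have e : a * (1 - 0) = a := by ring
  rw [e] at t
  exact (t.mono_left nhdsWithin_le_nhds).eventually (lt_mem_nhds ha)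

lemma ev_le {a : ℝ} (ha0 : 0 ≤ a) (ha : a ≤ 1) :
    ∀ᶠ ε : ℝ in nhdsWithin 0 (Set.Ioi 0), a * (1 - ε) ≤ 1 := by
  filter_upwards [self_mem_nhdsWithin] with ε hε
  have : 0 < ε := hε
  nlinarith

lemma Phi_left (i : ℕ) : ∀ (r : ℕ) (L R : ℝ), 0 < L → 0 < R →
    ∀ᶠ ε : ℝ in nhdsWithin 0 (Set.Ioi 0), Phi i r (L * (1 - ε)) (R * (1 - ε)) = Phi i r L R := by
  induction i with
  | zero =>
    intro r L R hL hR
    have e0 : ∀ L R : ℝ, Phi 0 r L R = if 1 < R then 0 else if L ≤ 1 then 1 else 0 :=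
      fun _ _ => rfl
    by_cases h1 : 1 < R
    · filter_upwards [ev_gt h1] with ε h2
      rw [e0, e0, if_pos h1, if_pos h2]
    · by_cases h3 : L ≤ 1
      · filter_upwards [ev_le hR.le (not_lt.mp h1), ev_le hL.le h3] with ε h2 h4
        rw [e0, e0, if_neg h1, if_neg (not_lt.mpr h2), if_pos h3, if_pos h4]
      · filter_upwards [ev_le hR.le (not_lt.mp h1), ev_gt (not_le.mp h3)] with ε h2 h4
        rw [e0, e0, if_neg h1, if_neg (not_lt.mpr h2), if_neg h3, if_neg (not_le.mpr h4)]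
  | succ i ih =>
    intro r L R hL hR
    have e0 : ∀ L R : ℝ, Phi (i + 1) r L R =
      if 1 < R then 0 else if L ≤ 1 then 1 else Op (Phi i) r L R := fun _ _ => rfl
    by_cases h1 : 1 < R
    · filter_upwards [ev_gt h1] with ε h2
      rw [e0, e0, if_pos h1, if_pos h2]
    · by_cases h3 : L ≤ 1
      · filter_upwards [ev_le hR.le (not_lt.mp h1), ev_le hL.le h3] with ε h2 h4
        rw [e0, e0, if_neg h1, if_neg (not_lt.mpr h2), if_pos h3, if_pos h4]
      · have c2 : ∀ s, ∀ᶠ ε : ℝ in nhdsWithin 0 (Set.Ioi 0),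
            Phi i s (2 * L * (1 - ε)) (2 * R * (1 - ε)) = Phi i s (2 * L) (2 * R) :=
          fun s => ih s (2 * L) (2 * R) (by linarith) (by linarith)
        have c3 : ∀ s, ∀ᶠ ε : ℝ in nhdsWithin 0 (Set.Ioi 0),
            Phi i s (3 * L * (1 - ε)) (3 * R * (1 - ε)) = Phi i s (3 * L) (3 * R) :=
          fun s => ih s (3 * L) (3 * R) (by linarith) (by linarith)
        have c5 : ∀ s, ∀ᶠ ε : ℝ in nhdsWithin 0 (Set.Ioi 0),
            Phi i s (L / 5 * (1 - ε)) (R / 5 * (1 - ε)) = Phi i s (L / 5) (R / 5) :=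
          fun s => ih s (L / 5) (R / 5) (by linarith) (by linarith)
        filter_upwards [ev_le hR.le (not_lt.mp h1), ev_gt (not_le.mp h3), c2 0, c2 1, c2 2, c2 3,
          c2 4, c2 5, c3 1, c3 3, c3 5, c5 0, c5 2] with ε h2 h4 a0 a1 a2 a3 a4 a5 b1 b3 b5 d0 d2
        rw [e0, e0, if_neg h1, if_neg (not_lt.mpr h2), if_neg h3, if_neg (not_le.mpr h4)]
        have q2 : 2 * (L * (1 - ε)) = 2 * L * (1 - ε) := by ring
        have q2' : 2 * (R * (1 - ε)) = 2 * R * (1 - ε) := by ring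
        have q3 : 3 * (L * (1 - ε)) = 3 * L * (1 - ε) := by ring
        have q3' : 3 * (R * (1 - ε)) = 3 * R * (1 - ε) := by ring
        have q5 : L * (1 - ε) / 5 = L / 5 * (1 - ε) := by ring
        have q5' : R * (1 - ε) / 5 = R / 5 * (1 - ε) := by ring
        unfold Op
        rw [q2, q2', q3, q3', q5, q5', a0, a1, a2, a3, a4, a5, b1, b3, b5, d0, d2]

lemma F_le_Phi (i : ℕ) : ∀ (r : ℕ) (L R : ℝ), r < 6 → 0 < L → 0 < R →
    F r L R ≤ Phi i r L R + (19 / 20) ^ i * 20 * (w r / R) := by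
  induction i with
  | zero =>
    intro r L R hr hL hR
    have e0 : Phi 0 r L R = if 1 < R then 0 else if L ≤ 1 then 1 else 0 := rfl
    have hw := w_ge r
    have hw0 : 0 ≤ w r / R := div_nonneg (w_pos r).le hR.le
    by_cases h1 : 1 < R
    · rw [F_zero h1, e0, if_pos h1]
      have : 0 ≤ (19 / 20 : ℝ) ^ 0 * 20 * (w r / R) := by positivity
      linarith
    · by_cases h3 : L ≤ 1
      · rw [F_one h3 (not_lt.mp h1), e0, if_neg h1, if_pos h3]
        have : 0 ≤ (19 / 20 : ℝ) ^ 0 * 20 * (w r / R) := by positivity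
        linarith
      · rw [e0, if_neg h1, if_neg h3]
        have h4 := F_le_one r L R
        have h5 : w r ≤ w r / R := by
          rw [le_div_iff₀ hR]
          nlinarith [w_pos r, not_lt.mp h1]
        rw [pow_zero]
        linarith
  | succ i ih =>
    intro r L R hr hL hR
    have e0 : Phi (i + 1) r L R =
      if 1 < R then 0 else if L ≤ 1 then 1 else Op (Phi i) r L R := rfl
    have hnn : 0 ≤ (19 / 20 : ℝ) ^ (i + 1) * 20 * (w r / R) := by
      have := w_pos r
      positivity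
    by_cases h1 : 1 < R
    · rw [F_zero h1, e0, if_pos h1]
      linarith
    · by_cases h3 : L ≤ 1
      · rw [F_one h3 (not_lt.mp h1), e0, if_neg h1, if_pos h3]
        linarith
      · rw [e0, if_neg h1, if_neg h3, F_step (not_le.mp h3) (not_lt.mp h1)]
        have hw := Op_w hr (R := R) hR
        have hw' : (19 / 20 : ℝ) ^ i * 20 * Op (fun r L _ => w r / L) r R R ≤
            (19 / 20) ^ (i + 1) * 20 * (w r / R) := by
          have h4 := mul_le_mul_of_nonneg_left hw
            (show (0 : ℝ) ≤ (19 / 20 : ℝ) ^ i * 20 by positivity)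
          refine h4.trans (le_of_eq ?_)
          rw [pow_succ]
          ring
        refine le_trans ?_ (add_le_add_right hw' _)
        have c2 : ∀ s, s < 6 → F s (2 * L) (2 * R) ≤ Phi i s (2 * L) (2 * R) +
            (19 / 20) ^ i * 20 * (w s / (2 * R)) :=
          fun s hs => ih s (2 * L) (2 * R) hs (by linarith) (by linarith)
        have c3 : ∀ s, s < 6 → F s (3 * L) (3 * R) ≤ Phi i s (3 * L) (3 * R) +
            (19 / 20) ^ i * 20 * (w s / (3 * R)) :=
          fun s hs => ih s (3 * L) (3 * R) hs (by linarith) (by linarith)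
        have c5 : ∀ s, s < 6 → F s (L / 5) (R / 5) ≤ Phi i s (L / 5) (R / 5) +
            (19 / 20) ^ i * 20 * (w s / (R / 5)) :=
          fun s hs => ih s (L / 5) (R / 5) hs (by linarith) (by linarith)
        unfold Op
        beta_reduce
        split_ifs
        · linarith [c2 0 (by norm_num), c2 3 (by norm_num)]
        · linarith [c5 0 (by norm_num)]
        · linarith [c2 1 (by norm_num), c2 4 (by norm_num)]
        · linarith [c3 1 (by norm_num), c3 3 (by norm_num), c3 5 (by norm_num)]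
        · linarith [c2 2 (by norm_num), c2 5 (by norm_num)]
        · linarith [c5 2 (by norm_num)]

lemma F_left {r : ℕ} (hr : r < 6) {L : ℝ} (hL : 0 < L) {η : ℝ} (hη : 0 < η) :
    ∀ᶠ ε : ℝ in nhdsWithin 0 (Set.Ioi 0), F r (L * (1 - ε)) (1 - ε) ≤ F r L 1 + η := by
  have hpow : Tendsto (fun i : ℕ => (19 / 20 : ℝ) ^ i * 40) atTop (nhds (0 * 40)) :=
    (tendsto_pow_atTop_nhds_zero_of_lt_one (by norm_num) (by norm_num)).mul_const 40
  rw [zero_mul] at hpow
  obtain ⟨i, hi⟩ := (hpow.eventually (gt_mem_nhds hη)).exists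
  have h1 := Phi_left i r L 1 hL one_pos
  have h2 : ∀ᶠ ε : ℝ in nhdsWithin 0 (Set.Ioi 0), ε < 1 / 2 := by
    have : ∀ᶠ ε : ℝ in nhds 0, ε < 1 / 2 := gt_mem_nhds (by norm_num)
    exact nhdsWithin_le_nhds this
  filter_upwards [h1, h2, self_mem_nhdsWithin] with ε a1 a2 a3
  have a3' : 0 < ε := a3
  rw [one_mul] at a1
  have h3 := F_le_Phi i r (L * (1 - ε)) (1 - ε) hr (mul_pos hL (by linarith)) (by linarith)
  rw [a1] at h3
  have h4 := Phi_le_F i r L 1
  have h5 : w r / (1 - ε) ≤ 2 := by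
    rw [div_le_iff₀ (by linarith)]
    linarith [w_le_one r]
  have h6 : (19 / 20 : ℝ) ^ i * 20 * (w r / (1 - ε)) ≤ (19 / 20) ^ i * 20 * 2 :=
    mul_le_mul_of_nonneg_left h5 (by positivity)
  linarith

end Pool.Agent.H12.EV
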