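import Mathlib

/-!
The numbers `m log 3 - n log (25 / 12)` are dense.
-/

namespace Pool.Agent.H12.EV

lemma log_ne (k j : ℕ) (hk : 0 < k) :
    (k : ℝ) * Real.log 3 ≠ j * Real.log (25 / 12) := by
  intro h
  have h1 : Real.log ((3 : ℝ) ^ k) = Real.log ((25 / 12 : ℝ) ^ j) := by
    rw [Real.log_pow, Real.log_pow]
    exact h
  have h2 : ((3 : ℝ) ^ k) = ((25 / 12 : ℝ) ^ j) :=
    Real.log_injOn_pos (Set.mem_Ioi.mpr (by positivity)) (Set.mem_Ioi.mpr (by positivity)) h1
  have h3 : ((3 : ℝ) ^ k) * 12 ^ j = 25 ^ j := by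
    rw [h2, ← mul_pow]
    norm_num
  have h4 : 3 ^ k * 12 ^ j = 25 ^ j := by exact_mod_cast h3
  have h5 : 3 ∣ 25 ^ j := by
    rw [← h4]
    exact Dvd.dvd.mul_right (dvd_pow_self 3 (by omega)) _
  have h6 := Nat.Prime.dvd_of_dvd_pow Nat.prime_three h5
  omega

theorem dense_exp (A δ : ℝ) (hδ : 0 < δ) : ∃ N0 : ℕ, ∀ y : ℝ, |y| ≤ A → ∃ m n : ℕ,
    m ≤ N0 ∧ n ≤ N0 ∧ y ≤ m * Real.log 3 - n * Real.log (25 / 12) ∧
      m * Real.log 3 - n * Real.log (25 / 12) ≤ y + δ := by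
  set a := Real.log 3 with ha
  set b := Real.log (25 / 12) with hb
  have ha0 : 0 < a := Real.log_pos (by norm_num)
  have hb0 : 0 < b := Real.log_pos (by norm_num)
  -- Dirichlet
  obtain ⟨n1, hn1⟩ := exists_nat_gt (b / min δ a)
  have hmin : 0 < min δ a := lt_min hδ ha0
  have hn1p : 0 < n1 := by
    have : (0 : ℝ) < n1 := lt_of_le_of_lt (by positivity) hn1
    exact_mod_cast this
  obtain ⟨j, k, hk0, hkn, hjk⟩ := Real.exists_int_int_abs_mul_sub_le (a / b) hn1p
  have h1 : |(k : ℝ) * a - j * b| < min δ a := by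
    have e1 : (k : ℝ) * a - j * b = b * ((k : ℝ) * (a / b) - j) := by
      field_simp
    rw [e1, abs_mul, abs_of_pos hb0]
    have e2 : b * |(k : ℝ) * (a / b) - j| ≤ b * (1 / (n1 + 1)) :=
      mul_le_mul_of_nonneg_left hjk hb0.le
    refine lt_of_le_of_lt e2 ?_
    rw [mul_one_div, div_lt_iff₀ (by positivity)]
    rw [div_lt_iff₀ hmin] at hn1
    nlinarith
  have hk1 : (1 : ℝ) ≤ k := by exact_mod_cast hk0
  have hj0 : 0 ≤ j := by
    by_contra hneg
    have hj1 : (j : ℝ) ≤ -1 := by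
      have : j ≤ -1 := by omega
      exact_mod_cast this
    have e1 := (abs_lt.mp h1).2
    have e2 := min_le_right δ a
    nlinarith
  obtain ⟨j', rfl⟩ := Int.eq_ofNat_of_zero_le hj0
  obtain ⟨k', rfl⟩ := Int.eq_ofNat_of_zero_le hk0.le
  have hk'0 : 0 < k' := by omega
  simp only [Int.cast_natCast] at h1
  have hne : (k' : ℝ) * a - j' * b ≠ 0 := by
    intro h
    exact log_ne k' j' hk'0 (by linarith)
  obtain ⟨m0, hm0⟩ := exists_nat_gt ((A + δ) / a)
  obtain ⟨n0, hn0⟩ := exists_nat_gt (A / b)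
  rw [div_lt_iff₀ ha0] at hm0
  rw [div_lt_iff₀ hb0] at hn0
  set γ := (k' : ℝ) * a - j' * b with hγ
  have hg0 : 0 < |γ| := abs_pos.mpr hne
  obtain ⟨l0, hl0⟩ := exists_nat_gt ((A + m0 * a + n0 * b) / |γ| + 1)
  refine ⟨m0 + n0 + l0 * (k' + j'), fun y hy => ?_⟩
  have hy' := abs_le.mp hy
  have hm00 : (0 : ℝ) ≤ m0 * a := by positivity
  have hn00 : (0 : ℝ) ≤ n0 * b := by positivity
  rcases lt_or_gt_of_ne hne with hlt | hgt
  · -- γ < 0
    have hg : |γ| = -γ := abs_of_neg hlt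
    set l := ⌊((m0 : ℝ) * a - y) / |γ|⌋₊ with hl
    have q0 : 0 ≤ ((m0 : ℝ) * a - y) / |γ| := by
      apply div_nonneg _ hg0.le
      linarith [hy'.2]
    have q1 : (l : ℝ) ≤ ((m0 : ℝ) * a - y) / |γ| := Nat.floor_le q0
    have q2 : ((m0 : ℝ) * a - y) / |γ| < l + 1 := Nat.lt_floor_add_one _
    rw [le_div_iff₀ hg0] at q1
    have q3 := q2
    rw [div_lt_iff₀ hg0] at q2
    have hle : l ≤ l0 := by
      have r1 : (l : ℝ) ≤ (A + m0 * a + n0 * b) / |γ| := by
        rw [le_div_iff₀ hg0]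
        linarith [hy'.1]
      have r2 : (l : ℝ) < l0 := by linarith
      have r3 : l < l0 := by exact_mod_cast r2
      omega
    refine ⟨m0 + l * k', l * j', ?_, ?_, ?_, ?_⟩
    · nlinarith [Nat.mul_le_mul_right k' hle, Nat.zero_le (l0 * j'), Nat.zero_le n0]
    · nlinarith [Nat.mul_le_mul_right j' hle, Nat.zero_le (l0 * k'), Nat.zero_le n0,
        Nat.zero_le m0]
    · push_cast
      have e1 : ((m0 : ℝ) + l * k') * a - l * j' * b = m0 * a + l * γ := by
        rw [hγ]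
        ring
      rw [e1]
      rw [hg] at q1
      linarith
    · push_cast
      have e1 : ((m0 : ℝ) + l * k') * a - l * j' * b = m0 * a + l * γ := by
        rw [hγ]
        ring
      rw [e1]
      have e2 : |γ| < δ := lt_of_lt_of_le h1 (min_le_left _ _)
      rw [hg] at q2 e2
      linarith
  · -- γ > 0
    have hg : |γ| = γ := abs_of_pos hgt
    set l := ⌈(y + (n0 : ℝ) * b) / |γ|⌉₊ with hl
    have q0 : 0 ≤ (y + (n0 : ℝ) * b) / |γ| := by
      apply div_nonneg _ hg0.le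
      linarith [hy'.1]
    have q1 : (y + (n0 : ℝ) * b) / |γ| ≤ l := Nat.le_ceil _
    have q2 : (l : ℝ) < (y + (n0 : ℝ) * b) / |γ| + 1 := Nat.ceil_lt_add_one q0
    have hle : l ≤ l0 := by
      have r1 : (y + (n0 : ℝ) * b) / |γ| ≤ (A + m0 * a + n0 * b) / |γ| := by
        apply div_le_div_of_nonneg_right _ hg0.le
        linarith [hy'.2]
      have r2 : (l : ℝ) < l0 := by linarith
      have r3 : l < l0 := by exact_mod_cast r2
      omega
    rw [div_le_iff₀ hg0] at q1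
    have q3 : (l : ℝ) * |γ| < y + n0 * b + |γ| := by
      have r1 := mul_lt_mul_of_pos_right q2 hg0
      have r2 : ((y + (n0 : ℝ) * b) / |γ| + 1) * |γ| = y + n0 * b + |γ| := by
        field_simp
      linarith
    refine ⟨l * k', n0 + l * j', ?_, ?_, ?_, ?_⟩
    · nlinarith [Nat.mul_le_mul_right k' hle, Nat.zero_le (l0 * j'), Nat.zero_le n0,
        Nat.zero_le m0]
    · nlinarith [Nat.mul_le_mul_right j' hle, Nat.zero_le (l0 * k'), Nat.zero_le n0,
        Nat.zero_le m0]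
    · push_cast
      have e1 : (l : ℝ) * k' * a - (n0 + l * j') * b = l * γ - n0 * b := by
        rw [hγ]
        ring
      rw [e1]
      rw [hg] at q1
      linarith
    · push_cast
      have e1 : (l : ℝ) * k' * a - (n0 + l * j') * b = l * γ - n0 * b := by
        rw [hγ]
        ring
      rw [e1]
      have e2 : |γ| < δ := lt_of_lt_of_le h1 (min_le_left _ _)
      rw [hg] at q3 e2
      linarith

end Pool.Agent.H12.EV
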