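import Pool.Agent.H12.EU.Uni
import Pool.Agent.H87.KD.Lim
import Pool.Agent.H19.KD.Alive

/-!
The set of the `n` whose trajectory rises above `L * n` before it falls below `n` has a density.
-/

namespace Pool.Agent.H12.EV

open Filter Finset Pool.Agent.H12.EU Pool.Agent.H83.EX

open Classical in
lemma riseIn_R (L : ℝ) (i N : ℕ) :
    ((Icc 1 N).filter (fun n => Pool.Agent.H87.KD.RiseIn L i n)).card ≤ R L N := by
  unfold R
  apply Finset.card_le_card
  intro n hn
  rw [Finset.mem_filter] at hn ⊢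
  obtain ⟨h1, j, hj, h2, h3⟩ := hn
  exact ⟨h1, j, h2, h3⟩

open Classical in
lemma R_riseIn (L : ℝ) (i N : ℕ) :
    R L N ≤ ((Icc 1 N).filter (fun n => Pool.Agent.H87.KD.RiseIn L i n)).card +
      ((Icc 1 N).filter (fun n => ∀ j : ℕ, j ≤ i → n ≤ C^[j] n)).card := by
  unfold R
  refine le_trans (Finset.card_le_card ?_) (Finset.card_union_le _ _)
  intro n hn
  rw [Finset.mem_filter] at hn
  rw [Finset.mem_union, Finset.mem_filter, Finset.mem_filter]
  obtain ⟨h1, j, h2, h3⟩ := hn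
  by_cases hj : j ≤ i
  · left
    exact ⟨h1, j, hj, h2, h3⟩
  · right
    exact ⟨h1, fun l hl => h3 l (by omega)⟩

theorem density (L : ℝ) : ∃ d : ℝ, Tendsto (fun N : ℕ => (R L N : ℝ) / N) atTop (nhds d) := by
  classical
  obtain ⟨c, lam, hc, hl0, hl1, hK⟩ := Pool.Agent.H19.KD.alive_le
  apply cauchySeq_tendsto_of_complete
  rw [Metric.cauchySeq_iff']
  intro ε hε
  have hpow : Tendsto (fun i : ℕ => c * lam ^ i) atTop (nhds (c * 0)) :=
    (tendsto_pow_atTop_nhds_zero_of_lt_one hl0.le hl1).const_mul c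
  rw [mul_zero] at hpow
  obtain ⟨i, hi⟩ := (hpow.eventually (gt_mem_nhds (show (0 : ℝ) < ε / 8 by linarith))).exists
  obtain ⟨K, hKi⟩ := hK i
  obtain ⟨d, hd⟩ := Pool.Agent.H87.KD.lim_riseIn L i
  have e1 := hd.eventually (Metric.ball_mem_nhds d (show (0 : ℝ) < ε / 8 by linarith))
  have e2 : ∀ᶠ N : ℕ in atTop, K / (N : ℝ) < ε / 8 :=
    (tendsto_const_div_atTop_nhds_zero_nat K).eventually
      (gt_mem_nhds (show (0 : ℝ) < ε / 8 by linarith))
  obtain ⟨N0, hN0⟩ := ((e1.and e2).and (eventually_ge_atTop 1)).exists_forall_of_atTop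
  have key : ∀ N : ℕ, N0 ≤ N → |(R L N : ℝ) / N - d| < 3 * ε / 8 := by
    intro N hN
    obtain ⟨⟨a1, a2⟩, a3⟩ := hN0 N hN
    have hNp : (0 : ℝ) < N := by exact_mod_cast a3
    rw [Real.dist_eq] at a1
    have b1 : ((((Icc 1 N).filter (fun n => Pool.Agent.H87.KD.RiseIn L i n)).card : ℕ) : ℝ) ≤
        (R L N : ℝ) := by
      have := riseIn_R L i N
      exact_mod_cast (by convert this)
    have b2 : (R L N : ℝ) ≤
        ((((Icc 1 N).filter (fun n => Pool.Agent.H87.KD.RiseIn L i n)).card : ℕ) : ℝ) +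
          (c * lam ^ i * N + K) := by
      have h1 := R_riseIn L i N
      have h2 := hKi N a3
      have h3 : (R L N : ℝ) ≤
          ((((Icc 1 N).filter (fun n => Pool.Agent.H87.KD.RiseIn L i n)).card : ℕ) : ℝ) +
          ((((Icc 1 N).filter (fun n => ∀ j : ℕ, j ≤ i → n ≤ C^[j] n)).card : ℕ) : ℝ) := by
        exact_mod_cast (by convert h1)
      refine h3.trans (add_le_add_right ?_ _)
      convert h2
    have b3 := div_le_div_of_nonneg_right b1 hNp.le
    have b4 := div_le_div_of_nonneg_right b2 hNp.le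
    have b5 : (((((Icc 1 N).filter (fun n => Pool.Agent.H87.KD.RiseIn L i n)).card : ℕ) : ℝ) +
          (c * lam ^ i * N + K)) / N =
        ((((Icc 1 N).filter (fun n => Pool.Agent.H87.KD.RiseIn L i n)).card : ℕ) : ℝ) / N +
          c * lam ^ i + K / N := by
      field_simp
      ring
    rw [b5] at b4
    rw [abs_lt] at a1 ⊢
    constructor
    · linarith [a1.1]
    · linarith [a1.2]
  refine ⟨N0, fun N hN => ?_⟩
  rw [Real.dist_eq]
  have k1 := key N hN
  have k2 := key N0 le_rfl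
  rw [abs_lt] at k1 k2 ⊢
  constructor
  · linarith [k1.1, k2.2]
  · linarith [k1.2, k2.1]

end Pool.Agent.H12.EV
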