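import Pool.Agent.H12.EV.Cont
import Pool.Agent.H12.EV.Asym
import Pool.Agent.H19.EV.UpF
import Pool.Agent.H87.EV.LowF

/-!
The density of the `n` whose trajectory rises above `L * n` before it falls below `n` is the model
probability.
-/

namespace Pool.Agent.H12.EV

open Filter Finset Pool.Agent.H12.EU Pool.Agent.H83.EX

lemma F_even {r : ℕ} (hr : r = 0 ∨ r = 2 ∨ r = 3 ∨ r = 4) {L : ℝ} (hL : 1 < L) : F r L 1 = 0 := by
  rw [F_step hL le_rfl]
  have h2 : ∀ s, F s (2 * L) 2 = 0 := fun s => F_zero (by norm_num)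
  have h3 : ∀ s, F s (3 * L) 3 = 0 := fun s => F_zero (by norm_num)
  unfold Op
  rcases hr with h | h | h | h <;> subst h <;> simp [h2, h3]

open Classical in
/-- The class of `A` modulo 6. -/
lemma class_low : ∃ B : ℝ, 0 ≤ B ∧ ∀ (T A : ℕ) (L : ℝ), 1 < L →
    (T : ℝ) * F (A % 6) L 1 - B * (T : ℝ) ^ (43 / 50 : ℝ) ≤
      (((range T).filter (fun s => Rises L (A + 6 * s))).card : ℝ) := by
  obtain ⟨B, hB0, hB⟩ := Pool.Agent.H87.EV.lowF
  refine ⟨B * 5, by positivity, ?_⟩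
  intro T A L hL
  have hT0 : (0 : ℝ) ≤ (T : ℝ) ^ (43 / 50 : ℝ) := Real.rpow_nonneg (Nat.cast_nonneg T) _
  by_cases hA : A % 6 = 1 ∨ A % 6 = 5
  · have h1 : F (A % 6) L 1 = F ((5 * A + 1) % 6) (L / 5) (1 / 5) := by
      rw [F_step hL le_rfl]
      rcases hA with h | h
      · have e : (5 * A + 1) % 6 = 0 := by omega
        rw [h, e]
        unfold Op
        rw [if_neg (by norm_num), if_pos rfl]
      · have e : (5 * A + 1) % 6 = 2 := by omega
        rw [h, e]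
        unfold Op
        rw [if_neg (by norm_num), if_neg (by norm_num), if_neg (by norm_num),
          if_neg (by norm_num), if_neg (by norm_num)]
    have h2 := hB T (5 * A + 1) 5 (L / 5) (1 / 5) (by norm_num) (by norm_num) (by linarith)
      (by norm_num)
    rw [← h1] at h2
    have h3 : B * (T : ℝ) ^ (43 / 50 : ℝ) / (1 / 5) = B * 5 * (T : ℝ) ^ (43 / 50 : ℝ) := by ring
    rw [h3] at h2
    refine h2.trans ?_
    have h4 : NL (5 * A + 1) 5 (L / 5) (1 / 5) T ≤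
        ((range T).filter (fun s => Rises L (A + 6 * s))).card := by
      unfold NL
      refine Finset.card_le_card ?_
      intro s hs
      rw [mem_filter] at hs ⊢
      refine ⟨hs.1, ?_⟩
      obtain ⟨i, hi, hj⟩ := hs.2
      have hC : C (A + 6 * s) = 5 * A + 1 + 6 * 5 * s := by
        unfold C
        have h5 : (A + 6 * s) % 2 ≠ 0 := by omega
        have h6 : (A + 6 * s) % 3 ≠ 0 := by omega
        rw [if_neg h5, if_neg h6]
        ring
      have hit : ∀ j, C^[j + 1] (A + 6 * s) = C^[j] (5 * A + 1 + 6 * 5 * s) := by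
        intro j
        rw [Function.iterate_succ_apply, hC]
      refine ⟨i + 1, ?_, ?_⟩
      · rw [hit]
        refine lt_of_lt_of_le ?_ hi
        push_cast
        have : (0 : ℝ) < L := by linarith
        nlinarith
      · intro j hji
        rcases j with _ | j
        · simp
        · rw [hit]
          have h7 := hj j (by omega)
          push_cast at h7
          have h8 : ((A + 6 * s : ℕ) : ℝ) ≤ ((C^[j] (5 * A + 1 + 6 * 5 * s) : ℕ) : ℝ) := by
            push_cast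
            linarith
          exact_mod_cast h8
    exact_mod_cast h4
  · have h1 : F (A % 6) L 1 = 0 := F_even (by omega) hL
    rw [h1, mul_zero]
    have h2 : (0 : ℝ) ≤ B * 5 * (T : ℝ) ^ (43 / 50 : ℝ) := by positivity
    have h3 : (0 : ℝ) ≤ (((range T).filter (fun s => Rises L (A + 6 * s))).card : ℝ) :=
      Nat.cast_nonneg _
    linarith

/-- The mean of the model probabilities. -/
noncomputable def mod (L R : ℝ) : ℝ := (∑ r ∈ range 6, F r L R) / 6

open Classical in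
lemma R_low : ∃ B : ℝ, 0 ≤ B ∧ ∀ (N : ℕ) (L : ℝ), 1 < L →
    mod L 1 * N - B * (N : ℝ) ^ (43 / 50 : ℝ) - 6 ≤ (R L N : ℝ) := by
  obtain ⟨B, hB0, hB⟩ := class_low
  refine ⟨6 * B, by positivity, ?_⟩
  intro N L hL
  have h := Pool.Agent.H83.EX.card_split 6 N (by norm_num)
    (fun j s => Rises L (1 + j + 6 * s) ∧ 6 * s + j < N)
    (fun t => Rises L (1 + t))
    (by
      intro j hj s hq
      have e : 1 + (6 * s + j) = 1 + j + 6 * s := by ring
      rw [e]
      exact hq.1)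
  have h1 : ∑ j ∈ range 6, ((range (N / 6)).filter (fun s => Rises L (1 + j + 6 * s))).card ≤
      R L N := by
    refine le_trans ?_ (le_trans h ?_)
    · refine Finset.sum_le_sum ?_
      intro j hj
      rw [mem_range] at hj
      refine Finset.card_le_card ?_
      intro s hs
      rw [mem_filter, mem_range] at hs ⊢
      exact ⟨hs.1, hs.2, by omega⟩
    · unfold R
      refine Finset.card_le_card_of_injOn (fun t => 1 + t) ?_ ?_
      · intro t ht
        rw [Finset.mem_coe, mem_filter, mem_range] at ht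
        rw [Finset.mem_coe, mem_filter, mem_Icc]
        beta_reduce
        exact ⟨by omega, ht.2⟩
      · intro a _ b _ hab
        simp only at hab
        omega
  have h2 : ∑ j ∈ range 6, (((N / 6 : ℕ) : ℝ) * F ((1 + j) % 6) L 1 -
      B * ((N / 6 : ℕ) : ℝ) ^ (43 / 50 : ℝ)) ≤ ∑ j ∈ range 6,
      (((range (N / 6)).filter (fun s => Rises L (1 + j + 6 * s))).card : ℝ) :=
    Finset.sum_le_sum (fun j _ => hB (N / 6) (1 + j) L hL)
  have h3 : ∑ j ∈ range 6, (((N / 6 : ℕ) : ℝ) * F ((1 + j) % 6) L 1 -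
      B * ((N / 6 : ℕ) : ℝ) ^ (43 / 50 : ℝ)) = ((N / 6 : ℕ) : ℝ) * (∑ r ∈ range 6, F r L 1) -
      6 * (B * ((N / 6 : ℕ) : ℝ) ^ (43 / 50 : ℝ)) := by
    rw [Finset.sum_sub_distrib, ← Finset.mul_sum, sum_mod (fun r => F r L 1) 1]
    simp
  have h4 : ∑ j ∈ range 6,
      (((range (N / 6)).filter (fun s => Rises L (1 + j + 6 * s))).card : ℝ) ≤ (R L N : ℝ) := by
    exact_mod_cast h1
  have h5 : ((N / 6 : ℕ) : ℝ) ≤ N := by exact_mod_cast Nat.div_le_self N 6
  have h6 : ((N / 6 : ℕ) : ℝ) ^ (43 / 50 : ℝ) ≤ (N : ℝ) ^ (43 / 50 : ℝ) :=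
    Real.rpow_le_rpow (Nat.cast_nonneg _) h5 (by norm_num)
  have h7 : (N : ℝ) / 6 - 1 ≤ ((N / 6 : ℕ) : ℝ) := by
    have : N ≤ N / 6 * 6 + 5 := by omega
    have h8 : (N : ℝ) ≤ ((N / 6 * 6 + 5 : ℕ) : ℝ) := by exact_mod_cast this
    push_cast at h8
    push_cast
    linarith
  have h9 : ∑ r ∈ range 6, F r L 1 ≤ 6 := by
    have : ∑ r ∈ range 6, F r L 1 ≤ ∑ r ∈ range 6, (1 : ℝ) :=
      Finset.sum_le_sum (fun r _ => F_le_one r L 1)
    simpa using this
  have h10 : 0 ≤ ∑ r ∈ range 6, F r L 1 := Finset.sum_nonneg (fun r _ => F_nonneg r L 1)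
  have h11 : ((N : ℝ) / 6 - 1) * (∑ r ∈ range 6, F r L 1) ≤
      ((N / 6 : ℕ) : ℝ) * (∑ r ∈ range 6, F r L 1) := mul_le_mul_of_nonneg_right h7 h10
  have h12 : B * ((N / 6 : ℕ) : ℝ) ^ (43 / 50 : ℝ) ≤ B * (N : ℝ) ^ (43 / 50 : ℝ) :=
    mul_le_mul_of_nonneg_left h6 hB0
  unfold mod
  rw [h3] at h2
  nlinarith

lemma mod_nonneg (L R : ℝ) : 0 ≤ mod L R := by
  unfold mod
  exact div_nonneg (Finset.sum_nonneg (fun r _ => F_nonneg r L R)) (by norm_num)

lemma mod_anti {L L' R R' : ℝ} (hL : L ≤ L') (hR : R ≤ R') : mod L' R' ≤ mod L R := by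
  unfold mod
  exact div_le_div_of_nonneg_right (Finset.sum_le_sum (fun r _ => F_anti r hL hR)) (by norm_num)

lemma mod_le_one (L R : ℝ) : mod L R ≤ 1 := by
  unfold mod
  rw [div_le_one (by norm_num)]
  have : ∑ r ∈ range 6, F r L R ≤ ∑ r ∈ range 6, (1 : ℝ) :=
    Finset.sum_le_sum (fun r _ => F_le_one r L R)
  simpa using this

/-- The count in a short interval, for a fixed `L`. -/
lemma intUpL {ε : ℝ} (hε : 0 < ε) (hε2 : ε ≤ 1 / 4) {L : ℝ} (hL : 1 < L) :
    ∃ M0 D : ℝ, 1 ≤ M0 ∧ 0 ≤ D ∧ ∀ M : ℝ, M0 ≤ M → ∀ P : ℕ → Prop,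
      (∀ n : ℕ, (1 - ε) * M < n → (n : ℝ) ≤ M → P n →
        Reach (L * ((1 - ε) * M)) ((1 - ε) * M) n) →
      (cnt P M : ℝ) ≤ cnt P ((1 - ε) * M) + mod (L * (1 - 2 * ε)) (1 - 2 * ε) * ε * M +
        D * M ^ (43 / 50 : ℝ) := by
  classical
  obtain ⟨B, hB0, hB⟩ := Pool.Agent.H19.EV.upF
  obtain ⟨M1, hM11, hM1⟩ := factor_bound hε hε2
  refine ⟨M1, 48 * B + 6, hM11, by positivity, ?_⟩
  intro M hM P hP
  have hM1' : 1 ≤ M := hM11.trans hM
  have hM0 : 0 < M := by linarith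
  have hL0 : 0 < L := by linarith
  obtain ⟨hz1, hz2⟩ := hM1 M hM
  set R : ℝ := (1 - ε) * M with hR
  have hR0 : 0 < R := mul_pos (by linarith) hM0
  have hRhalf : 1 / 2 ≤ R := by
    rw [hR]
    nlinarith
  have hx : 1 / 2 ≤ L * R := by nlinarith
  set m := Nat.log 2 ⌊M⌋₊ + 1 with hm
  set z : ℝ := (1 + 1 / (2 * R)) ^ m with hz
  have hz0 : 0 < z := by positivity
  have hab : R ≤ M := by rw [hR]; nlinarith
  have hsplit := cnt_split P hab
  set u := ⌊R⌋₊ with hu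
  set w := ⌊M⌋₊ with hw
  have huw : u ≤ w := Nat.floor_le_floor hab
  have hl := card_Ioc_le P (L * R) R u w (by
    intro n h1 h2 h3
    exact hP n ((Nat.floor_lt hR0.le).mp h1) ((Nat.le_floor_iff hM0.le).mp h2) h3)
  have hwlt : w < 2 ^ m := Nat.lt_pow_succ_log_self (by norm_num) w
  have hwM : (w : ℝ) ≤ M := Nat.floor_le hM0.le
  -- the enlarged thresholds
  have hzy0 : 0 < z * (M + 1 / 4) := by positivity
  have hthr : (1 - 2 * ε) * (z * (M + 1 / 4)) ≤ R := by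
    have h1 : (1 - 2 * ε) * (z * (M + 1 / 4)) ≤ (1 - 2 * ε) * ((1 + ε) * M) :=
      mul_le_mul_of_nonneg_left hz1 (by linarith)
    have h2 : (1 - 2 * ε) * ((1 + ε) * M) ≤ R := by
      rw [hR]
      nlinarith
    linarith
  have hb1 : 1 - 2 * ε ≤ R / (z * (M + 1 / 4)) := by
    rw [le_div_iff₀ hzy0]
    exact hthr
  have hb2 : L * (1 - 2 * ε) ≤ L * R / (z * (M + 1 / 4)) := by
    rw [le_div_iff₀ hzy0]
    have := mul_le_mul_of_nonneg_left hthr hL0.le
    nlinarith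
  have hsumF : ∑ r ∈ range 6, F r (L * R / (z * (M + 1 / 4))) (R / (z * (M + 1 / 4))) ≤
      6 * mod (L * (1 - 2 * ε)) (1 - 2 * ε) := by
    have h1 := mod_anti hb2 hb1
    have h2 : mod (L * R / (z * (M + 1 / 4))) (R / (z * (M + 1 / 4))) =
      (∑ r ∈ range 6, F r (L * R / (z * (M + 1 / 4))) (R / (z * (M + 1 / 4)))) / 6 := rfl
    rw [h2] at h1
    linarith
  have hcls : ∀ j ∈ range 6, (NU (u + 1 + j) 1 (L * R) R ((w - u + 6 - 1 - j) / 6) : ℝ) ≤
      (ε * M / 6 + 1) * F ((u + 1 + j) % 6) (L * R / (z * (M + 1 / 4))) (R / (z * (M + 1 / 4))) +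
        8 * B * M ^ (43 / 50 : ℝ) := by
    intro j hj
    rw [mem_range] at hj
    set T : ℕ := (w - u + 6 - 1 - j) / 6 with hT
    have hTw : T ≤ w := by omega
    have hup := hB (L * R) R hx hRhalf m T (by omega) (u + 1 + j) 1 M (by norm_num) (by norm_num)
      hM0.le (by
        intro s hs
        have h1 : u + 1 + j + 6 * 1 * s ≤ w := by omega
        have h2 : ((u + 1 + j + 6 * 1 * s : ℕ) : ℝ) ≤ (w : ℝ) := by exact_mod_cast h1
        exact h2.trans hwM)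
    rw [← hz] at hup
    refine hup.trans ?_
    have hT0 : (0 : ℝ) ≤ T := Nat.cast_nonneg T
    have hT1 : (T : ℝ) ≤ ε * M / 6 + 1 := by
      have h1 : T * 6 ≤ w - u + 5 := by omega
      have h2 : ((T * 6 : ℕ) : ℝ) ≤ ((w - u + 5 : ℕ) : ℝ) := by exact_mod_cast h1
      rw [Nat.cast_add, Nat.cast_sub huw] at h2
      push_cast at h2
      have h4 : R < u + 1 := Nat.lt_floor_add_one _
      rw [hR] at h4
      linarith
    have hTM : (T : ℝ) ≤ M := by
      have h2 : (T : ℝ) ≤ (w : ℝ) := by exact_mod_cast hTw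
      exact h2.trans hwM
    have hTp : (T : ℝ) ^ (43 / 50 : ℝ) ≤ M ^ (43 / 50 : ℝ) :=
      Real.rpow_le_rpow hT0 hTM (by norm_num)
    have hyR : (M + 1 / 4) / R ≤ 4 := by
      rw [div_le_iff₀ hR0, hR]
      nlinarith
    have hMp : 0 ≤ M ^ (43 / 50 : ℝ) := Real.rpow_nonneg hM0.le _
    have hFnn : 0 ≤ F ((u + 1 + j) % 6) (L * R / (z * (M + 1 / 4))) (R / (z * (M + 1 / 4))) :=
      F_nonneg _ _ _
    refine add_le_add (mul_le_mul_of_nonneg_right hT1 hFnn) ?_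
    calc B * z * (T : ℝ) ^ (43 / 50 : ℝ) * ((M + 1 / 4) / R)
        ≤ B * 2 * M ^ (43 / 50 : ℝ) * 4 := by
          refine mul_le_mul ?_ hyR (by positivity) (by positivity)
          refine mul_le_mul ?_ hTp (by positivity) (by positivity)
          exact mul_le_mul_of_nonneg_left hz2 hB0
      _ = 8 * B * M ^ (43 / 50 : ℝ) := by ring
  have hsum := Finset.sum_le_sum hcls
  have hsum2 : ∑ j ∈ range 6, ((ε * M / 6 + 1) * F ((u + 1 + j) % 6)
      (L * R / (z * (M + 1 / 4))) (R / (z * (M + 1 / 4))) + 8 * B * M ^ (43 / 50 : ℝ)) =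
      (ε * M / 6 + 1) * (∑ r ∈ range 6, F r (L * R / (z * (M + 1 / 4)))
        (R / (z * (M + 1 / 4)))) + 48 * B * M ^ (43 / 50 : ℝ) := by
    rw [Finset.sum_add_distrib, ← Finset.mul_sum,
      sum_mod (fun r => F r (L * R / (z * (M + 1 / 4))) (R / (z * (M + 1 / 4)))) (u + 1)]
    simp
    ring
  rw [hsum2] at hsum
  have hcast : (((Ioc u w).filter P).card : ℝ) ≤
      ∑ j ∈ range 6, (NU (u + 1 + j) 1 (L * R) R ((w - u + 6 - 1 - j) / 6) : ℝ) := by
    exact_mod_cast hl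
  have hsr : (cnt P M : ℝ) = (cnt P R : ℝ) + (((Ioc u w).filter P).card : ℝ) := by
    exact_mod_cast hsplit
  rw [hsr]
  have hM1p : 1 ≤ M ^ (43 / 50 : ℝ) := Real.one_le_rpow hM1' (by norm_num)
  have h1 : (ε * M / 6 + 1) * (∑ r ∈ range 6, F r (L * R / (z * (M + 1 / 4)))
        (R / (z * (M + 1 / 4)))) ≤
      (ε * M / 6 + 1) * (6 * mod (L * (1 - 2 * ε)) (1 - 2 * ε)) :=
    mul_le_mul_of_nonneg_left hsumF (by positivity)
  have h2 : (ε * M / 6 + 1) * (6 * mod (L * (1 - 2 * ε)) (1 - 2 * ε)) =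
      mod (L * (1 - 2 * ε)) (1 - 2 * ε) * ε * M + 6 * mod (L * (1 - 2 * ε)) (1 - 2 * ε) := by ring
  have h3 := mod_le_one (L * (1 - 2 * ε)) (1 - 2 * ε)
  have e9 : (48 * B + 6) * M ^ (43 / 50 : ℝ) = 48 * B * M ^ (43 / 50 : ℝ) +
      6 * M ^ (43 / 50 : ℝ) := by ring
  rw [e9]
  linarith

lemma R_up {ε : ℝ} (hε : 0 < ε) (hε2 : ε ≤ 1 / 4) {L : ℝ} (hL : 1 < L) :
    ∃ M0 D : ℝ, 0 ≤ M0 ∧ 0 ≤ D ∧ ∀ N : ℕ, 1 ≤ N →
      (R' L N : ℝ) ≤ M0 + mod (L * (1 - 2 * ε)) (1 - 2 * ε) * N +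
        D * (N : ℝ) ^ (43 / 50 : ℝ) := by
  obtain ⟨M0, D, hM0, hD, hrec⟩ := intUpL hε hε2 hL
  have hqb : (1 - ε) ^ (43 / 50 : ℝ) < 1 :=
    Real.rpow_lt_one (by linarith) (by linarith) (by norm_num)
  have hm0 := mod_nonneg (L * (1 - 2 * ε)) (1 - 2 * ε)
  refine ⟨M0, D / (1 - (1 - ε) ^ (43 / 50 : ℝ)), by linarith, div_nonneg hD (by linarith), ?_⟩
  intro N hN
  have hN0 : (0 : ℝ) < N := by exact_mod_cast hN
  have key := rec_up (f := fun M => (cnt (fun n => Rises L n ∨ Stays n) M : ℝ)) (q := 1 - ε)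
    (A := mod (L * (1 - 2 * ε)) (1 - 2 * ε) * ε) (D := D) (a := 1) (b := 43 / 50) (C := M0)
    (M1 := M0)
    (by linarith) (by linarith) (by norm_num) (by norm_num) (by positivity) hD (by linarith)
    (by linarith) (fun M hM hle => (cnt_le _ hM.le).trans hle)
    (by
      intro M hM
      have hr := hrec M hM (fun n => Rises L n ∨ Stays n) (by
        intro n h1 h2 h3
        rcases h3 with h3 | h3
        · obtain ⟨i, hi, hj⟩ := h3
          refine Or.inl ⟨i, ?_, ?_⟩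
          · have : L * ((1 - ε) * M) ≤ L * n := mul_le_mul_of_nonneg_left h1.le (by linarith)
            linarith
          · intro j hji
            have : (n : ℝ) ≤ (Pool.Agent.H83.EX.C^[j] n : ℝ) := by exact_mod_cast hj j hji
            linarith
        · exact reach_stays (M := M) h1 h3)
      beta_reduce
      rw [Real.rpow_one]
      refine hr.trans (le_of_eq ?_)
      ring)
    N hN0
  beta_reduce at key
  rw [← R'_eq, Real.rpow_one, Real.rpow_one] at key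
  have e1 : mod (L * (1 - 2 * ε)) (1 - 2 * ε) * ε / (1 - (1 - ε)) =
      mod (L * (1 - 2 * ε)) (1 - 2 * ε) := by
    have : 1 - (1 - ε) = ε := by ring
    rw [this]
    field_simp
  rw [e1] at key
  exact key

lemma mod_left {L : ℝ} (hL : 0 < L) {η : ℝ} (hη : 0 < η) :
    ∃ ε : ℝ, 0 < ε ∧ ε ≤ 1 / 4 ∧ mod (L * (1 - 2 * ε)) (1 - 2 * ε) ≤ mod L 1 + η := by
  have h1 : ∀ᶠ ε : ℝ in nhdsWithin 0 (Set.Ioi 0), ∀ r ∈ range 6,
      F r (L * (1 - ε)) (1 - ε) ≤ F r L 1 + η := by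
    rw [Filter.eventually_all_finset]
    intro r hr
    exact F_left (mem_range.mp hr) hL hη
  have h2 : ∀ᶠ ε : ℝ in nhdsWithin 0 (Set.Ioi 0), ε < 1 / 2 := by
    have : ∀ᶠ ε : ℝ in nhds 0, ε < 1 / 2 := gt_mem_nhds (by norm_num)
    exact nhdsWithin_le_nhds this
  obtain ⟨ε, ⟨a1, a2⟩, a3⟩ := ((h1.and h2).and self_mem_nhdsWithin).exists
  have a3' : 0 < ε := a3
  refine ⟨ε / 2, by linarith, by linarith, ?_⟩
  have e : 2 * (ε / 2) = ε := by ring
  rw [e]
  unfold mod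
  have h3 : ∑ r ∈ range 6, F r (L * (1 - ε)) (1 - ε) ≤ ∑ r ∈ range 6, (F r L 1 + η) :=
    Finset.sum_le_sum a1
  have h4 : ∑ r ∈ range 6, (F r L 1 + η) = ∑ r ∈ range 6, F r L 1 + 6 * η := by
    rw [Finset.sum_add_distrib]
    simp
  linarith

lemma err_zero (C D : ℝ) : Tendsto (fun N : ℕ => (C + D * (N : ℝ) ^ (43 / 50 : ℝ)) / N) atTop
    (nhds 0) := by
  have t1 : Tendsto (fun N : ℕ => C / (N : ℝ)) atTop (nhds 0) :=
    tendsto_const_div_atTop_nhds_zero_nat C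
  have t2 : Tendsto (fun N : ℕ => (N : ℝ) ^ (-(7 / 50 : ℝ))) atTop (nhds 0) :=
    (tendsto_rpow_neg_atTop (by norm_num)).comp tendsto_natCast_atTop_atTop
  have t3 := t1.add (t2.const_mul D)
  rw [mul_zero, add_zero] at t3
  refine t3.congr' ?_
  filter_upwards [eventually_ge_atTop 1] with N hN
  have hN0 : (0 : ℝ) < N := by exact_mod_cast hN
  have e : (N : ℝ) ^ (43 / 50 : ℝ) = (N : ℝ) ^ (-(7 / 50 : ℝ)) * N := by
    nth_rewrite 3 [← Real.rpow_one (N : ℝ)]
    rw [← Real.rpow_add hN0]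
    norm_num
  rw [e]
  field_simp

/-- The density is the model probability, also if the `n` which stay are counted. -/
theorem dens {L : ℝ} (hL : 1 < L) :
    Tendsto (fun N : ℕ => (R L N : ℝ) / N) atTop (nhds (mod L 1)) ∧
    Tendsto (fun N : ℕ => (R' L N : ℝ) / N) atTop (nhds (mod L 1)) := by
  obtain ⟨B, hB0, hB⟩ := R_low
  have low : ∀ η : ℝ, 0 < η → ∀ᶠ N : ℕ in atTop, mod L 1 - η < (R L N : ℝ) / N := by
    intro η hη
    filter_upwards [(err_zero 6 B).eventually (gt_mem_nhds hη), eventually_ge_atTop 1] with N h1 h2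
    have hN0 : (0 : ℝ) < N := by exact_mod_cast h2
    have h3 := div_le_div_of_nonneg_right (hB N L hL) hN0.le
    have e : (mod L 1 * N - B * (N : ℝ) ^ (43 / 50 : ℝ) - 6) / N =
        mod L 1 - (6 + B * (N : ℝ) ^ (43 / 50 : ℝ)) / N := by
      field_simp
      ring
    rw [e] at h3
    linarith
  have up : ∀ η : ℝ, 0 < η → ∀ᶠ N : ℕ in atTop, (R' L N : ℝ) / N < mod L 1 + η := by
    intro η hη
    obtain ⟨ε, hε, hε2, hm⟩ := mod_left (L := L) (by linarith) (show 0 < η / 2 by linarith)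
    obtain ⟨M0, D, _, _, hup⟩ := R_up hε hε2 hL
    filter_upwards [(err_zero M0 D).eventually (gt_mem_nhds (show 0 < η / 2 by linarith)),
      eventually_ge_atTop 1] with N h1 h2
    have hN0 : (0 : ℝ) < N := by exact_mod_cast h2
    have h3 := div_le_div_of_nonneg_right (hup N h2) hN0.le
    have e : (M0 + mod (L * (1 - 2 * ε)) (1 - 2 * ε) * N + D * (N : ℝ) ^ (43 / 50 : ℝ)) / N =
        mod (L * (1 - 2 * ε)) (1 - 2 * ε) + (M0 + D * (N : ℝ) ^ (43 / 50 : ℝ)) / N := by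
      field_simp
      ring
    rw [e] at h3
    linarith
  have hle : ∀ N : ℕ, (R L N : ℝ) / N ≤ (R' L N : ℝ) / N := by
    intro N
    refine div_le_div_of_nonneg_right ?_ (Nat.cast_nonneg N)
    exact_mod_cast R_le_R' L N
  constructor
  · rw [Metric.tendsto_nhds]
    intro η hη
    filter_upwards [low η hη, up η hη] with N h1 h2
    rw [Real.dist_eq, abs_lt]
    have := hle N
    constructor <;> linarith
  · rw [Metric.tendsto_nhds]
    intro η hη
    filter_upwards [low η hη, up η hη] with N h1 h2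
    rw [Real.dist_eq, abs_lt]
    have := hle N
    constructor <;> linarith

end Pool.Agent.H12.EV
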