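import Pool.Agent.H12.EV.Model

/-!
Counts in short intervals, upper and lower recursion, and the summation over the intervals.
-/

namespace Pool.Agent.H12.EV

open Filter Finset Pool.Agent.H12.EU

open Classical in
/-- The number of `n` with `1 ≤ n ≤ M` and `P n`. -/
noncomputable def cnt (P : ℕ → Prop) (M : ℝ) : ℕ := ((Icc 1 ⌊M⌋₊).filter P).card

lemma cnt_le (P : ℕ → Prop) {M : ℝ} (hM : 0 ≤ M) : (cnt P M : ℝ) ≤ M := by
  classical
  have h1 : cnt P M ≤ ⌊M⌋₊ := by
    unfold cnt
    refine (Finset.card_filter_le _ _).trans ?_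
    simp
  have h2 : (cnt P M : ℝ) ≤ (⌊M⌋₊ : ℝ) := by exact_mod_cast h1
  exact h2.trans (Nat.floor_le hM)

open Classical in
lemma cnt_split (P : ℕ → Prop) {a b : ℝ} (hab : a ≤ b) :
    cnt P b = cnt P a + ((Ioc ⌊a⌋₊ ⌊b⌋₊).filter P).card := by
  unfold cnt
  have h : ⌊a⌋₊ ≤ ⌊b⌋₊ := Nat.floor_le_floor hab
  rw [← Finset.card_union_of_disjoint]
  · congr 1
    rw [← Finset.filter_union]
    congr 1
    ext n
    simp only [mem_union, mem_Icc, mem_Ioc]
    omega
  · rw [Finset.disjoint_left]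
    intro n hn hn'
    rw [mem_filter, mem_Icc] at hn
    rw [mem_filter, mem_Ioc] at hn'
    omega

/-- The sum over six consecutive residues. -/
lemma sum_mod (f : ℕ → ℝ) (u : ℕ) :
    ∑ j ∈ range 6, f ((u + j) % 6) = ∑ r ∈ range 6, f r := by
  have h : u % 6 = 0 ∨ u % 6 = 1 ∨ u % 6 = 2 ∨ u % 6 = 3 ∨ u % 6 = 4 ∨ u % 6 = 5 := by omega
  simp only [Finset.sum_range_succ, Finset.sum_range_zero]
  rcases h with h | h | h | h | h | h
  · have e0 : (u + 0) % 6 = 0 := by omega
    have e1 : (u + 1) % 6 = 1 := by omega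
    have e2 : (u + 2) % 6 = 2 := by omega
    have e3 : (u + 3) % 6 = 3 := by omega
    have e4 : (u + 4) % 6 = 4 := by omega
    have e5 : (u + 5) % 6 = 5 := by omega
    rw [e0, e1, e2, e3, e4, e5]
  · have e0 : (u + 0) % 6 = 1 := by omega
    have e1 : (u + 1) % 6 = 2 := by omega
    have e2 : (u + 2) % 6 = 3 := by omega
    have e3 : (u + 3) % 6 = 4 := by omega
    have e4 : (u + 4) % 6 = 5 := by omega
    have e5 : (u + 5) % 6 = 0 := by omega
    rw [e0, e1, e2, e3, e4, e5]
    ring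
  · have e0 : (u + 0) % 6 = 2 := by omega
    have e1 : (u + 1) % 6 = 3 := by omega
    have e2 : (u + 2) % 6 = 4 := by omega
    have e3 : (u + 3) % 6 = 5 := by omega
    have e4 : (u + 4) % 6 = 0 := by omega
    have e5 : (u + 5) % 6 = 1 := by omega
    rw [e0, e1, e2, e3, e4, e5]
    ring
  · have e0 : (u + 0) % 6 = 3 := by omega
    have e1 : (u + 1) % 6 = 4 := by omega
    have e2 : (u + 2) % 6 = 5 := by omega
    have e3 : (u + 3) % 6 = 0 := by omega
    have e4 : (u + 4) % 6 = 1 := by omega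
    have e5 : (u + 5) % 6 = 2 := by omega
    rw [e0, e1, e2, e3, e4, e5]
    ring
  · have e0 : (u + 0) % 6 = 4 := by omega
    have e1 : (u + 1) % 6 = 5 := by omega
    have e2 : (u + 2) % 6 = 0 := by omega
    have e3 : (u + 3) % 6 = 1 := by omega
    have e4 : (u + 4) % 6 = 2 := by omega
    have e5 : (u + 5) % 6 = 3 := by omega
    rw [e0, e1, e2, e3, e4, e5]
    ring
  · have e0 : (u + 0) % 6 = 5 := by omega
    have e1 : (u + 1) % 6 = 0 := by omega
    have e2 : (u + 2) % 6 = 1 := by omega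
    have e3 : (u + 3) % 6 = 2 := by omega
    have e4 : (u + 4) % 6 = 3 := by omega
    have e5 : (u + 5) % 6 = 4 := by omega
    rw [e0, e1, e2, e3, e4, e5]
    ring

open Classical in
lemma card_Ioc_le (P : ℕ → Prop) (x R : ℝ) (u w : ℕ)
    (hP : ∀ n, u < n → n ≤ w → P n → Reach x R n) :
    ((Ioc u w).filter P).card ≤ ∑ j ∈ range 6, NU (u + 1 + j) 1 x R ((w - u + 6 - 1 - j) / 6) := by
  have h := card_split_le 6 (w - u) (by norm_num)
    (fun j s => Reach x R (u + 1 + j + 6 * 1 * s)) (fun t => P (u + 1 + t))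
    (by
      intro j hj s hs hq
      have e : u + 1 + (6 * s + j) = u + 1 + j + 6 * 1 * s := by ring
      rw [e] at hq
      exact hP _ (by omega) (by omega) hq)
  refine le_trans ?_ h
  refine Finset.card_le_card_of_injOn (fun n => n - (u + 1)) ?_ ?_
  · intro n hn
    rw [Finset.mem_coe, mem_filter, mem_Ioc] at hn
    rw [Finset.mem_coe, mem_filter, mem_range]
    have e : u + 1 + (n - (u + 1)) = n := by omega
    beta_reduce
    refine ⟨by omega, ?_⟩
    rw [e]
    exact hn.2
  · intro a ha b hb hab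
    rw [Finset.mem_coe, mem_filter, mem_Ioc] at ha hb
    simp only at hab
    omega

open Classical in
lemma le_card_Ioc (P : ℕ → Prop) (L : ℝ) (u w : ℕ)
    (hP : ∀ n, u < n → n ≤ w → BigR L 1 n → P n) :
    ∑ j ∈ range 6, NL (u + 1 + j) 1 L 1 ((w - u) / 6) ≤ ((Ioc u w).filter P).card := by
  have h := Pool.Agent.H83.EX.card_split 6 (w - u) (by norm_num)
    (fun j s => BigR L 1 (u + 1 + j + 6 * 1 * s) ∧ 6 * s + j < w - u)
    (fun t => P (u + 1 + t))
    (by
      intro j hj s hq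
      have e : u + 1 + (6 * s + j) = u + 1 + j + 6 * 1 * s := by ring
      rw [e]
      exact hP _ (by omega) (by omega) hq.1)
  refine le_trans ?_ (le_trans h ?_)
  · refine Finset.sum_le_sum ?_
    intro j hj
    rw [mem_range] at hj
    unfold NL
    refine Finset.card_le_card ?_
    intro s hs
    rw [mem_filter, mem_range] at hs ⊢
    exact ⟨hs.1, hs.2, by omega⟩
  · refine Finset.card_le_card_of_injOn (fun t => u + 1 + t) ?_ ?_
    · intro t ht
      rw [Finset.mem_coe, mem_filter, mem_range] at ht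
      rw [Finset.mem_coe, mem_filter, mem_Ioc]
      beta_reduce
      exact ⟨by omega, ht.2⟩
    · intro a _ b _ hab
      simp only at hab
      omega

/-- Summation of an upper recursion. -/
lemma rec_up {f : ℝ → ℝ} {q A D a b C M1 : ℝ} (hq0 : 0 < q) (hq1 : q < 1) (ha : 0 < a) (hb : 0 < b)
    (hA : 0 ≤ A) (hD : 0 ≤ D) (hC : 0 ≤ C) (hM1 : 0 < M1)
    (hsmall : ∀ M, 0 < M → M ≤ M1 → f M ≤ C)
    (hrec : ∀ M, M1 ≤ M → f M ≤ f (q * M) + A * M ^ a + D * M ^ b) :
    ∀ M, 0 < M → f M ≤ C + A / (1 - q ^ a) * M ^ a + D / (1 - q ^ b) * M ^ b := by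
  have hqa : q ^ a < 1 := Real.rpow_lt_one hq0.le hq1 ha
  have hqb : q ^ b < 1 := Real.rpow_lt_one hq0.le hq1 hb
  have key : ∀ k : ℕ, ∀ M, 0 < M → q ^ k * M ≤ M1 →
      f M ≤ C + A / (1 - q ^ a) * M ^ a + D / (1 - q ^ b) * M ^ b := by
    intro k
    induction k with
    | zero =>
      intro M hM hle
      rw [pow_zero, one_mul] at hle
      have h1 := hsmall M hM hle
      have h2 : 0 ≤ A / (1 - q ^ a) * M ^ a :=
        mul_nonneg (div_nonneg hA (by linarith)) (Real.rpow_nonneg hM.le _)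
      have h3 : 0 ≤ D / (1 - q ^ b) * M ^ b :=
        mul_nonneg (div_nonneg hD (by linarith)) (Real.rpow_nonneg hM.le _)
      linarith
    | succ k ih =>
      intro M hM hle
      by_cases hc : M ≤ M1
      · have h1 := hsmall M hM hc
        have h2 : 0 ≤ A / (1 - q ^ a) * M ^ a :=
          mul_nonneg (div_nonneg hA (by linarith)) (Real.rpow_nonneg hM.le _)
        have h3 : 0 ≤ D / (1 - q ^ b) * M ^ b :=
          mul_nonneg (div_nonneg hD (by linarith)) (Real.rpow_nonneg hM.le _)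
        linarith
      · have h1 := hrec M (not_le.mp hc).le
        have h2 := ih (q * M) (mul_pos hq0 hM) (by rw [pow_succ] at hle; linarith)
        rw [Real.mul_rpow hq0.le hM.le, Real.mul_rpow hq0.le hM.le] at h2
        have e1 : A / (1 - q ^ a) * (q ^ a * M ^ a) + A * M ^ a = A / (1 - q ^ a) * M ^ a := by
          have : 1 - q ^ a ≠ 0 := by linarith
          field_simp
          ring
        have e2 : D / (1 - q ^ b) * (q ^ b * M ^ b) + D * M ^ b = D / (1 - q ^ b) * M ^ b := by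
          have : 1 - q ^ b ≠ 0 := by linarith
          field_simp
          ring
        linarith
  intro M hM
  obtain ⟨k, hk⟩ := exists_pow_lt_of_lt_one (show 0 < M1 / M by positivity) hq1
  refine key k M hM ?_
  rw [lt_div_iff₀ hM] at hk
  exact hk.le

/-- Summation of a lower recursion. -/
lemma rec_low {f : ℝ → ℝ} {q A D a b M1 : ℝ} (hq0 : 0 < q) (hq1 : q < 1) (ha : 0 < a) (hb : 0 < b)
    (hA : 0 ≤ A) (hD : 0 ≤ D) (hM1 : 0 < M1) (hf : ∀ M, 0 < M → 0 ≤ f M)
    (hrec : ∀ M, M1 ≤ M → f (q * M) + A * M ^ a - D * M ^ b ≤ f M) :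
    ∀ M, 0 < M → A / (1 - q ^ a) * M ^ a - D / (1 - q ^ b) * M ^ b - A / (1 - q ^ a) * M1 ^ a ≤
      f M := by
  have hqa : q ^ a < 1 := Real.rpow_lt_one hq0.le hq1 ha
  have hqb : q ^ b < 1 := Real.rpow_lt_one hq0.le hq1 hb
  have hA' : 0 ≤ A / (1 - q ^ a) := div_nonneg hA (by linarith)
  have hD' : 0 ≤ D / (1 - q ^ b) := div_nonneg hD (by linarith)
  have small : ∀ M, 0 < M → M ≤ M1 →
      A / (1 - q ^ a) * M ^ a - D / (1 - q ^ b) * M ^ b - A / (1 - q ^ a) * M1 ^ a ≤ f M := by
    intro M hM hle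
    have h1 := hf M hM
    have h2 : A / (1 - q ^ a) * M ^ a ≤ A / (1 - q ^ a) * M1 ^ a :=
      mul_le_mul_of_nonneg_left (Real.rpow_le_rpow hM.le hle ha.le) hA'
    have h3 : 0 ≤ D / (1 - q ^ b) * M ^ b := mul_nonneg hD' (Real.rpow_nonneg hM.le _)
    linarith
  have key : ∀ k : ℕ, ∀ M, 0 < M → q ^ k * M ≤ M1 →
      A / (1 - q ^ a) * M ^ a - D / (1 - q ^ b) * M ^ b - A / (1 - q ^ a) * M1 ^ a ≤ f M := by
    intro k
    induction k with
    | zero =>
      intro M hM hle
      rw [pow_zero, one_mul] at hle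
      exact small M hM hle
    | succ k ih =>
      intro M hM hle
      by_cases hc : M ≤ M1
      · exact small M hM hc
      · have h1 := hrec M (not_le.mp hc).le
        have h2 := ih (q * M) (mul_pos hq0 hM) (by rw [pow_succ] at hle; linarith)
        rw [Real.mul_rpow hq0.le hM.le, Real.mul_rpow hq0.le hM.le] at h2
        have e1 : A / (1 - q ^ a) * (q ^ a * M ^ a) + A * M ^ a = A / (1 - q ^ a) * M ^ a := by
          have : 1 - q ^ a ≠ 0 := by linarith
          field_simp
          ring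
        have e2 : D / (1 - q ^ b) * (q ^ b * M ^ b) + D * M ^ b = D / (1 - q ^ b) * M ^ b := by
          have : 1 - q ^ b ≠ 0 := by linarith
          field_simp
          ring
        linarith
  intro M hM
  obtain ⟨k, hk⟩ := exists_pow_lt_of_lt_one (show 0 < M1 / M by positivity) hq1
  refine key k M hM ?_
  rw [lt_div_iff₀ hM] at hk
  exact hk.le

end Pool.Agent.H12.EV
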