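import Pool.Agent.H12.EU.Uni

/-!
The model probabilities: the residues modulo 6 form a Markov chain, `L` is the factor which is
still needed, `R` the barrier, both relative to the present value.
-/

namespace Pool.Agent.H12.EV

open Filter

/-- The transition operator. -/
noncomputable def Op (f : ℕ → ℝ → ℝ → ℝ) (r : ℕ) (L R : ℝ) : ℝ :=
  if r = 0 then (f 0 (2 * L) (2 * R) + f 3 (2 * L) (2 * R)) / 2
  else if r = 1 then f 0 (L / 5) (R / 5)
  else if r = 2 then (f 1 (2 * L) (2 * R) + f 4 (2 * L) (2 * R)) / 2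
  else if r = 3 then (f 1 (3 * L) (3 * R) + f 3 (3 * L) (3 * R) + f 5 (3 * L) (3 * R)) / 3
  else if r = 4 then (f 2 (2 * L) (2 * R) + f 5 (2 * L) (2 * R)) / 2
  else f 2 (L / 5) (R / 5)

/-- The probability to grow by the factor `L` within `i` steps before falling below `R`. -/
noncomputable def Phi : ℕ → ℕ → ℝ → ℝ → ℝ
  | 0, _, L, R => if 1 < R then 0 else if L ≤ 1 then 1 else 0
  | i + 1, r, L, R => if 1 < R then 0 else if L ≤ 1 then 1 else Op (Phi i) r L R

/-- The probability to grow by the factor `L` before falling below `R`. -/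
noncomputable def F (r : ℕ) (L R : ℝ) : ℝ := ⨆ i : ℕ, Phi i r L R

lemma Op_mono {f g : ℕ → ℝ → ℝ → ℝ} (h : ∀ r L R, f r L R ≤ g r L R) (r : ℕ) (L R : ℝ) :
    Op f r L R ≤ Op g r L R := by
  unfold Op
  split_ifs
  · linarith [h 0 (2 * L) (2 * R), h 3 (2 * L) (2 * R)]
  · exact h _ _ _
  · linarith [h 1 (2 * L) (2 * R), h 4 (2 * L) (2 * R)]
  · linarith [h 1 (3 * L) (3 * R), h 3 (3 * L) (3 * R), h 5 (3 * L) (3 * R)]
  · linarith [h 2 (2 * L) (2 * R), h 5 (2 * L) (2 * R)]
  · exact h _ _ _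

lemma Phi_nonneg (i r : ℕ) (L R : ℝ) : 0 ≤ Phi i r L R := by
  induction i generalizing r L R with
  | zero =>
    unfold Phi
    split_ifs <;> norm_num
  | succ i ih =>
    unfold Phi
    split_ifs
    · norm_num
    · norm_num
    · unfold Op
      split_ifs
      · linarith [ih 0 (2 * L) (2 * R), ih 3 (2 * L) (2 * R)]
      · exact ih _ _ _
      · linarith [ih 1 (2 * L) (2 * R), ih 4 (2 * L) (2 * R)]
      · linarith [ih 1 (3 * L) (3 * R), ih 3 (3 * L) (3 * R), ih 5 (3 * L) (3 * R)]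
      · linarith [ih 2 (2 * L) (2 * R), ih 5 (2 * L) (2 * R)]
      · exact ih _ _ _

lemma Phi_le_one (i r : ℕ) (L R : ℝ) : Phi i r L R ≤ 1 := by
  induction i generalizing r L R with
  | zero =>
    unfold Phi
    split_ifs <;> norm_num
  | succ i ih =>
    unfold Phi
    split_ifs
    · norm_num
    · norm_num
    · unfold Op
      split_ifs
      · linarith [ih 0 (2 * L) (2 * R), ih 3 (2 * L) (2 * R)]
      · exact ih _ _ _
      · linarith [ih 1 (2 * L) (2 * R), ih 4 (2 * L) (2 * R)]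
      · linarith [ih 1 (3 * L) (3 * R), ih 3 (3 * L) (3 * R), ih 5 (3 * L) (3 * R)]
      · linarith [ih 2 (2 * L) (2 * R), ih 5 (2 * L) (2 * R)]
      · exact ih _ _ _

lemma Phi_succ (i r : ℕ) (L R : ℝ) : Phi i r L R ≤ Phi (i + 1) r L R := by
  induction i generalizing r L R with
  | zero =>
    have h0 : Phi 0 r L R = if 1 < R then 0 else if L ≤ 1 then 1 else 0 := rfl
    have h1 : Phi 1 r L R = if 1 < R then 0 else if L ≤ 1 then 1 else Op (Phi 0) r L R := rfl
    rw [h0, h1]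
    split_ifs
    · norm_num
    · norm_num
    · unfold Op
      split_ifs
      · linarith [Phi_nonneg 0 0 (2 * L) (2 * R), Phi_nonneg 0 3 (2 * L) (2 * R)]
      · exact Phi_nonneg _ _ _ _
      · linarith [Phi_nonneg 0 1 (2 * L) (2 * R), Phi_nonneg 0 4 (2 * L) (2 * R)]
      · linarith [Phi_nonneg 0 1 (3 * L) (3 * R), Phi_nonneg 0 3 (3 * L) (3 * R),
          Phi_nonneg 0 5 (3 * L) (3 * R)]
      · linarith [Phi_nonneg 0 2 (2 * L) (2 * R), Phi_nonneg 0 5 (2 * L) (2 * R)]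
      · exact Phi_nonneg _ _ _ _
  | succ i ih =>
    have h0 : Phi (i + 1) r L R = if 1 < R then 0 else if L ≤ 1 then 1 else Op (Phi i) r L R := rfl
    have h1 : Phi (i + 1 + 1) r L R =
      if 1 < R then 0 else if L ≤ 1 then 1 else Op (Phi (i + 1)) r L R := rfl
    rw [h0, h1]
    split_ifs
    · norm_num
    · norm_num
    · exact Op_mono (fun r L R => ih r L R) r L R

lemma Phi_mono (r : ℕ) (L R : ℝ) : Monotone (fun i => Phi i r L R) :=
  monotone_nat_of_le_succ (fun i => Phi_succ i r L R)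

lemma Phi_anti (i r : ℕ) {L L' R R' : ℝ} (hL : L ≤ L') (hR : R ≤ R') :
    Phi i r L' R' ≤ Phi i r L R := by
  induction i generalizing r L L' R R' with
  | zero =>
    have h0 : Phi 0 r L R = if 1 < R then 0 else if L ≤ 1 then 1 else 0 := rfl
    have h1 : Phi 0 r L' R' = if 1 < R' then 0 else if L' ≤ 1 then 1 else 0 := rfl
    have h1' := Phi_le_one 0 r L' R'
    have h0' := Phi_nonneg 0 r L R
    by_cases hR' : 1 < R'
    · rw [h1, if_pos hR']
      exact h0'
    · have hR1 : ¬ 1 < R := fun h => hR' (by linarith)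
      by_cases hL1 : L ≤ 1
      · rw [h0, if_neg hR1, if_pos hL1]
        exact h1'
      · have hL1' : ¬ L' ≤ 1 := fun h => hL1 (by linarith)
        rw [h0, h1, if_neg hR1, if_neg hR', if_neg hL1, if_neg hL1']
  | succ i ih =>
    have h0 : Phi (i + 1) r L R = if 1 < R then 0 else if L ≤ 1 then 1 else Op (Phi i) r L R := rfl
    have h1 : Phi (i + 1) r L' R' =
      if 1 < R' then 0 else if L' ≤ 1 then 1 else Op (Phi i) r L' R' := rfl
    have h1' := Phi_le_one (i + 1) r L' R'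
    have h0' := Phi_nonneg (i + 1) r L R
    by_cases hR' : 1 < R'
    · rw [h1, if_pos hR']
      exact h0'
    · have hR1 : ¬ 1 < R := fun h => hR' (by linarith)
      by_cases hL1 : L ≤ 1
      · rw [h0, if_neg hR1, if_pos hL1]
        exact h1'
      · have hL1' : ¬ L' ≤ 1 := fun h => hL1 (by linarith)
        rw [h0, h1, if_neg hR1, if_neg hR', if_neg hL1, if_neg hL1']
        have e2 : ∀ s, Phi i s (2 * L') (2 * R') ≤ Phi i s (2 * L) (2 * R) :=
          fun s => ih s (by linarith) (by linarith)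
        have e3 : ∀ s, Phi i s (3 * L') (3 * R') ≤ Phi i s (3 * L) (3 * R) :=
          fun s => ih s (by linarith) (by linarith)
        have e5 : ∀ s, Phi i s (L' / 5) (R' / 5) ≤ Phi i s (L / 5) (R / 5) :=
          fun s => ih s (by linarith) (by linarith)
        unfold Op
        split_ifs
        · linarith [e2 0, e2 3]
        · exact e5 _
        · linarith [e2 1, e2 4]
        · linarith [e3 1, e3 3, e3 5]
        · linarith [e2 2, e2 5]
        · exact e5 _

lemma Phi_bdd (r : ℕ) (L R : ℝ) : BddAbove (Set.range (fun i => Phi i r L R)) := by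
  refine ⟨1, ?_⟩
  rintro _ ⟨i, rfl⟩
  exact Phi_le_one i r L R

lemma Phi_le_F (i r : ℕ) (L R : ℝ) : Phi i r L R ≤ F r L R := le_ciSup (Phi_bdd r L R) i

lemma tendsto_Phi (r : ℕ) (L R : ℝ) :
    Tendsto (fun i => Phi i r L R) atTop (nhds (F r L R)) :=
  tendsto_atTop_ciSup (Phi_mono r L R) (Phi_bdd r L R)

lemma F_nonneg (r : ℕ) (L R : ℝ) : 0 ≤ F r L R := (Phi_nonneg 0 r L R).trans (Phi_le_F 0 r L R)

lemma F_le_one (r : ℕ) (L R : ℝ) : F r L R ≤ 1 := ciSup_le (fun i => Phi_le_one i r L R)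

lemma F_le_of {r : ℕ} {L R a : ℝ} (h : ∀ i, Phi i r L R ≤ a) : F r L R ≤ a := ciSup_le h

lemma F_anti (r : ℕ) {L L' R R' : ℝ} (hL : L ≤ L') (hR : R ≤ R') : F r L' R' ≤ F r L R :=
  F_le_of (fun i => (Phi_anti i r hL hR).trans (Phi_le_F i r L R))

lemma F_zero {r : ℕ} {L R : ℝ} (hR : 1 < R) : F r L R = 0 := by
  refine le_antisymm (F_le_of ?_) (F_nonneg r L R)
  intro i
  cases i with
  | zero =>
    unfold Phi
    rw [if_pos hR]
  | succ i =>
    unfold Phi
    rw [if_pos hR]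

lemma F_one {r : ℕ} {L R : ℝ} (hL : L ≤ 1) (hR : R ≤ 1) : F r L R = 1 := by
  refine le_antisymm (F_le_one r L R) ?_
  refine le_trans (le_of_eq ?_) (Phi_le_F 0 r L R)
  unfold Phi
  rw [if_neg (not_lt.mpr hR), if_pos hL]

lemma F_step {r : ℕ} {L R : ℝ} (hL : 1 < L) (hR : R ≤ 1) : F r L R = Op F r L R := by
  have h1 : Tendsto (fun i => Phi (i + 1) r L R) atTop (nhds (F r L R)) :=
    (tendsto_Phi r L R).comp (tendsto_add_atTop_nat 1)
  have h2 : (fun i => Phi (i + 1) r L R) = fun i => Op (Phi i) r L R := by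
    funext i
    have : Phi (i + 1) r L R = if 1 < R then 0 else if L ≤ 1 then 1 else Op (Phi i) r L R := rfl
    rw [this, if_neg (not_lt.mpr hR), if_neg (not_le.mpr hL)]
  rw [h2] at h1
  have h3 : Tendsto (fun i => Op (Phi i) r L R) atTop (nhds (Op F r L R)) := by
    have t := fun s L R => tendsto_Phi s L R
    unfold Op
    split_ifs
    · exact ((t 0 _ _).add (t 3 _ _)).div_const 2
    · exact t _ _ _
    · exact ((t 1 _ _).add (t 4 _ _)).div_const 2
    · exact (((t 1 _ _).add (t 3 _ _)).add (t 5 _ _)).div_const 3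
    · exact ((t 2 _ _).add (t 5 _ _)).div_const 2
    · exact t _ _ _
  exact tendsto_nhds_unique h1 h3

/-- The eigenvector equations for `θ`. -/
structure Par (θ : ℝ) (v : ℕ → ℝ) : Prop where
  hθ1 : 2 < θ
  hθ3 : θ < 3
  vpos : ∀ r, r < 6 → 0 < v r
  v0 : v 0 = (2 : ℝ) ^ (-θ) * (v 0 + v 3) / 2
  v1 : v 1 = (5 : ℝ) ^ θ * v 0
  v2 : v 2 = (2 : ℝ) ^ (-θ) * (v 1 + v 4) / 2
  v3 : v 3 = (3 : ℝ) ^ (-θ) * (v 1 + v 3 + v 5) / 3
  v4 : v 4 = (2 : ℝ) ^ (-θ) * (v 2 + v 5) / 2
  v5 : v 5 = (5 : ℝ) ^ θ * v 2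

/-- A supersolution for the exponent 1 with rate 19/20. -/
noncomputable def w : ℕ → ℝ
  | 0 => 687 / 10000
  | 1 => 37 / 100
  | 2 => 1857 / 10000
  | 3 => 1863 / 10000
  | 4 => 3194 / 10000
  | _ => 1

lemma w_pos (r : ℕ) : 0 < w r := by
  unfold w
  split <;> norm_num

lemma w_le_one (r : ℕ) : w r ≤ 1 := by
  unfold w
  split <;> norm_num

lemma w_ge (r : ℕ) : 687 / 10000 ≤ w r := by
  unfold w
  split <;> norm_num

lemma Op_w {r : ℕ} (hr : r < 6) {L R : ℝ} (hL : 0 < L) :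
    Op (fun r L _ => w r / L) r L R ≤ 19 / 20 * (w r / L) := by
  have key : ∀ a b : ℝ, a ≤ 19 / 20 * b → a / L ≤ 19 / 20 * (b / L) := by
    intro a b h
    rw [← mul_div_assoc]
    exact div_le_div_of_nonneg_right h hL.le
  interval_cases r
  · have e : Op (fun r L _ => w r / L) 0 L R = ((w 0 + w 3) / 4) / L := by
      unfold Op
      rw [if_pos rfl]
      field_simp
      ring
    rw [e]
    exact key _ _ (by simp only [w]; norm_num)
  · have e : Op (fun r L _ => w r / L) 1 L R = (5 * w 0) / L := by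
      unfold Op
      rw [if_neg (by norm_num), if_pos rfl]
      field_simp
    rw [e]
    exact key _ _ (by simp only [w]; norm_num)
  · have e : Op (fun r L _ => w r / L) 2 L R = ((w 1 + w 4) / 4) / L := by
      unfold Op
      rw [if_neg (by norm_num), if_neg (by norm_num), if_pos rfl]
      field_simp
      ring
    rw [e]
    exact key _ _ (by simp only [w]; norm_num)
  · have e : Op (fun r L _ => w r / L) 3 L R = ((w 1 + w 3 + w 5) / 9) / L := by
      unfold Op
      rw [if_neg (by norm_num), if_neg (by norm_num), if_neg (by norm_num), if_pos rfl]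
      field_simp
      ring
    rw [e]
    exact key _ _ (by simp only [w]; norm_num)
  · have e : Op (fun r L _ => w r / L) 4 L R = ((w 2 + w 5) / 4) / L := by
      unfold Op
      rw [if_neg (by norm_num), if_neg (by norm_num), if_neg (by norm_num),
        if_neg (by norm_num), if_pos rfl]
      field_simp
      ring
    rw [e]
    exact key _ _ (by simp only [w]; norm_num)
  · have e : Op (fun r L _ => w r / L) 5 L R = (5 * w 2) / L := by
      unfold Op
      rw [if_neg (by norm_num), if_neg (by norm_num), if_neg (by norm_num),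
        if_neg (by norm_num), if_neg (by norm_num)]
      field_simp
    rw [e]
    exact key _ _ (by simp only [w]; norm_num)

lemma Op_v {θ : ℝ} {v : ℕ → ℝ} (h : Par θ v) {r : ℕ} (hr : r < 6) {L R : ℝ} (hL : 0 < L) :
    Op (fun r L _ => v r * L ^ (-θ)) r L R = v r * L ^ (-θ) := by
  have e2 : (2 * L) ^ (-θ) = (2 : ℝ) ^ (-θ) * L ^ (-θ) := Real.mul_rpow (by norm_num) hL.le
  have e3 : (3 * L) ^ (-θ) = (3 : ℝ) ^ (-θ) * L ^ (-θ) := Real.mul_rpow (by norm_num) hL.le
  have e5 : (L / 5) ^ (-θ) = (5 : ℝ) ^ θ * L ^ (-θ) := by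
    rw [Real.div_rpow hL.le (by norm_num), Real.rpow_neg (by norm_num : (0 : ℝ) ≤ 5)]
    field_simp
  interval_cases r
  · unfold Op
    rw [if_pos rfl]
    beta_reduce
    rw [e2]
    calc (v 0 * ((2 : ℝ) ^ (-θ) * L ^ (-θ)) + v 3 * ((2 : ℝ) ^ (-θ) * L ^ (-θ))) / 2
        = ((2 : ℝ) ^ (-θ) * (v 0 + v 3) / 2) * L ^ (-θ) := by ring
      _ = v 0 * L ^ (-θ) := by rw [← h.v0]
  · unfold Op
    rw [if_neg (by norm_num), if_pos rfl]
    beta_reduce
    rw [e5, h.v1]
    ring
  · unfold Op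
    rw [if_neg (by norm_num), if_neg (by norm_num), if_pos rfl]
    beta_reduce
    rw [e2]
    calc (v 1 * ((2 : ℝ) ^ (-θ) * L ^ (-θ)) + v 4 * ((2 : ℝ) ^ (-θ) * L ^ (-θ))) / 2
        = ((2 : ℝ) ^ (-θ) * (v 1 + v 4) / 2) * L ^ (-θ) := by ring
      _ = v 2 * L ^ (-θ) := by rw [← h.v2]
  · unfold Op
    rw [if_neg (by norm_num), if_neg (by norm_num), if_neg (by norm_num), if_pos rfl]
    beta_reduce
    rw [e3]
    calc (v 1 * ((3 : ℝ) ^ (-θ) * L ^ (-θ)) + v 3 * ((3 : ℝ) ^ (-θ) * L ^ (-θ)) +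
          v 5 * ((3 : ℝ) ^ (-θ) * L ^ (-θ))) / 3
        = ((3 : ℝ) ^ (-θ) * (v 1 + v 3 + v 5) / 3) * L ^ (-θ) := by ring
      _ = v 3 * L ^ (-θ) := by rw [← h.v3]
  · unfold Op
    rw [if_neg (by norm_num), if_neg (by norm_num), if_neg (by norm_num),
      if_neg (by norm_num), if_pos rfl]
    beta_reduce
    rw [e2]
    calc (v 2 * ((2 : ℝ) ^ (-θ) * L ^ (-θ)) + v 5 * ((2 : ℝ) ^ (-θ) * L ^ (-θ))) / 2
        = ((2 : ℝ) ^ (-θ) * (v 2 + v 5) / 2) * L ^ (-θ) := by ring
      _ = v 4 * L ^ (-θ) := by rw [← h.v4]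
  · unfold Op
    rw [if_neg (by norm_num), if_neg (by norm_num), if_neg (by norm_num),
      if_neg (by norm_num), if_neg (by norm_num)]
    beta_reduce
    rw [e5, h.v5]
    ring

end Pool.Agent.H12.EV
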