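import Pool.Agent.H12.EV.Int

/-!
The counts in short intervals.
-/

namespace Pool.Agent.H12.EV

open Filter Finset Pool.Agent.H12.EU

/-- The facts about the counts and the model probabilities which are combined. -/
structure Hyp (θ : ℝ) (κ : ℕ → ℝ) : Prop where
  low : ∃ B : ℝ, 0 ≤ B ∧ ∀ (T A Q : ℕ) (L R : ℝ), Q % 2 = 1 → Q % 3 ≠ 0 → 0 < L → 0 < R →
    (T : ℝ) * F (A % 6) L R - B * (T : ℝ) ^ (43 / 50 : ℝ) / R ≤ NL A Q L R T
  up : ∃ B : ℝ, 0 ≤ B ∧ ∀ x R : ℝ, 1 / 2 ≤ x → 1 / 2 ≤ R → ∀ (m T : ℕ), T ≤ 2 ^ m →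
    ∀ (A Q : ℕ) (Y : ℝ), Q % 2 = 1 → Q % 3 ≠ 0 → 0 ≤ Y →
    (∀ s, s < T → ((A + 6 * Q * s : ℕ) : ℝ) ≤ Y) →
    (NU A Q x R T : ℝ) ≤ (T : ℝ) * F (A % 6) (x / ((1 + 1 / (2 * R)) ^ m * (Y + 1 / 4)))
        (R / ((1 + 1 / (2 * R)) ^ m * (Y + 1 / 4)))
      + B * (1 + 1 / (2 * R)) ^ m * (T : ℝ) ^ (43 / 50 : ℝ) * ((Y + 1 / 4) / R)
  lim : ∀ r : ℕ, r < 6 → Tendsto (fun L : ℝ => F r L 1 * L ^ θ) atTop (nhds (κ r))
  dip : ∀ η : ℝ, 0 < η → ∃ ε₀ : ℝ, 0 < ε₀ ∧ ε₀ < 1 ∧ ∀ ε : ℝ, 0 < ε → ε ≤ ε₀ → ∀ r : ℕ, r < 6 →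
    ∀ L : ℝ, 1 ≤ L → F r L (1 - ε) ≤ F r L 1 + η * L ^ (-θ)

/-- The mean of the six constants. -/
noncomputable def mean (κ : ℕ → ℝ) : ℝ := (∑ r ∈ range 6, κ r) / 6

lemma kappa_nonneg {θ : ℝ} {κ : ℕ → ℝ} (h : Hyp θ κ) {r : ℕ} (hr : r < 6) : 0 ≤ κ r := by
  refine ge_of_tendsto (h.lim r hr) ?_
  filter_upwards [eventually_gt_atTop 0] with L hL
  exact mul_nonneg (F_nonneg _ _ _) (Real.rpow_nonneg hL.le _)

lemma mean_nonneg {θ : ℝ} {κ : ℕ → ℝ} (h : Hyp θ κ) : 0 ≤ mean κ := by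
  unfold mean
  refine div_nonneg (Finset.sum_nonneg ?_) (by norm_num)
  intro r hr
  exact kappa_nonneg h (mem_range.mp hr)

lemma lim_bounds {θ : ℝ} {κ : ℕ → ℝ} (h : Hyp θ κ) {η : ℝ} (hη : 0 < η) :
    ∃ L0 : ℝ, 1 ≤ L0 ∧ ∀ L : ℝ, L0 ≤ L → ∀ r : ℕ, r < 6 →
      (κ r - η) * L ^ (-θ) ≤ F r L 1 ∧ F r L 1 ≤ (κ r + η) * L ^ (-θ) := by
  have h1 : ∀ᶠ L : ℝ in atTop, ∀ r ∈ range 6,
      κ r - η < F r L 1 * L ^ θ ∧ F r L 1 * L ^ θ < κ r + η := by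
    rw [Filter.eventually_all_finset]
    intro r hr
    have h2 := h.lim r (mem_range.mp hr)
    exact (h2.eventually (lt_mem_nhds (by linarith))).and
      (h2.eventually (gt_mem_nhds (by linarith)))
  obtain ⟨L1, hL1⟩ := Filter.eventually_atTop.mp h1
  refine ⟨max L1 1, le_max_right _ _, ?_⟩
  intro L hL r hr
  have hL0 : 0 < L := by linarith [(le_max_right L1 1).trans hL]
  obtain ⟨a1, a2⟩ := hL1 L ((le_max_left _ _).trans hL) r (mem_range.mpr hr)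
  have e : F r L 1 * L ^ θ * L ^ (-θ) = F r L 1 := by
    rw [mul_assoc, ← Real.rpow_add hL0]
    simp
  have hp : 0 < L ^ (-θ) := Real.rpow_pos_of_pos hL0 _
  constructor
  · rw [← e]
    exact mul_le_mul_of_nonneg_right a1.le hp.le
  · rw [← e]
    exact mul_le_mul_of_nonneg_right a2.le hp.le

lemma intLow {θ : ℝ} {κ : ℕ → ℝ} (hθ : 0 < θ) (h : Hyp θ κ) {η ε : ℝ} (hη : 0 < η) (hε : 0 < ε)
    (hε1 : ε < 1) :
    ∃ M0 L0 D : ℝ, 1 ≤ M0 ∧ 1 ≤ L0 ∧ 0 ≤ D ∧ ∀ M L : ℝ, M0 ≤ M → L0 ≤ L → ∀ P : ℕ → Prop,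
      (∀ n : ℕ, (1 - ε) * M < n → (n : ℝ) ≤ M → BigR L 1 n → P n) →
      (cnt P ((1 - ε) * M) : ℝ) + (mean κ - η) * ε * M * L ^ (-θ) - D * M ^ (43 / 50 : ℝ) ≤
        cnt P M := by
  classical
  obtain ⟨B, hB0, hB⟩ := h.low
  obtain ⟨L0, hL01, hL0⟩ := lim_bounds h hη
  refine ⟨1, L0, 6 * B + 6 * |mean κ - η|, le_refl _, hL01, by positivity, ?_⟩
  intro M L hM hL P hP
  have hM0 : 0 < M := by linarith
  have hL1 : 1 ≤ L := hL01.trans hL
  have hLp : 0 < L ^ (-θ) := Real.rpow_pos_of_pos (by linarith) _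
  have hLp1 : L ^ (-θ) ≤ 1 := Real.rpow_le_one_of_one_le_of_nonpos hL1 (by linarith)
  have ha0 : 0 ≤ (1 - ε) * M := mul_nonneg (by linarith) hM0.le
  have hab : (1 - ε) * M ≤ M := by nlinarith
  have hs := cnt_split P hab
  set u := ⌊(1 - ε) * M⌋₊ with hu
  set w := ⌊M⌋₊ with hw
  have huw : u ≤ w := Nat.floor_le_floor hab
  have hl := le_card_Ioc P L u w (by
    intro n h1 h2 h3
    refine hP n ((Nat.floor_lt ha0).mp h1) ?_ h3
    exact (Nat.le_floor_iff hM0.le).mp h2)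
  set T : ℕ := (w - u) / 6 with hT
  have hsum : ∑ j ∈ range 6, ((T : ℝ) * F ((u + 1 + j) % 6) L 1 -
      B * (T : ℝ) ^ (43 / 50 : ℝ) / 1) ≤ ∑ j ∈ range 6, (NL (u + 1 + j) 1 L 1 T : ℝ) :=
    Finset.sum_le_sum (fun j _ => hB T (u + 1 + j) 1 L 1 (by norm_num) (by norm_num)
      (by linarith) (by norm_num))
  have hsum2 : ∑ j ∈ range 6, ((T : ℝ) * F ((u + 1 + j) % 6) L 1 -
      B * (T : ℝ) ^ (43 / 50 : ℝ) / 1) =
      T * (∑ r ∈ range 6, F r L 1) - 6 * (B * (T : ℝ) ^ (43 / 50 : ℝ)) := by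
    rw [Finset.sum_sub_distrib, ← Finset.mul_sum, sum_mod (fun r => F r L 1) (u + 1)]
    simp
  have hF : 6 * (mean κ - η) * L ^ (-θ) ≤ ∑ r ∈ range 6, F r L 1 := by
    have h1 : ∑ r ∈ range 6, ((κ r - η) * L ^ (-θ)) ≤ ∑ r ∈ range 6, F r L 1 :=
      Finset.sum_le_sum (fun r hr => (hL0 L hL r (mem_range.mp hr)).1)
    have h2 : ∑ r ∈ range 6, ((κ r - η) * L ^ (-θ)) = 6 * (mean κ - η) * L ^ (-θ) := by
      rw [← Finset.sum_mul, Finset.sum_sub_distrib]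
      unfold mean
      rw [Finset.sum_const, Finset.card_range, nsmul_eq_mul]
      push_cast
      ring
    linarith
  have hT1 : (T : ℝ) ≤ ε * M / 6 + 1 := by
    have h1 : T * 6 ≤ w - u := Nat.div_mul_le_self _ _
    have h2 : ((T * 6 : ℕ) : ℝ) ≤ ((w - u : ℕ) : ℝ) := by exact_mod_cast h1
    rw [Nat.cast_sub huw] at h2
    push_cast at h2
    have h3 : (w : ℝ) ≤ M := Nat.floor_le hM0.le
    have h4 : (1 - ε) * M < u + 1 := Nat.lt_floor_add_one _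
    linarith
  have hT2 : ε * M / 6 - 1 ≤ (T : ℝ) := by
    have h1 : w - u ≤ T * 6 + 5 := by omega
    have h2 : ((w - u : ℕ) : ℝ) ≤ ((T * 6 + 5 : ℕ) : ℝ) := by exact_mod_cast h1
    rw [Nat.cast_sub huw] at h2
    push_cast at h2
    have h3 : M < w + 1 := Nat.lt_floor_add_one _
    have h4 : (u : ℝ) ≤ (1 - ε) * M := Nat.floor_le ha0
    linarith
  have hT0 : (0 : ℝ) ≤ T := Nat.cast_nonneg T
  have hTM : (T : ℝ) ≤ M := by
    have h1 : T ≤ w := by omega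
    have h2 : (T : ℝ) ≤ (w : ℝ) := by exact_mod_cast h1
    exact h2.trans (Nat.floor_le hM0.le)
  have hTp : (T : ℝ) ^ (43 / 50 : ℝ) ≤ M ^ (43 / 50 : ℝ) := Real.rpow_le_rpow hT0 hTM (by norm_num)
  have hM1 : 1 ≤ M ^ (43 / 50 : ℝ) := Real.one_le_rpow hM (by norm_num)
  have hcast : ∑ j ∈ range 6, (NL (u + 1 + j) 1 L 1 T : ℝ) ≤
      (((Ioc u w).filter P).card : ℝ) := by exact_mod_cast hl
  have hsr : (cnt P M : ℝ) = (cnt P ((1 - ε) * M) : ℝ) + (((Ioc u w).filter P).card : ℝ) := by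
    exact_mod_cast hs
  rw [hsr]
  set X := 6 * (mean κ - η) * L ^ (-θ) with hX
  have hXabs : |X| ≤ 6 * |mean κ - η| := by
    rw [hX, abs_mul, abs_mul, abs_of_pos hLp]
    have : |(6 : ℝ)| = 6 := by norm_num
    rw [this]
    have h0 : 0 ≤ |mean κ - η| := abs_nonneg _
    nlinarith
  have hTX : ε * M / 6 * X - |X| ≤ T * X := by
    have h1 : |(T : ℝ) - ε * M / 6| ≤ 1 := by
      rw [abs_le]
      constructor <;> linarith
    have h2 : |((T : ℝ) - ε * M / 6) * X| ≤ |X| := by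
      rw [abs_mul]
      have := abs_nonneg X
      nlinarith
    have h3 := (abs_le.mp h2).1
    nlinarith
  have hTF : T * X ≤ T * (∑ r ∈ range 6, F r L 1) := mul_le_mul_of_nonneg_left hF hT0
  have hBT : 6 * (B * (T : ℝ) ^ (43 / 50 : ℝ)) ≤ 6 * B * M ^ (43 / 50 : ℝ) := by
    have := mul_le_mul_of_nonneg_left hTp hB0
    linarith
  have hXM : |X| ≤ 6 * |mean κ - η| * M ^ (43 / 50 : ℝ) := by
    have h0 : 0 ≤ 6 * |mean κ - η| := by positivity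
    nlinarith
  have e1 : ε * M / 6 * X = (mean κ - η) * ε * M * L ^ (-θ) := by
    rw [hX]
    ring
  rw [e1] at hTX
  rw [hsum2] at hsum
  nlinarith

lemma factor_bound {ε : ℝ} (hε : 0 < ε) (hε1 : ε ≤ 1 / 4) :
    ∃ M0 : ℝ, 1 ≤ M0 ∧ ∀ M : ℝ, M0 ≤ M →
      (1 + 1 / (2 * ((1 - ε) * M))) ^ (Nat.log 2 ⌊M⌋₊ + 1) * (M + 1 / 4) ≤ (1 + ε) * M ∧
      (1 + 1 / (2 * ((1 - ε) * M))) ^ (Nat.log 2 ⌊M⌋₊ + 1) ≤ 2 := by
  have t1 : Tendsto (fun M : ℝ => Real.log M / M) atTop (nhds 0) :=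
    Real.isLittleO_log_id_atTop.tendsto_div_nhds_zero
  have t2 : Tendsto (fun M : ℝ => 1 / M) atTop (nhds 0) := tendsto_const_nhds.div_atTop tendsto_id
  have hl2 : 0 < Real.log 2 := Real.log_pos (by norm_num)
  have t3 : Tendsto (fun M : ℝ => (1 / (2 * (1 - ε) * Real.log 2)) * (Real.log M / M) +
      (1 / (2 * (1 - ε))) * (1 / M)) atTop
      (nhds ((1 / (2 * (1 - ε) * Real.log 2)) * 0 + (1 / (2 * (1 - ε))) * 0)) :=
    (t1.const_mul _).add (t2.const_mul _)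
  rw [mul_zero, mul_zero, add_zero] at t3
  have t4 : Tendsto (fun M : ℝ => Real.exp ((1 / (2 * (1 - ε) * Real.log 2)) * (Real.log M / M) +
      (1 / (2 * (1 - ε))) * (1 / M))) atTop (nhds (Real.exp 0)) :=
    (Real.continuous_exp.tendsto 0).comp t3
  rw [Real.exp_zero] at t4
  have t5 := t4.eventually (gt_mem_nhds (show (1 : ℝ) < 1 + ε / 2 by linarith))
  obtain ⟨M1, hM1⟩ := Filter.eventually_atTop.mp t5
  refine ⟨max (max M1 1) (1 / ε), (le_max_right _ _).trans (le_max_left _ _), ?_⟩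
  intro M hM
  have hMM1 : M1 ≤ M := ((le_max_left _ _).trans (le_max_left _ _)).trans hM
  have hM1' : 1 ≤ M := ((le_max_right _ _).trans (le_max_left _ _)).trans hM
  have hMε : 1 / ε ≤ M := (le_max_right _ _).trans hM
  have hM0 : 0 < M := by linarith
  have h1 := hM1 M hMM1
  set m := Nat.log 2 ⌊M⌋₊ with hm
  have hfl : ⌊M⌋₊ ≠ 0 := by
    have : 1 ≤ ⌊M⌋₊ := (Nat.one_le_floor_iff M).mpr hM1'
    omega
  have h2 : 2 ^ m ≤ ⌊M⌋₊ := Nat.pow_log_le_self 2 hfl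
  have h3 : (2 : ℝ) ^ m ≤ M := by
    have : ((2 ^ m : ℕ) : ℝ) ≤ (⌊M⌋₊ : ℝ) := by exact_mod_cast h2
    push_cast at this
    exact this.trans (Nat.floor_le hM0.le)
  have h4 : (m : ℝ) * Real.log 2 ≤ Real.log M := by
    rw [← Real.log_pow]
    exact Real.log_le_log (by positivity) h3
  have h5 : (m : ℝ) ≤ Real.log M / Real.log 2 := by
    rw [le_div_iff₀ hl2]
    exact h4
  have hR0 : 0 < (1 - ε) * M := mul_pos (by linarith) hM0
  have h6 : (1 + 1 / (2 * ((1 - ε) * M))) ^ (m + 1) ≤ 1 + ε / 2 := by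
    have b1 : 1 + 1 / (2 * ((1 - ε) * M)) ≤ Real.exp (1 / (2 * ((1 - ε) * M))) := by
      have := Real.add_one_le_exp (1 / (2 * ((1 - ε) * M)))
      linarith
    have b2 : (1 + 1 / (2 * ((1 - ε) * M))) ^ (m + 1) ≤
        Real.exp (1 / (2 * ((1 - ε) * M))) ^ (m + 1) :=
      pow_le_pow_left₀ (by positivity) b1 _
    rw [← Real.exp_nat_mul] at b2
    refine b2.trans (le_trans ?_ h1.le)
    refine Real.exp_le_exp.mpr ?_
    push_cast
    have b3 : ((m : ℝ) + 1) * (1 / (2 * ((1 - ε) * M))) ≤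
        (Real.log M / Real.log 2 + 1) * (1 / (2 * ((1 - ε) * M))) :=
      mul_le_mul_of_nonneg_right (by linarith) (by positivity)
    refine b3.trans (le_of_eq ?_)
    have : (1 - ε) ≠ 0 := by linarith
    field_simp
  refine ⟨?_, by linarith⟩
  have h7 : M + 1 / 4 ≤ (1 + ε / 4) * M := by
    have : 1 ≤ ε * M := by
      rw [div_le_iff₀ hε] at hMε
      linarith
    linarith
  calc (1 + 1 / (2 * ((1 - ε) * M))) ^ (m + 1) * (M + 1 / 4)
      ≤ (1 + ε / 2) * ((1 + ε / 4) * M) :=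
        mul_le_mul h6 h7 (by linarith) (by linarith)
    _ ≤ (1 + ε) * M := by nlinarith

lemma intUp {θ : ℝ} {κ : ℕ → ℝ} (hθ : 0 < θ) (h : Hyp θ κ) {η : ℝ} (hη : 0 < η) :
    ∃ ε₁ : ℝ, 0 < ε₁ ∧ ∀ ε : ℝ, 0 < ε → ε ≤ ε₁ →
    ∃ M0 L0 D : ℝ, 1 ≤ M0 ∧ 1 ≤ L0 ∧ 0 ≤ D ∧ ∀ M L : ℝ, M0 ≤ M → L0 ≤ L → ∀ P : ℕ → Prop,
      (∀ n : ℕ, (1 - ε) * M < n → (n : ℝ) ≤ M → P n →
        Reach (L * ((1 - ε) * M)) ((1 - ε) * M) n) →
      (cnt P M : ℝ) ≤ cnt P ((1 - ε) * M) + (mean κ + η) * ε * M * L ^ (-θ) +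
        D * M ^ (43 / 50 : ℝ) := by
  classical
  obtain ⟨B, hB0, hB⟩ := h.up
  have hmean := mean_nonneg h
  obtain ⟨ε₀, hε₀, hε₀1, hdip⟩ := h.dip (η / 4) (by linarith)
  obtain ⟨L1, hL11, hL1⟩ := lim_bounds h (show 0 < η / 4 by linarith)
  -- the factor `(1 - 2ε)^(-θ)`
  set s : ℝ := η / (2 * mean κ + η) with hs
  have hs0 : 0 < s := by positivity
  have tc : Tendsto (fun ε : ℝ => (1 - 2 * ε) ^ (-θ)) (nhds 0) (nhds ((1 - 2 * 0) ^ (-θ))) := by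
    have : ContinuousAt (fun ε : ℝ => (1 - 2 * ε) ^ (-θ)) 0 := by
      refine ContinuousAt.rpow_const ?_ (Or.inl (by norm_num))
      fun_prop
    exact this
  have e0 : ((1 : ℝ) - 2 * 0) ^ (-θ) = 1 := by norm_num
  rw [e0] at tc
  have tc2 := tc.eventually (gt_mem_nhds (show (1 : ℝ) < 1 + s by linarith))
  obtain ⟨δ, hδ, hδ'⟩ := Metric.eventually_nhds_iff.mp tc2
  refine ⟨min (min (ε₀ / 2) (1 / 4)) (δ / 2), by positivity, ?_⟩
  intro ε hε hεle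
  have hε1 : ε ≤ ε₀ / 2 := hεle.trans ((min_le_left _ _).trans (min_le_left _ _))
  have hε2 : ε ≤ 1 / 4 := hεle.trans ((min_le_left _ _).trans (min_le_right _ _))
  have hε3 : ε ≤ δ / 2 := hεle.trans (min_le_right _ _)
  have hfac : (1 - 2 * ε) ^ (-θ) ≤ 1 + s := by
    refine (hδ' ?_).le
    rw [Real.dist_eq, sub_zero, abs_of_pos hε]
    linarith
  obtain ⟨M1, hM11, hM1⟩ := factor_bound hε hε2
  refine ⟨M1, max L1 1 * 2, 48 * B + 6 * (mean κ + η), hM11, by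
    have := le_max_right L1 1
    linarith, by positivity, ?_⟩
  intro M L hM hL P hP
  have hM1' : 1 ≤ M := hM11.trans hM
  have hM0 : 0 < M := by linarith
  have hmax1 : 1 ≤ max L1 1 := le_max_right _ _
  have hL1' : 1 ≤ L := by linarith
  have hL0 : 0 < L := by linarith
  obtain ⟨hz1, hz2⟩ := hM1 M hM
  set R : ℝ := (1 - ε) * M with hR
  have hR0 : 0 < R := mul_pos (by linarith) hM0
  have hRhalf : 1 / 2 ≤ R := by
    rw [hR]
    nlinarith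
  have hx : 1 / 2 ≤ L * R := by nlinarith
  set m := Nat.log 2 ⌊M⌋₊ + 1 with hm
  set z : ℝ := (1 + 1 / (2 * R)) ^ m with hz
  have hz0 : 0 < z := by positivity
  have hz1' : 1 ≤ z := by
    have : 0 < 1 / (2 * R) := by positivity
    exact one_le_pow₀ (by linarith)
  have hab : R ≤ M := by rw [hR]; nlinarith
  have hsplit := cnt_split P hab
  set u := ⌊R⌋₊ with hu
  set w := ⌊M⌋₊ with hw
  have huw : u ≤ w := Nat.floor_le_floor hab
  have hl := card_Ioc_le P (L * R) R u w (by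
    intro n h1 h2 h3
    exact hP n ((Nat.floor_lt hR0.le).mp h1) ((Nat.le_floor_iff hM0.le).mp h2) h3)
  have hwlt : w < 2 ^ m := Nat.lt_pow_succ_log_self (by norm_num) w
  have hwM : (w : ℝ) ≤ M := Nat.floor_le hM0.le
  -- the enlarged thresholds
  have hzy0 : 0 < z * (M + 1 / 4) := by positivity
  have hthr : (1 - 2 * ε) * (z * (M + 1 / 4)) ≤ R := by
    have h1 : (1 - 2 * ε) * (z * (M + 1 / 4)) ≤ (1 - 2 * ε) * ((1 + ε) * M) :=
      mul_le_mul_of_nonneg_left hz1 (by linarith)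
    have h2 : (1 - 2 * ε) * ((1 + ε) * M) ≤ R := by
      rw [hR]
      nlinarith
    linarith
  have hb1 : 1 - 2 * ε ≤ R / (z * (M + 1 / 4)) := by
    rw [le_div_iff₀ hzy0]
    exact hthr
  have hb2 : L * (1 - 2 * ε) ≤ L * R / (z * (M + 1 / 4)) := by
    rw [le_div_iff₀ hzy0]
    have := mul_le_mul_of_nonneg_left hthr hL0.le
    nlinarith
  set L'' : ℝ := L * (1 - 2 * ε) with hL''
  have hL''1 : max L1 1 ≤ L'' := by
    rw [hL'']
    nlinarith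
  have hL''ge1 : 1 ≤ L'' := hmax1.trans hL''1
  have hL''0 : 0 < L'' := by linarith
  have hpow : L'' ^ (-θ) ≤ (1 + s) * L ^ (-θ) := by
    rw [hL'', Real.mul_rpow hL0.le (by linarith), mul_comm]
    exact mul_le_mul_of_nonneg_right hfac (Real.rpow_nonneg hL0.le _)
  have hLp : 0 < L ^ (-θ) := Real.rpow_pos_of_pos hL0 _
  have hLp1 : L ^ (-θ) ≤ 1 := Real.rpow_le_one_of_one_le_of_nonpos hL1' (by linarith)
  -- the model probabilities
  have hFr : ∀ r, r < 6 → F r (L * R / (z * (M + 1 / 4))) (R / (z * (M + 1 / 4))) ≤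
      (κ r + η / 2) * L'' ^ (-θ) := by
    intro r hr
    have a1 := F_anti r hb2 hb1
    have a2 := hdip (2 * ε) (by linarith) (by linarith) r hr L'' hL''ge1
    have a3 := (hL1 L'' ((le_max_left _ _).trans hL''1) r hr).2
    have e1 : (κ r + η / 2) * L'' ^ (-θ) = (κ r + η / 4) * L'' ^ (-θ) + η / 4 * L'' ^ (-θ) := by
      ring
    rw [e1]
    linarith
  have hsumF : ∑ r ∈ range 6, F r (L * R / (z * (M + 1 / 4))) (R / (z * (M + 1 / 4))) ≤
      6 * (mean κ + η) * L ^ (-θ) := by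
    have h1 : ∑ r ∈ range 6, F r (L * R / (z * (M + 1 / 4))) (R / (z * (M + 1 / 4))) ≤
        ∑ r ∈ range 6, (κ r + η / 2) * L'' ^ (-θ) :=
      Finset.sum_le_sum (fun r hr => hFr r (mem_range.mp hr))
    have h2 : ∑ r ∈ range 6, (κ r + η / 2) * L'' ^ (-θ) =
        6 * (mean κ + η / 2) * L'' ^ (-θ) := by
      rw [← Finset.sum_mul, Finset.sum_add_distrib]
      unfold mean
      rw [Finset.sum_const, Finset.card_range, nsmul_eq_mul]
      push_cast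
      ring
    rw [h2] at h1
    have h3 : 6 * (mean κ + η / 2) * L'' ^ (-θ) ≤
        6 * (mean κ + η / 2) * ((1 + s) * L ^ (-θ)) :=
      mul_le_mul_of_nonneg_left hpow (by positivity)
    have h4 : (mean κ + η / 2) * (1 + s) = mean κ + η := by
      rw [hs]
      have : 2 * mean κ + η ≠ 0 := by positivity
      field_simp
      ring
    have h5 : 6 * (mean κ + η / 2) * ((1 + s) * L ^ (-θ)) = 6 * (mean κ + η) * L ^ (-θ) := by
      rw [← h4]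
      ring
    linarith
  -- the six classes
  have hcls : ∀ j ∈ range 6, (NU (u + 1 + j) 1 (L * R) R ((w - u + 6 - 1 - j) / 6) : ℝ) ≤
      (ε * M / 6 + 1) * F ((u + 1 + j) % 6) (L * R / (z * (M + 1 / 4))) (R / (z * (M + 1 / 4))) +
        8 * B * M ^ (43 / 50 : ℝ) := by
    intro j hj
    rw [mem_range] at hj
    set T : ℕ := (w - u + 6 - 1 - j) / 6 with hT
    have hTw : T ≤ w := by omega
    have hup := hB (L * R) R hx hRhalf m T (by omega) (u + 1 + j) 1 M (by norm_num) (by norm_num)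
      hM0.le (by
        intro s hs
        have h1 : u + 1 + j + 6 * 1 * s ≤ w := by omega
        have h2 : ((u + 1 + j + 6 * 1 * s : ℕ) : ℝ) ≤ (w : ℝ) := by exact_mod_cast h1
        exact h2.trans hwM)
    rw [← hz] at hup
    refine hup.trans ?_
    have hT0 : (0 : ℝ) ≤ T := Nat.cast_nonneg T
    have hT1 : (T : ℝ) ≤ ε * M / 6 + 1 := by
      have h1 : T * 6 ≤ w - u + 5 := by omega
      have h2 : ((T * 6 : ℕ) : ℝ) ≤ ((w - u + 5 : ℕ) : ℝ) := by exact_mod_cast h1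
      rw [Nat.cast_add, Nat.cast_sub huw] at h2
      push_cast at h2
      have h4 : R < u + 1 := Nat.lt_floor_add_one _
      rw [hR] at h4
      linarith
    have hTM : (T : ℝ) ≤ M := by
      have h2 : (T : ℝ) ≤ (w : ℝ) := by exact_mod_cast hTw
      exact h2.trans hwM
    have hTp : (T : ℝ) ^ (43 / 50 : ℝ) ≤ M ^ (43 / 50 : ℝ) :=
      Real.rpow_le_rpow hT0 hTM (by norm_num)
    have hyR : (M + 1 / 4) / R ≤ 4 := by
      rw [div_le_iff₀ hR0, hR]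
      nlinarith
    have hMp : 0 ≤ M ^ (43 / 50 : ℝ) := Real.rpow_nonneg hM0.le _
    have hFnn : 0 ≤ F ((u + 1 + j) % 6) (L * R / (z * (M + 1 / 4))) (R / (z * (M + 1 / 4))) :=
      F_nonneg _ _ _
    refine add_le_add (mul_le_mul_of_nonneg_right hT1 hFnn) ?_
    calc B * z * (T : ℝ) ^ (43 / 50 : ℝ) * ((M + 1 / 4) / R)
        ≤ B * 2 * M ^ (43 / 50 : ℝ) * 4 := by
          refine mul_le_mul ?_ hyR (by positivity) (by positivity)
          refine mul_le_mul ?_ hTp (by positivity) (by positivity)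
          exact mul_le_mul_of_nonneg_left hz2 hB0
      _ = 8 * B * M ^ (43 / 50 : ℝ) := by ring
  have hsum := Finset.sum_le_sum hcls
  have hsum2 : ∑ j ∈ range 6, ((ε * M / 6 + 1) * F ((u + 1 + j) % 6)
      (L * R / (z * (M + 1 / 4))) (R / (z * (M + 1 / 4))) + 8 * B * M ^ (43 / 50 : ℝ)) =
      (ε * M / 6 + 1) * (∑ r ∈ range 6, F r (L * R / (z * (M + 1 / 4)))
        (R / (z * (M + 1 / 4)))) + 48 * B * M ^ (43 / 50 : ℝ) := by
    rw [Finset.sum_add_distrib, ← Finset.mul_sum,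
      sum_mod (fun r => F r (L * R / (z * (M + 1 / 4))) (R / (z * (M + 1 / 4)))) (u + 1)]
    simp
    ring
  rw [hsum2] at hsum
  have hcast : (((Ioc u w).filter P).card : ℝ) ≤
      ∑ j ∈ range 6, (NU (u + 1 + j) 1 (L * R) R ((w - u + 6 - 1 - j) / 6) : ℝ) := by
    exact_mod_cast hl
  have hsr : (cnt P M : ℝ) = (cnt P R : ℝ) + (((Ioc u w).filter P).card : ℝ) := by
    exact_mod_cast hsplit
  rw [hsr]
  have hM1p : 1 ≤ M ^ (43 / 50 : ℝ) := Real.one_le_rpow hM1' (by norm_num)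
  have h1 : (ε * M / 6 + 1) * (∑ r ∈ range 6, F r (L * R / (z * (M + 1 / 4)))
        (R / (z * (M + 1 / 4)))) ≤ (ε * M / 6 + 1) * (6 * (mean κ + η) * L ^ (-θ)) :=
    mul_le_mul_of_nonneg_left hsumF (by positivity)
  have h2 : (ε * M / 6 + 1) * (6 * (mean κ + η) * L ^ (-θ)) =
      (mean κ + η) * ε * M * L ^ (-θ) + 6 * (mean κ + η) * L ^ (-θ) := by ring
  have h3 : 6 * (mean κ + η) * L ^ (-θ) ≤ 6 * (mean κ + η) * M ^ (43 / 50 : ℝ) := by
    refine mul_le_mul_of_nonneg_left (by linarith) (by positivity)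
  have e9 : (48 * B + 6 * (mean κ + η)) * M ^ (43 / 50 : ℝ) = 48 * B * M ^ (43 / 50 : ℝ) +
      6 * (mean κ + η) * M ^ (43 / 50 : ℝ) := by ring
  rw [e9]
  linarith

end Pool.Agent.H12.EV
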