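import Pool.Agent.H12.EV.Ident
import Pool.Agent.H75.EV.Barrier

/-!
The counts in all intervals `(x, x + H]`.
-/

namespace Pool.Agent.H12.EV

open Filter Finset Pool.Agent.H12.EU Pool.Agent.H83.EX

open Classical in
/-- The number of `n` in `(x, x + H]` which rise above `L * n`. -/
noncomputable def I (L : ℝ) (x H : ℕ) : ℕ := ((Ioc x (x + H)).filter (fun n => Rises L n)).card

open Classical in
/-- The number of `n` in `(x, x + H]` which rise above `L * n` or never fall. -/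
noncomputable def I' (L : ℝ) (x H : ℕ) : ℕ :=
  ((Ioc x (x + H)).filter (fun n => Rises L n ∨ Stays n)).card

lemma I_le_I' (L : ℝ) (x H : ℕ) : I L x H ≤ I' L x H := by
  classical
  unfold I I'
  refine Finset.card_le_card ?_
  intro n hn
  rw [mem_filter] at hn ⊢
  exact ⟨hn.1, Or.inl hn.2⟩

lemma I'_le (L : ℝ) (x H : ℕ) : I' L x H ≤ H := by
  classical
  unfold I'
  refine (Finset.card_filter_le _ _).trans ?_
  simp

lemma I'_eq (L : ℝ) (x H : ℕ) : R' L (x + H) = R' L x + I' L x H := by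
  classical
  unfold R' I'
  rw [← Finset.card_union_of_disjoint]
  · congr 1
    rw [← Finset.filter_union]
    congr 1
    ext n
    simp only [mem_union, mem_Icc, mem_Ioc]
    omega
  · rw [Finset.disjoint_left]
    intro n hn hm
    rw [mem_filter, mem_Icc] at hn
    rw [mem_filter, mem_Ioc] at hm
    omega

open Classical in
lemma I_low : ∃ B : ℝ, 0 ≤ B ∧ ∀ (x H : ℕ) (L : ℝ), 1 < L →
    mod L 1 * H - B * (H : ℝ) ^ (43 / 50 : ℝ) - 6 ≤ (I L x H : ℝ) := by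
  obtain ⟨B, hB0, hB⟩ := class_low
  refine ⟨6 * B, by positivity, ?_⟩
  intro x N L hL
  have h := Pool.Agent.H83.EX.card_split 6 N (by norm_num)
    (fun j s => Rises L (x + 1 + j + 6 * s) ∧ 6 * s + j < N)
    (fun t => Rises L (x + 1 + t))
    (by
      intro j hj s hq
      have e : x + 1 + (6 * s + j) = x + 1 + j + 6 * s := by ring
      rw [e]
      exact hq.1)
  have h1 : ∑ j ∈ range 6,
      ((range (N / 6)).filter (fun s => Rises L (x + 1 + j + 6 * s))).card ≤ I L x N := by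
    refine le_trans ?_ (le_trans h ?_)
    · refine Finset.sum_le_sum ?_
      intro j hj
      rw [mem_range] at hj
      refine Finset.card_le_card ?_
      intro s hs
      rw [mem_filter, mem_range] at hs ⊢
      exact ⟨hs.1, hs.2, by omega⟩
    · unfold I
      refine Finset.card_le_card_of_injOn (fun t => x + 1 + t) ?_ ?_
      · intro t ht
        rw [Finset.mem_coe, mem_filter, mem_range] at ht
        rw [Finset.mem_coe, mem_filter, mem_Ioc]
        beta_reduce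
        exact ⟨by omega, ht.2⟩
      · intro a _ b _ hab
        simp only at hab
        omega
  have h2 : ∑ j ∈ range 6, (((N / 6 : ℕ) : ℝ) * F ((x + 1 + j) % 6) L 1 -
      B * ((N / 6 : ℕ) : ℝ) ^ (43 / 50 : ℝ)) ≤ ∑ j ∈ range 6,
      (((range (N / 6)).filter (fun s => Rises L (x + 1 + j + 6 * s))).card : ℝ) :=
    Finset.sum_le_sum (fun j _ => hB (N / 6) (x + 1 + j) L hL)
  have h3 : ∑ j ∈ range 6, (((N / 6 : ℕ) : ℝ) * F ((x + 1 + j) % 6) L 1 -
      B * ((N / 6 : ℕ) : ℝ) ^ (43 / 50 : ℝ)) = ((N / 6 : ℕ) : ℝ) * (∑ r ∈ range 6, F r L 1) -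
      6 * (B * ((N / 6 : ℕ) : ℝ) ^ (43 / 50 : ℝ)) := by
    rw [Finset.sum_sub_distrib, ← Finset.mul_sum, sum_mod (fun r => F r L 1) (x + 1)]
    simp
  have h4 : ∑ j ∈ range 6,
      (((range (N / 6)).filter (fun s => Rises L (x + 1 + j + 6 * s))).card : ℝ) ≤
        (I L x N : ℝ) := by
    exact_mod_cast h1
  have h5 : ((N / 6 : ℕ) : ℝ) ≤ N := by exact_mod_cast Nat.div_le_self N 6
  have h6 : ((N / 6 : ℕ) : ℝ) ^ (43 / 50 : ℝ) ≤ (N : ℝ) ^ (43 / 50 : ℝ) :=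
    Real.rpow_le_rpow (Nat.cast_nonneg _) h5 (by norm_num)
  have h7 : (N : ℝ) / 6 - 1 ≤ ((N / 6 : ℕ) : ℝ) := by
    have : N ≤ N / 6 * 6 + 5 := by omega
    have h8 : (N : ℝ) ≤ ((N / 6 * 6 + 5 : ℕ) : ℝ) := by exact_mod_cast this
    push_cast at h8
    push_cast
    linarith
  have h9 : ∑ r ∈ range 6, F r L 1 ≤ 6 := by
    have : ∑ r ∈ range 6, F r L 1 ≤ ∑ r ∈ range 6, (1 : ℝ) :=
      Finset.sum_le_sum (fun r _ => F_le_one r L 1)
    simpa using this
  have h10 : 0 ≤ ∑ r ∈ range 6, F r L 1 := Finset.sum_nonneg (fun r _ => F_nonneg r L 1)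
  have h11 : ((N : ℝ) / 6 - 1) * (∑ r ∈ range 6, F r L 1) ≤
      ((N / 6 : ℕ) : ℝ) * (∑ r ∈ range 6, F r L 1) := mul_le_mul_of_nonneg_right h7 h10
  have h12 : B * ((N / 6 : ℕ) : ℝ) ^ (43 / 50 : ℝ) ≤ B * (N : ℝ) ^ (43 / 50 : ℝ) :=
    mul_le_mul_of_nonneg_left h6 hB0
  unfold mod
  rw [h3] at h2
  nlinarith

/-- The count in an interval which is short compared with its place. -/
lemma I_up {ε : ℝ} (hε : 0 < ε) (hε2 : ε ≤ 1 / 4) :
    ∃ M0 D : ℝ, 1 ≤ M0 ∧ 0 ≤ D ∧ ∀ (x H : ℕ), 1 ≤ H → M0 ≤ ((x + H : ℕ) : ℝ) →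
      (1 - ε) * ((x + H : ℕ) : ℝ) ≤ x → ∀ L : ℝ, 1 ≤ L →
      (I' L x H : ℝ) ≤ mod (L * (1 - 2 * ε)) (1 - 2 * ε) * H + D * (H : ℝ) ^ (43 / 50 : ℝ) := by
  classical
  obtain ⟨B, hB0, hB⟩ := Pool.Agent.H19.EV.upF
  obtain ⟨M1, hM11, hM1⟩ := factor_bound hε hε2
  refine ⟨M1, 48 * B + 6, hM11, by positivity, ?_⟩
  intro x H hH hM hxH L hL
  set M : ℝ := ((x + H : ℕ) : ℝ) with hMdef
  have hM1' : 1 ≤ M := hM11.trans hM
  have hM0 : 0 < M := by linarith
  have hL0 : 0 < L := by linarith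
  have hH1 : (1 : ℝ) ≤ H := by exact_mod_cast hH
  obtain ⟨hz1, hz2⟩ := hM1 M hM
  set R : ℝ := (1 - ε) * M with hR
  have hR0 : 0 < R := mul_pos (by linarith) hM0
  have hRhalf : 1 / 2 ≤ R := by
    rw [hR]
    nlinarith
  have hx : 1 / 2 ≤ L * R := by nlinarith
  have hfl : ⌊M⌋₊ = x + H := by
    rw [hMdef, Nat.floor_natCast]
  rw [hfl] at hz1 hz2
  set m := Nat.log 2 (x + H) + 1 with hm
  set z : ℝ := (1 + 1 / (2 * R)) ^ m with hz
  have hz0 : 0 < z := by positivity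
  have hl := card_Ioc_le (fun n => Rises L n ∨ Stays n) (L * R) R x (x + H) (by
    intro n h1 h2 h3
    have hxn : (x : ℝ) < n := by exact_mod_cast h1
    have hRn : R < n := lt_of_le_of_lt hxH hxn
    rcases h3 with h3 | h3
    · obtain ⟨i, hi, hj⟩ := h3
      refine Or.inl ⟨i, ?_, ?_⟩
      · have : L * R ≤ L * n := mul_le_mul_of_nonneg_left hRn.le (by linarith)
        linarith
      · intro j hji
        have : (n : ℝ) ≤ (Pool.Agent.H83.EX.C^[j] n : ℝ) := by exact_mod_cast hj j hji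
        linarith
    · exact reach_stays (M := M) hRn h3)
  have hwlt : x + H < 2 ^ m := Nat.lt_pow_succ_log_self (by norm_num) (x + H)
  -- the enlarged thresholds
  have hzy0 : 0 < z * (M + 1 / 4) := by positivity
  have hthr : (1 - 2 * ε) * (z * (M + 1 / 4)) ≤ R := by
    have h1 : (1 - 2 * ε) * (z * (M + 1 / 4)) ≤ (1 - 2 * ε) * ((1 + ε) * M) :=
      mul_le_mul_of_nonneg_left hz1 (by linarith)
    have h2 : (1 - 2 * ε) * ((1 + ε) * M) ≤ R := by
      have h3 : 0 ≤ ε * ε * M := by positivity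
      have e : (1 - 2 * ε) * ((1 + ε) * M) = (1 - ε) * M - 2 * (ε * ε * M) := by ring
      rw [e, hR]
      linarith
    linarith
  have hb1 : 1 - 2 * ε ≤ R / (z * (M + 1 / 4)) := by
    rw [le_div_iff₀ hzy0]
    exact hthr
  have hb2 : L * (1 - 2 * ε) ≤ L * R / (z * (M + 1 / 4)) := by
    rw [le_div_iff₀ hzy0]
    have := mul_le_mul_of_nonneg_left hthr hL0.le
    nlinarith
  have hsumF : ∑ r ∈ range 6, F r (L * R / (z * (M + 1 / 4))) (R / (z * (M + 1 / 4))) ≤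
      6 * mod (L * (1 - 2 * ε)) (1 - 2 * ε) := by
    have h1 := mod_anti hb2 hb1
    have h2 : mod (L * R / (z * (M + 1 / 4))) (R / (z * (M + 1 / 4))) =
      (∑ r ∈ range 6, F r (L * R / (z * (M + 1 / 4))) (R / (z * (M + 1 / 4)))) / 6 := rfl
    rw [h2] at h1
    linarith
  have hcls : ∀ j ∈ range 6,
      (NU (x + 1 + j) 1 (L * R) R ((x + H - x + 6 - 1 - j) / 6) : ℝ) ≤
      ((H : ℝ) / 6 + 1) *
        F ((x + 1 + j) % 6) (L * R / (z * (M + 1 / 4))) (R / (z * (M + 1 / 4))) +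
        8 * B * (H : ℝ) ^ (43 / 50 : ℝ) := by
    intro j hj
    rw [mem_range] at hj
    set T : ℕ := (x + H - x + 6 - 1 - j) / 6 with hT
    have hTH : T ≤ H := by omega
    have hup := hB (L * R) R hx hRhalf m T (by omega) (x + 1 + j) 1 M (by norm_num) (by norm_num)
      hM0.le (by
        intro s hs
        have h1 : x + 1 + j + 6 * 1 * s ≤ x + H := by omega
        rw [hMdef]
        exact_mod_cast h1)
    rw [← hz] at hup
    refine hup.trans ?_
    have hT0 : (0 : ℝ) ≤ T := Nat.cast_nonneg T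
    have hT1 : (T : ℝ) ≤ (H : ℝ) / 6 + 1 := by
      have h1 : T * 6 ≤ H + 5 := by omega
      have h2 : ((T * 6 : ℕ) : ℝ) ≤ ((H + 5 : ℕ) : ℝ) := by exact_mod_cast h1
      push_cast at h2
      linarith
    have hTM : (T : ℝ) ≤ H := by exact_mod_cast hTH
    have hTp : (T : ℝ) ^ (43 / 50 : ℝ) ≤ (H : ℝ) ^ (43 / 50 : ℝ) :=
      Real.rpow_le_rpow hT0 hTM (by norm_num)
    have hyR : (M + 1 / 4) / R ≤ 4 := by
      rw [div_le_iff₀ hR0, hR]
      nlinarith
    have hFnn : 0 ≤ F ((x + 1 + j) % 6) (L * R / (z * (M + 1 / 4))) (R / (z * (M + 1 / 4))) :=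
      F_nonneg _ _ _
    refine add_le_add (mul_le_mul_of_nonneg_right hT1 hFnn) ?_
    calc B * z * (T : ℝ) ^ (43 / 50 : ℝ) * ((M + 1 / 4) / R)
        ≤ B * 2 * (H : ℝ) ^ (43 / 50 : ℝ) * 4 := by
          refine mul_le_mul ?_ hyR (by positivity) (by positivity)
          refine mul_le_mul ?_ hTp (by positivity) (by positivity)
          exact mul_le_mul_of_nonneg_left hz2 hB0
      _ = 8 * B * (H : ℝ) ^ (43 / 50 : ℝ) := by ring
  have hsum := Finset.sum_le_sum hcls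
  have hsum2 : ∑ j ∈ range 6, (((H : ℝ) / 6 + 1) * F ((x + 1 + j) % 6)
      (L * R / (z * (M + 1 / 4))) (R / (z * (M + 1 / 4))) + 8 * B * (H : ℝ) ^ (43 / 50 : ℝ)) =
      ((H : ℝ) / 6 + 1) * (∑ r ∈ range 6, F r (L * R / (z * (M + 1 / 4)))
        (R / (z * (M + 1 / 4)))) + 48 * B * (H : ℝ) ^ (43 / 50 : ℝ) := by
    rw [Finset.sum_add_distrib, ← Finset.mul_sum,
      sum_mod (fun r => F r (L * R / (z * (M + 1 / 4))) (R / (z * (M + 1 / 4)))) (x + 1)]
    simp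
    ring
  rw [hsum2] at hsum
  have hcast : (I' L x H : ℝ) ≤
      ∑ j ∈ range 6, (NU (x + 1 + j) 1 (L * R) R ((x + H - x + 6 - 1 - j) / 6) : ℝ) := by
    have h0 : I' L x H ≤
        ∑ j ∈ range 6, NU (x + 1 + j) 1 (L * R) R ((x + H - x + 6 - 1 - j) / 6) := by
      unfold I'
      convert hl
    exact_mod_cast h0
  have hM1p : 1 ≤ (H : ℝ) ^ (43 / 50 : ℝ) := Real.one_le_rpow hH1 (by norm_num)
  have h1 : ((H : ℝ) / 6 + 1) * (∑ r ∈ range 6, F r (L * R / (z * (M + 1 / 4)))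
        (R / (z * (M + 1 / 4)))) ≤
      ((H : ℝ) / 6 + 1) * (6 * mod (L * (1 - 2 * ε)) (1 - 2 * ε)) :=
    mul_le_mul_of_nonneg_left hsumF (by positivity)
  have h2 : ((H : ℝ) / 6 + 1) * (6 * mod (L * (1 - 2 * ε)) (1 - 2 * ε)) =
      mod (L * (1 - 2 * ε)) (1 - 2 * ε) * H + 6 * mod (L * (1 - 2 * ε)) (1 - 2 * ε) := by ring
  have h3 := mod_le_one (L * (1 - 2 * ε)) (1 - 2 * ε)
  have e9 : (48 * B + 6) * (H : ℝ) ^ (43 / 50 : ℝ) = 48 * B * (H : ℝ) ^ (43 / 50 : ℝ) +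
      6 * (H : ℝ) ^ (43 / 50 : ℝ) := by ring
  rw [e9]
  linarith

end Pool.Agent.H12.EV
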