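import Pool.Agent.H12.EV.Shorts
import Pool.Agent.H12.EV.Assemble

/-!
The asymptotic formula and the densities in all intervals `(x, x + H]`.
-/

namespace Pool.Agent.H12.EV

open Filter Finset Pool.Agent.H12.EU Pool.Agent.H83.EX

lemma mod_low {θ : ℝ} {κ : ℕ → ℝ} (h : Hyp θ κ) {η : ℝ} (hη : 0 < η) :
    ∃ L0 : ℝ, 1 ≤ L0 ∧ ∀ L : ℝ, L0 ≤ L → (mean κ - η) * L ^ (-θ) ≤ mod L 1 := by
  obtain ⟨L0, hL01, hL0⟩ := lim_bounds h hη
  refine ⟨L0, hL01, ?_⟩
  intro L hL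
  have h1 : ∑ r ∈ range 6, ((κ r - η) * L ^ (-θ)) ≤ ∑ r ∈ range 6, F r L 1 :=
    Finset.sum_le_sum (fun r hr => (hL0 L hL r (mem_range.mp hr)).1)
  have h2 : ∑ r ∈ range 6, ((κ r - η) * L ^ (-θ)) = 6 * ((mean κ - η) * L ^ (-θ)) := by
    rw [← Finset.sum_mul, Finset.sum_sub_distrib]
    unfold mean
    rw [Finset.sum_const, Finset.card_range, nsmul_eq_mul]
    push_cast
    ring
  unfold mod
  linarith

lemma mod_up {θ : ℝ} {κ : ℕ → ℝ} (h : Hyp θ κ) {η : ℝ} (hη : 0 < η) :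
    ∃ ε : ℝ, 0 < ε ∧ ε ≤ 1 / 4 ∧ ∃ L0 : ℝ, 1 ≤ L0 ∧ ∀ L : ℝ, L0 ≤ L →
      mod (L * (1 - 2 * ε)) (1 - 2 * ε) ≤ (mean κ + η) * L ^ (-θ) := by
  have hmean := mean_nonneg h
  obtain ⟨ε₀, hε₀, hε₀1, hdip⟩ := h.dip (η / 4) (by linarith)
  obtain ⟨L1, hL11, hL1⟩ := lim_bounds h (show 0 < η / 4 by linarith)
  set s : ℝ := η / (2 * mean κ + η) with hs
  have hs0 : 0 < s := by positivity
  have tc : Tendsto (fun ε : ℝ => (1 - 2 * ε) ^ (-θ)) (nhds 0) (nhds ((1 - 2 * 0) ^ (-θ))) := by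
    have : ContinuousAt (fun ε : ℝ => (1 - 2 * ε) ^ (-θ)) 0 := by
      refine ContinuousAt.rpow_const ?_ (Or.inl (by norm_num))
      fun_prop
    exact this
  have e0 : ((1 : ℝ) - 2 * 0) ^ (-θ) = 1 := by norm_num
  rw [e0] at tc
  have tc2 := tc.eventually (gt_mem_nhds (show (1 : ℝ) < 1 + s by linarith))
  obtain ⟨δ, hδ, hδ'⟩ := Metric.eventually_nhds_iff.mp tc2
  have hε : 0 < min (min (ε₀ / 2) (1 / 4)) (δ / 2) := by positivity
  set ε := min (min (ε₀ / 2) (1 / 4)) (δ / 2) with hεdef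
  have hε1 : ε ≤ ε₀ / 2 := (min_le_left _ _).trans (min_le_left _ _)
  have hε2 : ε ≤ 1 / 4 := (min_le_left _ _).trans (min_le_right _ _)
  have hε3 : ε ≤ δ / 2 := min_le_right _ _
  have hfac : (1 - 2 * ε) ^ (-θ) ≤ 1 + s := by
    refine (hδ' ?_).le
    rw [Real.dist_eq, sub_zero, abs_of_pos hε]
    linarith
  refine ⟨ε, hε, hε2, max L1 1 * 2, by
    have := le_max_right L1 1
    linarith, ?_⟩
  intro L hL
  have hmax1 : 1 ≤ max L1 1 := le_max_right _ _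
  have hL1' : 1 ≤ L := by linarith
  have hL0 : 0 < L := by linarith
  set L'' : ℝ := L * (1 - 2 * ε) with hL''
  have hL''1 : max L1 1 ≤ L'' := by
    rw [hL'']
    nlinarith
  have hL''ge1 : 1 ≤ L'' := hmax1.trans hL''1
  have hpow : L'' ^ (-θ) ≤ (1 + s) * L ^ (-θ) := by
    rw [hL'', Real.mul_rpow hL0.le (by linarith), mul_comm]
    exact mul_le_mul_of_nonneg_right hfac (Real.rpow_nonneg hL0.le _)
  have hLp : 0 < L ^ (-θ) := Real.rpow_pos_of_pos hL0 _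
  have hFr : ∀ r, r < 6 → F r L'' (1 - 2 * ε) ≤ (κ r + η / 2) * L'' ^ (-θ) := by
    intro r hr
    have a2 := hdip (2 * ε) (by linarith) (by linarith) r hr L'' hL''ge1
    have a3 := (hL1 L'' ((le_max_left _ _).trans hL''1) r hr).2
    have e1 : (κ r + η / 2) * L'' ^ (-θ) = (κ r + η / 4) * L'' ^ (-θ) + η / 4 * L'' ^ (-θ) := by
      ring
    rw [e1]
    linarith
  have h1 : ∑ r ∈ range 6, F r L'' (1 - 2 * ε) ≤ ∑ r ∈ range 6, (κ r + η / 2) * L'' ^ (-θ) :=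
    Finset.sum_le_sum (fun r hr => hFr r (mem_range.mp hr))
  have h2 : ∑ r ∈ range 6, (κ r + η / 2) * L'' ^ (-θ) = 6 * (mean κ + η / 2) * L'' ^ (-θ) := by
    rw [← Finset.sum_mul, Finset.sum_add_distrib]
    unfold mean
    rw [Finset.sum_const, Finset.card_range, nsmul_eq_mul]
    push_cast
    ring
  rw [h2] at h1
  have h3 : 6 * (mean κ + η / 2) * L'' ^ (-θ) ≤ 6 * (mean κ + η / 2) * ((1 + s) * L ^ (-θ)) :=
    mul_le_mul_of_nonneg_left hpow (by positivity)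
  have h4 : (mean κ + η / 2) * (1 + s) = mean κ + η := by
    rw [hs]
    have : 2 * mean κ + η ≠ 0 := by positivity
    field_simp
    ring
  have h5 : 6 * (mean κ + η / 2) * ((1 + s) * L ^ (-θ)) = 6 * ((mean κ + η) * L ^ (-θ)) := by
    rw [← h4]
    ring
  unfold mod
  linarith

/-- The interval `(x, x + H]` as a difference. -/
lemma I'_diff (L : ℝ) (x H : ℕ) : (I' L x H : ℝ) ≤ (R' L (x + H) : ℝ) - (R L x : ℝ) := by
  have h1 : (R' L (x + H) : ℝ) = (R' L x : ℝ) + (I' L x H : ℝ) := by exact_mod_cast I'_eq L x H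
  have h2 : (R L x : ℝ) ≤ (R' L x : ℝ) := by exact_mod_cast R_le_R' L x
  linarith

/-- The asymptotic formula in all intervals. -/
theorem I_asym {θ : ℝ} {κ : ℕ → ℝ} (hθ0 : 0 < θ) (hθ : θ < 52 / 23) (h : Hyp θ κ)
    {η : ℝ} (hη : 0 < η) : ∃ H0 : ℕ, ∃ L0 : ℝ, ∀ x H : ℕ, H0 ≤ H → ∀ L : ℝ, L0 ≤ L →
      L ≤ (H : ℝ) ^ (3 / 50 : ℝ) →
      (mean κ - η) * ((H : ℝ) * L ^ (-θ)) ≤ (I L x H : ℝ) ∧
      (I' L x H : ℝ) ≤ (mean κ + η) * ((H : ℝ) * L ^ (-θ)) := by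
  obtain ⟨ε, hε, hε4, L1, hL1, hmod⟩ := mod_up h (show 0 < η / 2 by linarith)
  obtain ⟨M0, D, hM0, hD, hI⟩ := I_up hε hε4
  obtain ⟨B, hB0, hB⟩ := I_low
  obtain ⟨B', hB'0, hB'⟩ := R_low
  set K : ℝ := 2 / ε + 1 with hK
  have hK0 : 0 < K := by positivity
  set η' : ℝ := η / (2 * K) with hη'
  have hη'0 : 0 < η' := by positivity
  obtain ⟨N1, L2, hL2, hup⟩ := asymL_up hθ0 hθ h hη'0
  obtain ⟨L3, hL3, hlow3⟩ := mod_low h hη'0
  obtain ⟨L4, hL4, hlow4⟩ := mod_low h (show 0 < η / 2 by linarith)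
  have hb : (43 / 50 : ℝ) < 1 - 3 / 50 * (52 / 23) := by norm_num
  obtain ⟨Na, hNa⟩ := Filter.eventually_atTop.mp (small_err 0 D hb (show 0 < η / 2 by linarith))
  obtain ⟨Nb, hNb⟩ := Filter.eventually_atTop.mp (small_err 6 (B' * (1 / ε) ^ (43 / 50 : ℝ)) hb
    (show 0 < η / 2 by linarith))
  obtain ⟨Nc, hNc⟩ := Filter.eventually_atTop.mp (small_err 6 B hb (show 0 < η / 2 by linarith))
  refine ⟨max (max (max N1 ⌈M0⌉₊) (max Na Nb)) (max Nc 1), max (max L1 L2) (max L3 L4) + 1, ?_⟩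
  intro x H hH L hL hLH
  have hHN1 : N1 ≤ H := ((le_max_left _ _).trans ((le_max_left _ _).trans (le_max_left _ _))).trans hH
  have hHM0 : ⌈M0⌉₊ ≤ H :=
    ((le_max_right _ _).trans ((le_max_left _ _).trans (le_max_left _ _))).trans hH
  have hHa : Na ≤ H := ((le_max_left _ _).trans ((le_max_right _ _).trans (le_max_left _ _))).trans hH
  have hHb : Nb ≤ H := ((le_max_right _ _).trans ((le_max_right _ _).trans (le_max_left _ _))).trans hH
  have hHc : Nc ≤ H := ((le_max_left _ _).trans (le_max_right _ _)).trans hH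
  have hH1 : 1 ≤ H := ((le_max_right _ _).trans (le_max_right _ _)).trans hH
  have hLa : L1 ≤ L := by
    have := (le_max_left L1 L2).trans (le_max_left (max L1 L2) (max L3 L4))
    linarith
  have hLb : L2 ≤ L := by
    have := (le_max_right L1 L2).trans (le_max_left (max L1 L2) (max L3 L4))
    linarith
  have hLc : L3 ≤ L := by
    have := (le_max_left L3 L4).trans (le_max_right (max L1 L2) (max L3 L4))
    linarith
  have hLd : L4 ≤ L := by
    have := (le_max_right L3 L4).trans (le_max_right (max L1 L2) (max L3 L4))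
    linarith
  have hLgt : 1 < L := by
    have := (le_max_left L1 L2).trans (le_max_left (max L1 L2) (max L3 L4))
    linarith
  have hH0 : (0 : ℝ) < H := by exact_mod_cast hH1
  have hL0 : 0 < L := by linarith
  have hLp : 0 < L ^ (-θ) := Real.rpow_pos_of_pos hL0 _
  have hmain := main_ge hθ0 hθ hH1 hLgt.le hLH
  have hmain2 : η / 2 * (H : ℝ) ^ (1 - 3 / 50 * (52 / 23) : ℝ) ≤ η / 2 * ((H : ℝ) * L ^ (-θ)) :=
    mul_le_mul_of_nonneg_left hmain (by linarith)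
  constructor
  · have h1 := hB x H L hLgt
    have h2 := hlow4 L hLd
    have h3 := mul_le_mul_of_nonneg_right h2 hH0.le
    have h4 := hNc H hHc
    have e : (mean κ - η) * ((H : ℝ) * L ^ (-θ)) =
        (mean κ - η / 2) * L ^ (-θ) * H - η / 2 * ((H : ℝ) * L ^ (-θ)) := by ring
    rw [e]
    linarith
  · have hxH : M0 ≤ ((x + H : ℕ) : ℝ) := by
      have h1 : M0 ≤ (⌈M0⌉₊ : ℝ) := Nat.le_ceil M0
      have h2 : (⌈M0⌉₊ : ℝ) ≤ ((x + H : ℕ) : ℝ) := by exact_mod_cast hHM0.trans (by omega)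
      exact h1.trans h2
    by_cases hcase : (1 - ε) * ((x + H : ℕ) : ℝ) ≤ x
    · have h1 := hI x H hH1 hxH hcase L hLgt.le
      have h2 := mul_le_mul_of_nonneg_right (hmod L hLa) hH0.le
      have h3 := hNa H hHa
      have e : (mean κ + η) * ((H : ℝ) * L ^ (-θ)) =
          (mean κ + η / 2) * L ^ (-θ) * H + η / 2 * ((H : ℝ) * L ^ (-θ)) := by ring
      rw [e]
      linarith
    · have hxle : (x : ℝ) ≤ H / ε := by
        rw [le_div_iff₀ hε]
        push_cast at hcase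
        nlinarith [not_le.mp hcase]
      have h1 := I'_diff L x H
      have h2 := hup (x + H) (by omega) L hLb (hLH.trans (Real.rpow_le_rpow hH0.le (by
        push_cast
        have : (0 : ℝ) ≤ x := Nat.cast_nonneg x
        linarith) (by norm_num)))
      have h3 := hB' x L hLgt
      have hx0 : (0 : ℝ) ≤ x := Nat.cast_nonneg x
      have h4 := mul_le_mul_of_nonneg_right (hlow3 L hLc) hx0
      have h5 : (x : ℝ) ^ (43 / 50 : ℝ) ≤ (1 / ε) ^ (43 / 50 : ℝ) * (H : ℝ) ^ (43 / 50 : ℝ) := by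
        rw [← Real.mul_rpow (by positivity) hH0.le]
        refine Real.rpow_le_rpow hx0 (hxle.trans (le_of_eq ?_)) (by norm_num)
        ring
      have h6 := mul_le_mul_of_nonneg_left h5 hB'0
      have h7 := hNb H hHb
      have h8 : η' * ((2 * x + H) * L ^ (-θ)) ≤ η / 2 * ((H : ℝ) * L ^ (-θ)) := by
        have h9 : (2 * x + H : ℝ) ≤ K * H := by
          rw [hK]
          have : 2 / ε * H = 2 * (H / ε) := by ring
          linarith
        have h10 : η' * ((2 * x + H) * L ^ (-θ)) ≤ η' * ((K * H) * L ^ (-θ)) :=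
          mul_le_mul_of_nonneg_left (mul_le_mul_of_nonneg_right h9 hLp.le) hη'0.le
        have e : η' * ((K * H) * L ^ (-θ)) = η / 2 * ((H : ℝ) * L ^ (-θ)) := by
          rw [hη']
          field_simp
        linarith
      push_cast at h2
      have e2 : (mean κ + η') * (((x : ℝ) + H) * L ^ (-θ)) - (mean κ - η') * L ^ (-θ) * x =
          mean κ * ((H : ℝ) * L ^ (-θ)) + η' * ((2 * x + H) * L ^ (-θ)) := by ring
      have e3 : (mean κ + η) * ((H : ℝ) * L ^ (-θ)) = mean κ * ((H : ℝ) * L ^ (-θ)) +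
          η / 2 * ((H : ℝ) * L ^ (-θ)) + η / 2 * ((H : ℝ) * L ^ (-θ)) := by ring
      rw [e3]
      linarith

/-- The density in all intervals. -/
theorem I_dens {L : ℝ} (hL : 1 < L) {η : ℝ} (hη : 0 < η) : ∃ H0 : ℕ, ∀ x H : ℕ, H0 ≤ H →
    (mod L 1 - η) * (H : ℝ) ≤ (I L x H : ℝ) ∧ (I' L x H : ℝ) ≤ (mod L 1 + η) * (H : ℝ) := by
  obtain ⟨ε, hε, hε4, hmod⟩ := mod_left (L := L) (by linarith) (show 0 < η / 2 by linarith)
  obtain ⟨M0, D, hM0, hD, hI⟩ := I_up hε hε4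
  obtain ⟨B, hB0, hB⟩ := I_low
  obtain ⟨B', hB'0, hB'⟩ := R_low
  set K : ℝ := 1 / ε + 1 with hK
  have hK0 : 0 < K := by positivity
  set η' : ℝ := η / (2 * K) with hη'
  have hη'0 : 0 < η' := by positivity
  have hd := (dens hL).2.eventually (gt_mem_nhds (show mod L 1 < mod L 1 + η' by linarith))
  obtain ⟨N1, hN1⟩ := Filter.eventually_atTop.mp hd
  have small : ∀ C D : ℝ, ∀ s : ℝ, 0 < s → ∃ N : ℕ, ∀ H : ℕ, N ≤ H → 1 ≤ H →
      C + D * (H : ℝ) ^ (43 / 50 : ℝ) ≤ s * H := by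
    intro C D s hs
    obtain ⟨N, hN⟩ := Filter.eventually_atTop.mp ((err_zero C D).eventually (gt_mem_nhds hs))
    refine ⟨N, fun H h1 h2 => ?_⟩
    have hH0 : (0 : ℝ) < H := by exact_mod_cast h2
    have h3 := hN H h1
    rw [div_lt_iff₀ hH0] at h3
    exact h3.le
  obtain ⟨Na, hNa⟩ := small 0 D (η / 2) (by linarith)
  obtain ⟨Nb, hNb⟩ := small 6 (B' * (1 / ε) ^ (43 / 50 : ℝ)) (η / 2) (by linarith)
  obtain ⟨Nc, hNc⟩ := small 6 B η hη
  refine ⟨max (max (max N1 ⌈M0⌉₊) (max Na Nb)) (max Nc 1), ?_⟩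
  intro x H hH
  have hHN1 : N1 ≤ H := ((le_max_left _ _).trans ((le_max_left _ _).trans (le_max_left _ _))).trans hH
  have hHM0 : ⌈M0⌉₊ ≤ H :=
    ((le_max_right _ _).trans ((le_max_left _ _).trans (le_max_left _ _))).trans hH
  have hHa : Na ≤ H := ((le_max_left _ _).trans ((le_max_right _ _).trans (le_max_left _ _))).trans hH
  have hHb : Nb ≤ H := ((le_max_right _ _).trans ((le_max_right _ _).trans (le_max_left _ _))).trans hH
  have hHc : Nc ≤ H := ((le_max_left _ _).trans (le_max_right _ _)).trans hH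
  have hH1 : 1 ≤ H := ((le_max_right _ _).trans (le_max_right _ _)).trans hH
  have hH0 : (0 : ℝ) < H := by exact_mod_cast hH1
  constructor
  · have h1 := hB x H L hL
    have h4 := hNc H hHc hH1
    have e : (mod L 1 - η) * (H : ℝ) = mod L 1 * H - η * H := by ring
    rw [e]
    linarith
  · have hxH : M0 ≤ ((x + H : ℕ) : ℝ) := by
      have h1 : M0 ≤ (⌈M0⌉₊ : ℝ) := Nat.le_ceil M0
      have h2 : (⌈M0⌉₊ : ℝ) ≤ ((x + H : ℕ) : ℝ) := by exact_mod_cast hHM0.trans (by omega)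
      exact h1.trans h2
    by_cases hcase : (1 - ε) * ((x + H : ℕ) : ℝ) ≤ x
    · have h1 := hI x H hH1 hxH hcase L hL.le
      have h2 := mul_le_mul_of_nonneg_right hmod hH0.le
      have h3 := hNa H hHa hH1
      have e : (mod L 1 + η) * (H : ℝ) = (mod L 1 + η / 2) * H + η / 2 * H := by ring
      rw [e]
      linarith
    · have hxle : (x : ℝ) ≤ H / ε := by
        rw [le_div_iff₀ hε]
        push_cast at hcase
        nlinarith [not_le.mp hcase]
      have h1 := I'_diff L x H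
      have h2 := hN1 (x + H) (by omega)
      have hxH0 : (0 : ℝ) < ((x + H : ℕ) : ℝ) := by exact_mod_cast (by omega : 0 < x + H)
      rw [div_lt_iff₀ hxH0] at h2
      have h3 := hB' x L hL
      have hx0 : (0 : ℝ) ≤ x := Nat.cast_nonneg x
      have h5 : (x : ℝ) ^ (43 / 50 : ℝ) ≤ (1 / ε) ^ (43 / 50 : ℝ) * (H : ℝ) ^ (43 / 50 : ℝ) := by
        rw [← Real.mul_rpow (by positivity) hH0.le]
        refine Real.rpow_le_rpow hx0 (hxle.trans (le_of_eq ?_)) (by norm_num)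
        ring
      have h6 := mul_le_mul_of_nonneg_left h5 hB'0
      have h7 := hNb H hHb hH1
      have h8 : η' * ((x : ℝ) + H) ≤ η / 2 * H := by
        have h9 : ((x : ℝ) + H) ≤ K * H := by
          rw [hK]
          have : 1 / ε * H = H / ε := by ring
          linarith
        have h10 : η' * ((x : ℝ) + H) ≤ η' * (K * H) := mul_le_mul_of_nonneg_left h9 hη'0.le
        have e : η' * (K * H) = η / 2 * H := by
          rw [hη']
          field_simp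
        linarith
      push_cast at h2
      have e2 : (mod L 1 + η') * ((x : ℝ) + H) - mod L 1 * x =
          mod L 1 * H + η' * ((x : ℝ) + H) := by ring
      have e3 : (mod L 1 + η) * (H : ℝ) = mod L 1 * H + η / 2 * H + η / 2 * H := by ring
      rw [e3]
      linarith

/-- The upper bound in all intervals, for all `L`. -/
theorem I_all {θ : ℝ} {v : ℕ → ℝ} (hPar : Par θ v) (hθs : IsThetaStar θ) :
    ∃ K : ℝ, 0 < K ∧ ∀ x H : ℕ, 1 ≤ H → ∀ L : ℝ, 1 ≤ L →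
      (I' L x H : ℝ) ≤ K * ((H : ℝ) * L ^ (-θ) + (H : ℝ) ^ (43 / 50 : ℝ)) := by
  obtain ⟨M0, D, hM0, hD, hI⟩ := I_up (ε := 1 / 4) (by norm_num) le_rfl
  obtain ⟨C, hC, hF⟩ := Pool.H75.EV.F_le_pow hPar
  obtain ⟨C0, hC0, hup⟩ := upper_L hθs
  set Q : ℝ := C * (1 / 2 : ℝ) ^ (-θ) with hQ
  have hQ0 : 0 < Q := by positivity
  refine ⟨Q + D + M0 + 4 * C0, by positivity, ?_⟩
  intro x H hH L hL
  have hH1 : (1 : ℝ) ≤ H := by exact_mod_cast hH
  have hH0 : (0 : ℝ) < H := by linarith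
  have hL0 : 0 < L := by linarith
  have hLp : 0 < L ^ (-θ) := Real.rpow_pos_of_pos hL0 _
  have hHp : 1 ≤ (H : ℝ) ^ (43 / 50 : ℝ) := Real.one_le_rpow hH1 (by norm_num)
  have hHL : 0 < (H : ℝ) * L ^ (-θ) := mul_pos hH0 hLp
  by_cases hM : M0 ≤ ((x + H : ℕ) : ℝ)
  · by_cases hcase : (1 - 1 / 4 : ℝ) * ((x + H : ℕ) : ℝ) ≤ x
    · have h1 := hI x H hH hM hcase L hL
      have h2 : mod (L * (1 - 2 * (1 / 4))) (1 - 2 * (1 / 4)) ≤ Q * L ^ (-θ) := by
        have e : (L * (1 - 2 * (1 / 4)) : ℝ) = L * (1 / 2) := by ring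
        rw [e]
        have h3 : ∀ r ∈ range 6, F r (L * (1 / 2)) (1 - 2 * (1 / 4)) ≤ Q * L ^ (-θ) := by
          intro r hr
          refine (hF r (L * (1 / 2)) _ (mem_range.mp hr) (by linarith)).trans (le_of_eq ?_)
          rw [Real.mul_rpow hL0.le (by norm_num), hQ]
          ring
        have h4 := Finset.sum_le_sum h3
        have h5 : ∑ r ∈ range 6, (Q * L ^ (-θ)) = 6 * (Q * L ^ (-θ)) := by simp
        unfold mod
        rw [h5] at h4
        linarith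
      have h3 := mul_le_mul_of_nonneg_right h2 hH0.le
      nlinarith
    · have hx3 : (x : ℝ) ≤ 3 * H := by
        push_cast at hcase
        linarith [not_le.mp hcase]
      have h1 : (I' L x H : ℝ) ≤ (R' L (x + H) : ℝ) := by
        have h2 : (R' L (x + H) : ℝ) = (R' L x : ℝ) + (I' L x H : ℝ) := by
          exact_mod_cast I'_eq L x H
        have h3 : (0 : ℝ) ≤ (R' L x : ℝ) := Nat.cast_nonneg _
        linarith
      have h2 := hup (x + H) (by omega) L hL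
      have h3 : ((x + H : ℕ) : ℝ) ≤ 4 * H := by
        push_cast
        linarith
      have h4 : ((x + H : ℕ) : ℝ) ^ (43 / 50 : ℝ) ≤ 4 * (H : ℝ) ^ (43 / 50 : ℝ) := by
        have h5 : ((x + H : ℕ) : ℝ) ^ (43 / 50 : ℝ) ≤ (4 * (H : ℝ)) ^ (43 / 50 : ℝ) :=
          Real.rpow_le_rpow (Nat.cast_nonneg _) h3 (by norm_num)
        rw [Real.mul_rpow (by norm_num) hH0.le] at h5
        have h6 : (4 : ℝ) ^ (43 / 50 : ℝ) ≤ 4 := by
          have h7 : (4 : ℝ) ^ (43 / 50 : ℝ) ≤ (4 : ℝ) ^ (1 : ℝ) :=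
            Real.rpow_le_rpow_of_exponent_le (by norm_num) (by norm_num)
          rwa [Real.rpow_one] at h7
        exact h5.trans (mul_le_mul_of_nonneg_right h6 (by linarith))
      have h5 : ((x + H : ℕ) : ℝ) * L ^ (-θ) ≤ 4 * H * L ^ (-θ) :=
        mul_le_mul_of_nonneg_right h3 hLp.le
      have h6 : C0 * (((x + H : ℕ) : ℝ) * L ^ (-θ) + ((x + H : ℕ) : ℝ) ^ (43 / 50 : ℝ)) ≤
          C0 * (4 * H * L ^ (-θ) + 4 * (H : ℝ) ^ (43 / 50 : ℝ)) :=
        mul_le_mul_of_nonneg_left (add_le_add h5 h4) hC0.le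
      have h7 : 0 ≤ (Q + D + M0) * ((H : ℝ) * L ^ (-θ) + (H : ℝ) ^ (43 / 50 : ℝ)) := by
        have : 0 ≤ Q + D + M0 := by linarith
        positivity
      have e : C0 * (4 * H * L ^ (-θ) + 4 * (H : ℝ) ^ (43 / 50 : ℝ)) =
          4 * C0 * ((H : ℝ) * L ^ (-θ) + (H : ℝ) ^ (43 / 50 : ℝ)) := by ring
      have e2 : (Q + D + M0 + 4 * C0) * ((H : ℝ) * L ^ (-θ) + (H : ℝ) ^ (43 / 50 : ℝ)) =
          (Q + D + M0) * ((H : ℝ) * L ^ (-θ) + (H : ℝ) ^ (43 / 50 : ℝ)) +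
          4 * C0 * ((H : ℝ) * L ^ (-θ) + (H : ℝ) ^ (43 / 50 : ℝ)) := by ring
      rw [e2]
      linarith
  · have h1 : (I' L x H : ℝ) ≤ H := by exact_mod_cast I'_le L x H
    have h2 : (H : ℝ) ≤ M0 := by
      have h3 : (H : ℝ) ≤ ((x + H : ℕ) : ℝ) := by exact_mod_cast (by omega : H ≤ x + H)
      linarith [not_le.mp hM]
    have h3 : M0 ≤ M0 * (H : ℝ) ^ (43 / 50 : ℝ) := by nlinarith
    have h4 : 0 ≤ (Q + D + 4 * C0) * ((H : ℝ) * L ^ (-θ) + (H : ℝ) ^ (43 / 50 : ℝ)) := by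
      have : 0 ≤ Q + D + 4 * C0 := by linarith
      positivity
    have h5 : 0 ≤ M0 * ((H : ℝ) * L ^ (-θ)) := by positivity
    have e2 : (Q + D + M0 + 4 * C0) * ((H : ℝ) * L ^ (-θ) + (H : ℝ) ^ (43 / 50 : ℝ)) =
        (Q + D + 4 * C0) * ((H : ℝ) * L ^ (-θ) + (H : ℝ) ^ (43 / 50 : ℝ)) +
        M0 * ((H : ℝ) * L ^ (-θ)) + M0 * (H : ℝ) ^ (43 / 50 : ℝ) := by ring
    rw [e2]
    linarith

end Pool.Agent.H12.EV
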