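import Pool.Agent.H12.EV.ShortsMain

/-!
The number of `n` in `(x, x + H]` which rise above `n ^ ρ`.
-/

namespace Pool.Agent.H12.EV

open Filter Finset Pool.Agent.H12.EU Pool.Agent.H83.EX

open Classical in
/-- The number of `n` in `(x, x + H]` which rise above `n ^ ρ`. -/
noncomputable def J (ρ : ℝ) (x H : ℕ) : ℕ := ((Ioc x (x + H)).filter (fun n => Exceeds ρ n)).card

open Classical in
/-- The number of `n` in `(x, x + H]` which rise above `n ^ ρ` or never fall. -/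
noncomputable def J' (ρ : ℝ) (x H : ℕ) : ℕ :=
  ((Ioc x (x + H)).filter (fun n => Exceeds ρ n ∨ Stays n)).card

lemma J_le_J' (ρ : ℝ) (x H : ℕ) : J ρ x H ≤ J' ρ x H := by
  classical
  unfold J J'
  refine Finset.card_le_card ?_
  intro n hn
  rw [mem_filter] at hn ⊢
  exact ⟨hn.1, Or.inl hn.2⟩

lemma J_eq (ρ : ℝ) (x H : ℕ) : S ρ (x + H) = S ρ x + J ρ x H := by
  classical
  unfold S J
  rw [← Finset.card_union_of_disjoint]
  · congr 1
    rw [← Finset.filter_union]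
    congr 1
    ext n
    simp only [mem_union, mem_Icc, mem_Ioc]
    omega
  · rw [Finset.disjoint_left]
    intro n hn hm
    rw [mem_filter, mem_Icc] at hn
    rw [mem_filter, mem_Ioc] at hm
    omega

lemma J'_eq (ρ : ℝ) (x H : ℕ) : S' ρ (x + H) = S' ρ x + J' ρ x H := by
  classical
  unfold S' J'
  rw [← Finset.card_union_of_disjoint]
  · congr 1
    rw [← Finset.filter_union]
    congr 1
    ext n
    simp only [mem_union, mem_Icc, mem_Ioc]
    omega
  · rw [Finset.disjoint_left]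
    intro n hn hm
    rw [mem_filter, mem_Icc] at hn
    rw [mem_filter, mem_Ioc] at hm
    omega

lemma S'_le (ρ : ℝ) (N : ℕ) : S' ρ N ≤ N := by
  classical
  unfold S'
  refine (Finset.card_filter_le _ _).trans ?_
  simp

lemma J'_le_I' {ρ : ℝ} (hρ : 1 < ρ) {x : ℕ} (hx : 0 < x) (H : ℕ) :
    J' ρ x H ≤ I' ((x : ℝ) ^ (ρ - 1)) x H := by
  classical
  unfold J' I'
  refine Finset.card_le_card ?_
  intro n hn
  rw [mem_filter, mem_Ioc] at hn ⊢
  refine ⟨hn.1, ?_⟩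
  rcases hn.2 with h | h
  · obtain ⟨i, hi, hj⟩ := h
    refine Or.inl ⟨i, lt_of_le_of_lt ?_ hi, hj⟩
    have hx0 : (0 : ℝ) < x := by exact_mod_cast hx
    have hxn : (x : ℝ) ≤ n := by exact_mod_cast hn.1.1.le
    have hn0 : (0 : ℝ) < n := lt_of_lt_of_le hx0 hxn
    have e : (n : ℝ) ^ ρ = (n : ℝ) ^ (ρ - 1) * n := by
      rw [← Real.rpow_add_one hn0.ne']
      congr 1
      ring
    rw [e]
    exact mul_le_mul_of_nonneg_right (Real.rpow_le_rpow hx0.le hxn (by linarith)) hn0.le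
  · exact Or.inr h

lemma I_le_J {ρ : ℝ} (hρ : 1 < ρ) (x H : ℕ) :
    I (((x : ℝ) + H) ^ (ρ - 1)) x H ≤ J ρ x H := by
  classical
  unfold J I
  refine Finset.card_le_card ?_
  intro n hn
  rw [mem_filter, mem_Ioc] at hn ⊢
  refine ⟨hn.1, ?_⟩
  obtain ⟨i, hi, hj⟩ := hn.2
  refine ⟨i, lt_of_le_of_lt ?_ hi, hj⟩
  have hn0 : (0 : ℝ) < n := by exact_mod_cast (by omega : 0 < n)
  have hnx : (n : ℝ) ≤ (x : ℝ) + H := by exact_mod_cast hn.1.2
  have e : (n : ℝ) ^ ρ = (n : ℝ) ^ (ρ - 1) * n := by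
    rw [← Real.rpow_add_one hn0.ne']
    congr 1
    ring
  rw [e]
  exact mul_le_mul_of_nonneg_right (Real.rpow_le_rpow hn0.le hnx (by linarith)) hn0.le

lemma D_low {x H a : ℝ} (hx : 0 ≤ x) (hH : 0 < H) (ha : 0 < a) (ha1 : a ≤ 1) :
    a * H * (x + H) ^ (a - 1) ≤ (x + H) ^ a - x ^ a := by
  have hy : 0 < x + H := by linarith
  have hs : -1 ≤ -(H / (x + H)) := by
    have : H / (x + H) ≤ 1 := by
      rw [div_le_one hy]
      linarith
    linarith
  have h := rpow_one_add_le_one_add_mul_self hs ha.le ha1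
  have e1 : 1 + -(H / (x + H)) = x / (x + H) := by
    field_simp
    ring
  rw [e1] at h
  have e2 : x ^ a = (x + H) ^ a * (x / (x + H)) ^ a := by
    rw [← Real.mul_rpow hy.le (by positivity)]
    congr 1
    field_simp
  have e3 : (x + H) ^ a = (x + H) ^ (a - 1) * (x + H) := by
    rw [← Real.rpow_add_one hy.ne']
    congr 1
    ring
  have h2 : (x + H) ^ a * (x / (x + H)) ^ a ≤ (x + H) ^ a * (1 + a * -(H / (x + H))) :=
    mul_le_mul_of_nonneg_left h (Real.rpow_nonneg hy.le _)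
  rw [← e2] at h2
  have e4 : (x + H) ^ a * (1 + a * -(H / (x + H))) = (x + H) ^ a - a * H * (x + H) ^ (a - 1) := by
    rw [e3]
    field_simp
    ring
  rw [e4] at h2
  linarith

lemma D_up {x H a : ℝ} (hx : 0 < x) (hH : 0 < H) (ha : 0 < a) (ha1 : a ≤ 1) :
    (x + H) ^ a - x ^ a ≤ a * H * x ^ (a - 1) := by
  have hs : -1 ≤ H / x := by
    have : 0 < H / x := by positivity
    linarith
  have h := rpow_one_add_le_one_add_mul_self hs ha.le ha1
  have e1 : 1 + H / x = (x + H) / x := by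
    field_simp
  rw [e1] at h
  have e2 : (x + H) ^ a = x ^ a * ((x + H) / x) ^ a := by
    rw [← Real.mul_rpow hx.le (by positivity)]
    congr 1
    field_simp
  have e3 : x ^ a = x ^ (a - 1) * x := by
    rw [← Real.rpow_add_one hx.ne']
    congr 1
    ring
  have h2 : x ^ a * ((x + H) / x) ^ a ≤ x ^ a * (1 + a * (H / x)) :=
    mul_le_mul_of_nonneg_left h (Real.rpow_nonneg hx.le _)
  rw [← e2] at h2
  have e4 : x ^ a * (1 + a * (H / x)) = x ^ a + a * H * x ^ (a - 1) := by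
    rw [e3]
    field_simp
  rw [e4] at h2
  linarith

/-- The asymptotic formula for `n ^ ρ` in all intervals. -/
theorem J_asym {θ : ℝ} {κ : ℕ → ℝ} (hθ0 : 0 < θ) (hθ : θ < 52 / 23) (h : Hyp θ κ)
    (hκ : 0 < mean κ) {ρ : ℝ} (hρ1 : 1 < ρ) (hρ2 : ρ ≤ 53 / 50) {η : ℝ} (hη : 0 < η) :
    ∃ H0 : ℕ, ∀ x H : ℕ, H0 ≤ H → ((x : ℝ) + H) ^ (ρ - 1) ≤ (H : ℝ) ^ (3 / 50 : ℝ) →
      (mean κ / (1 - θ * (ρ - 1)) - η) *
        (((x : ℝ) + H) ^ (1 - θ * (ρ - 1)) - (x : ℝ) ^ (1 - θ * (ρ - 1))) ≤ (J ρ x H : ℝ) ∧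
      (J' ρ x H : ℝ) ≤ (mean κ / (1 - θ * (ρ - 1)) + η) *
        (((x : ℝ) + H) ^ (1 - θ * (ρ - 1)) - (x : ℝ) ^ (1 - θ * (ρ - 1))) := by
  set γ : ℝ := ρ - 1 with hγ
  have hγ0 : 0 < γ := by linarith
  have hγ1 : γ ≤ 3 / 50 := by linarith
  have hθγ : θ * γ ≤ 52 / 23 * (3 / 50) := mul_le_mul hθ.le hγ1 hγ0.le (by norm_num)
  have hθγ0 : 0 < θ * γ := mul_pos hθ0 hγ0
  set a : ℝ := 1 - θ * γ with ha
  have ha0 : 0 < a := by
    rw [ha]
    norm_num at hθγ
    linarith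
  have ha1 : a ≤ 1 := by
    rw [ha]
    linarith
  set κ₀ : ℝ := mean κ with hκ₀
  set A : ℝ := a * η with hA
  have hA0 : 0 < A := mul_pos ha0 hη
  set δ : ℝ := min 1 (A / (4 * (κ₀ + A))) with hδ
  have hδ0 : 0 < δ := lt_min one_pos (by positivity)
  have hδ1 : δ ≤ 1 := min_le_left _ _
  have hδ2 : δ * (κ₀ + A) ≤ A / 4 := by
    have h1 : δ ≤ A / (4 * (κ₀ + A)) := min_le_right _ _
    rw [le_div_iff₀ (by positivity)] at h1
    linarith
  obtain ⟨H1, L1, hI⟩ := I_asym hθ0 hθ h (show 0 < A / 4 by linarith)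
  have tL : Tendsto (fun H : ℕ => (H : ℝ) ^ γ) atTop atTop :=
    (tendsto_rpow_atTop hγ0).comp tendsto_natCast_atTop_atTop
  obtain ⟨H2, hH2⟩ := Filter.eventually_atTop.mp (tL.eventually_ge_atTop L1)
  set Q : ℝ := 1 + 1 / δ with hQ
  have hQ0 : 0 < Q := by positivity
  set η₂ : ℝ := A / (4 * Q) with hη₂
  have hη₂0 : 0 < η₂ := by positivity
  obtain ⟨N1, hN1⟩ := Filter.eventually_atTop.mp
    ((asymS_up hθ0 hθ h hρ1 hρ2 hη₂0).and (asymS_low hθ0 hθ h hκ hρ1 hρ2 hη₂0))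
  set g : ℝ := κ₀ / a with hg
  have hg0 : 0 < g := by positivity
  set C1 : ℝ := N1 + g * (N1 : ℝ) ^ a with hC1
  have hC10 : 0 ≤ C1 := by positivity
  have hSup : ∀ N : ℕ, (S' ρ N : ℝ) ≤ (g + η₂) * (N : ℝ) ^ a + C1 := by
    intro N
    by_cases hN : N1 ≤ N
    · have h1 := (hN1 N hN).1
      linarith
    · have h1 : (S' ρ N : ℝ) ≤ N := by exact_mod_cast S'_le ρ N
      have h2 : (N : ℝ) ≤ N1 := by exact_mod_cast (by omega : N ≤ N1)
      have h3 : 0 ≤ (g + η₂) * (N : ℝ) ^ a := by positivity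
      have h4 : 0 ≤ g * (N1 : ℝ) ^ a := by positivity
      linarith
  have hSlow : ∀ N : ℕ, (g - η₂) * (N : ℝ) ^ a - C1 ≤ (S ρ N : ℝ) := by
    intro N
    by_cases hN : N1 ≤ N
    · have h1 := (hN1 N hN).2
      linarith
    · have h1 : (0 : ℝ) ≤ (S ρ N : ℝ) := Nat.cast_nonneg _
      have h2 : (N : ℝ) ≤ N1 := by exact_mod_cast (by omega : N ≤ N1)
      have h3 : (N : ℝ) ^ a ≤ (N1 : ℝ) ^ a := Real.rpow_le_rpow (Nat.cast_nonneg _) h2 ha0.le
      have h4 : g * (N : ℝ) ^ a ≤ g * (N1 : ℝ) ^ a := mul_le_mul_of_nonneg_left h3 hg0.le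
      have h5 : 0 ≤ η₂ * (N : ℝ) ^ a := by positivity
      have h6 : (0 : ℝ) ≤ N1 := Nat.cast_nonneg _
      nlinarith
  have tH : Tendsto (fun H : ℕ => η / 2 * (a * Q ^ (a - 1)) * (H : ℝ) ^ a) atTop atTop :=
    Tendsto.const_mul_atTop (by positivity)
      ((tendsto_rpow_atTop ha0).comp tendsto_natCast_atTop_atTop)
  obtain ⟨H3, hH3⟩ := Filter.eventually_atTop.mp (tH.eventually_ge_atTop (2 * C1))
  refine ⟨max (max H1 H2) (max H3 1), ?_⟩
  intro x H hH hxH
  have hHa : H1 ≤ H := ((le_max_left _ _).trans (le_max_left _ _)).trans hH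
  have hHb : H2 ≤ H := ((le_max_right _ _).trans (le_max_left _ _)).trans hH
  have hHc : H3 ≤ H := ((le_max_left _ _).trans (le_max_right _ _)).trans hH
  have hHd : 1 ≤ H := ((le_max_right _ _).trans (le_max_right _ _)).trans hH
  have hH0 : (0 : ℝ) < H := by exact_mod_cast hHd
  have hx0 : (0 : ℝ) ≤ x := Nat.cast_nonneg x
  have hy0 : (0 : ℝ) < (x : ℝ) + H := by linarith
  set D : ℝ := ((x : ℝ) + H) ^ a - (x : ℝ) ^ a with hD
  have hDlow := D_low hx0 hH0 ha0 ha1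
  rw [← hD] at hDlow
  have hyp : 0 < ((x : ℝ) + H) ^ (a - 1) := Real.rpow_pos_of_pos hy0 _
  have hD0 : 0 < D := lt_of_lt_of_le (by positivity) hDlow
  have ea : a - 1 = -(θ * γ) := by
    rw [ha]
    ring
  by_cases hcase : (H : ℝ) ≤ δ * x
  · -- short interval
    have hxpos : (0 : ℝ) < x := by
      rcases hx0.lt_or_eq with h1 | h1
      · exact h1
      · rw [← h1, mul_zero] at hcase
        linarith
    have hxn : 0 < x := by exact_mod_cast hxpos
    have hHx : (H : ℝ) ≤ x := by nlinarith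
    have hDup := D_up hxpos hH0 ha0 ha1
    rw [← hD] at hDup
    have hxp : 0 < (x : ℝ) ^ (a - 1) := Real.rpow_pos_of_pos hxpos _
    have hLx : L1 ≤ (x : ℝ) ^ γ :=
      (hH2 H hHb).trans (Real.rpow_le_rpow hH0.le hHx hγ0.le)
    have hxy : (x : ℝ) ^ γ ≤ ((x : ℝ) + H) ^ γ :=
      Real.rpow_le_rpow hx0 (by linarith) hγ0.le
    have ex : ((x : ℝ) ^ γ) ^ (-θ) = (x : ℝ) ^ (a - 1) := by
      rw [← Real.rpow_mul hx0, ea]
      congr 1
      ring
    have ey : (((x : ℝ) + H) ^ γ) ^ (-θ) = ((x : ℝ) + H) ^ (a - 1) := by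
      rw [← Real.rpow_mul hy0.le, ea]
      congr 1
      ring
    have hratio : (x : ℝ) ^ (a - 1) ≤ (1 + δ) * ((x : ℝ) + H) ^ (a - 1) := by
      have h1 : ((x : ℝ) + H) ^ (θ * γ) ≤ (1 + δ) * (x : ℝ) ^ (θ * γ) := by
        have h2 : ((x : ℝ) + H) ^ (θ * γ) ≤ ((1 + δ) * x) ^ (θ * γ) :=
          Real.rpow_le_rpow hy0.le (by linarith) hθγ0.le
        rw [Real.mul_rpow (by linarith) hx0] at h2
        have h3 : (1 + δ) ^ (θ * γ) ≤ 1 + δ := by
          have h4 : (1 + δ) ^ (θ * γ) ≤ (1 + δ) ^ (1 : ℝ) :=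
            Real.rpow_le_rpow_of_exponent_le (by linarith) (by linarith)
          rwa [Real.rpow_one] at h4
        exact h2.trans (mul_le_mul_of_nonneg_right h3 (Real.rpow_nonneg hx0 _))
      rw [ea, Real.rpow_neg hx0, Real.rpow_neg hy0.le]
      have p1 : 0 < (x : ℝ) ^ (θ * γ) := Real.rpow_pos_of_pos hxpos _
      have p2 : 0 < ((x : ℝ) + H) ^ (θ * γ) := Real.rpow_pos_of_pos hy0 _
      rw [← div_eq_mul_inv, le_div_iff₀ p2, inv_mul_le_iff₀ p1]
      linarith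
    constructor
    · -- lower
      have h1 := (hI x H hHa (((x : ℝ) + H) ^ γ) (hLx.trans hxy) hxH).1
      rw [ey] at h1
      have h2 : (I (((x : ℝ) + H) ^ γ) x H : ℝ) ≤ (J ρ x H : ℝ) := by
        exact_mod_cast I_le_J hρ1 x H
      have e1 : (g - η) * D = (κ₀ - A) * (D / a) := by
        rw [hg, hA]
        field_simp
      rw [e1]
      have hDa : 0 < D / a := by positivity
      by_cases hk : κ₀ - A ≤ 0
      · have h3 : (κ₀ - A) * (D / a) ≤ 0 := mul_nonpos_of_nonpos_of_nonneg hk hDa.le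
        have h5 : 0 ≤ (J ρ x H : ℝ) := Nat.cast_nonneg _
        linarith
      · refine le_trans ?_ (h1.trans h2)
        have hk' : 0 < κ₀ - A := not_le.mp hk
        have h3 : D / a ≤ (1 + δ) * ((H : ℝ) * ((x : ℝ) + H) ^ (a - 1)) := by
          rw [div_le_iff₀ ha0]
          have h4 : a * H * (x : ℝ) ^ (a - 1) ≤ a * H * ((1 + δ) * ((x : ℝ) + H) ^ (a - 1)) :=
            mul_le_mul_of_nonneg_left hratio (by positivity)
          linarith
        have h5 := mul_le_mul_of_nonneg_left h3 hk'.le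
        have h6 : (κ₀ - A) * (1 + δ) ≤ κ₀ - A / 4 := by nlinarith
        have h7 := mul_le_mul_of_nonneg_right h6
          (show 0 ≤ (H : ℝ) * ((x : ℝ) + H) ^ (a - 1) by positivity)
        linarith
    · -- upper
      have h1 := (hI x H hHa ((x : ℝ) ^ γ) hLx (hxy.trans hxH)).2
      rw [ex] at h1
      have h2 : (J' ρ x H : ℝ) ≤ (I' ((x : ℝ) ^ γ) x H : ℝ) := by
        exact_mod_cast J'_le_I' hρ1 hxn H
      refine h2.trans (h1.trans ?_)
      have e1 : (g + η) * D = (κ₀ + A) * (D / a) := by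
        rw [hg, hA]
        field_simp
      rw [e1]
      have h3 : (H : ℝ) * ((x : ℝ) + H) ^ (a - 1) ≤ D / a := by
        rw [le_div_iff₀ ha0]
        linarith
      have h4 : (H : ℝ) * (x : ℝ) ^ (a - 1) ≤ (1 + δ) * (D / a) := by
        have h5 : (H : ℝ) * (x : ℝ) ^ (a - 1) ≤ H * ((1 + δ) * ((x : ℝ) + H) ^ (a - 1)) :=
          mul_le_mul_of_nonneg_left hratio hH0.le
        have h6 : (1 + δ) * ((H : ℝ) * ((x : ℝ) + H) ^ (a - 1)) ≤ (1 + δ) * (D / a) :=
          mul_le_mul_of_nonneg_left h3 (by linarith)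
        linarith
      have h5 := mul_le_mul_of_nonneg_left h4 (show 0 ≤ κ₀ + A / 4 by linarith)
      have h6 : (κ₀ + A / 4) * (1 + δ) ≤ κ₀ + A := by nlinarith
      have h7 := mul_le_mul_of_nonneg_right h6 (show 0 ≤ D / a by positivity)
      linarith
  · -- long interval
    have hxle : (x : ℝ) ≤ H / δ := by
      rw [le_div_iff₀ hδ0]
      linarith [not_le.mp hcase]
    have hyQ : (x : ℝ) + H ≤ Q * H := by
      rw [hQ]
      have : 1 / δ * H = H / δ := by ring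
      linarith
    have hya : ((x : ℝ) + H) ^ a = ((x : ℝ) + H) ^ (a - 1) * ((x : ℝ) + H) := by
      rw [← Real.rpow_add_one hy0.ne']
      congr 1
      ring
    have hxa : (x : ℝ) ^ a ≤ ((x : ℝ) + H) ^ a := Real.rpow_le_rpow hx0 (by linarith) ha0.le
    have h1 : η₂ * (((x : ℝ) + H) ^ a + (x : ℝ) ^ a) ≤ η / 2 * D := by
      have h2 : ((x : ℝ) + H) ^ a ≤ ((x : ℝ) + H) ^ (a - 1) * (Q * H) := by
        rw [hya]
        exact mul_le_mul_of_nonneg_left hyQ hyp.le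
      have h3 : η₂ * (((x : ℝ) + H) ^ a + (x : ℝ) ^ a) ≤
          η₂ * (2 * (((x : ℝ) + H) ^ (a - 1) * (Q * H))) :=
        mul_le_mul_of_nonneg_left (by linarith) hη₂0.le
      have e1 : η₂ * (2 * (((x : ℝ) + H) ^ (a - 1) * (Q * H))) =
          η / 2 * (a * H * ((x : ℝ) + H) ^ (a - 1)) := by
        rw [hη₂, hA]
        field_simp
        ring
      rw [e1] at h3
      exact h3.trans (mul_le_mul_of_nonneg_left hDlow (by linarith))
    have h2 : 2 * C1 ≤ η / 2 * D := by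
      have h3 := hH3 H hHc
      have h4 : Q ^ (a - 1) * (H : ℝ) ^ a ≤ H * ((x : ℝ) + H) ^ (a - 1) := by
        have h5 : (Q * H) ^ (a - 1) ≤ ((x : ℝ) + H) ^ (a - 1) :=
          Real.rpow_le_rpow_of_nonpos hy0 hyQ (by linarith)
        rw [Real.mul_rpow hQ0.le hH0.le] at h5
        have e : (H : ℝ) ^ a = (H : ℝ) ^ (a - 1) * H := by
          rw [← Real.rpow_add_one hH0.ne']
          congr 1
          ring
        rw [e]
        have h6 := mul_le_mul_of_nonneg_right h5 hH0.le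
        linarith
      have h5 : η / 2 * (a * Q ^ (a - 1)) * (H : ℝ) ^ a ≤
          η / 2 * (a * H * ((x : ℝ) + H) ^ (a - 1)) := by
        have h6 := mul_le_mul_of_nonneg_left h4 (show 0 ≤ η / 2 * a by positivity)
        linarith
      exact h3.trans (h5.trans (mul_le_mul_of_nonneg_left hDlow (by linarith)))
    have k1 := hSup (x + H)
    have k2 := hSlow (x + H)
    have k3 := hSup x
    have k4 := hSlow x
    push_cast at k1 k2
    have j1 : (S ρ (x + H) : ℝ) = (S ρ x : ℝ) + (J ρ x H : ℝ) := by exact_mod_cast J_eq ρ x H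
    have j2 : (S' ρ (x + H) : ℝ) = (S' ρ x : ℝ) + (J' ρ x H : ℝ) := by
      exact_mod_cast J'_eq ρ x H
    have j3 : (S ρ x : ℝ) ≤ (S' ρ x : ℝ) := by exact_mod_cast S_le_S' ρ x
    constructor
    · have e : (g - η) * D = g * D - η / 2 * D - η / 2 * D := by ring
      have e2 : (g - η₂) * ((x : ℝ) + H) ^ a - (g + η₂) * (x : ℝ) ^ a =
          g * D - η₂ * (((x : ℝ) + H) ^ a + (x : ℝ) ^ a) := by
        rw [hD]
        ring
      rw [e]
      linarith
    · have e : (g + η) * D = g * D + η / 2 * D + η / 2 * D := by ring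
      have e2 : (g + η₂) * ((x : ℝ) + H) ^ a - (g - η₂) * (x : ℝ) ^ a =
          g * D + η₂ * (((x : ℝ) + H) ^ a + (x : ℝ) ^ a) := by
        rw [hD]
        ring
      rw [e]
      linarith

end Pool.Agent.H12.EV
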