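import Pool.Agent.H12.EV.Ident

/-!
The model of the problem: a Markov chain on the residues modulo 6 with the transition matrix `P`;
the value is multiplied by the factor `F 1 r r` in each step from the residue `r`.
-/

namespace Pool.Agent.H12.EV

open Filter Finset

/-- `W i r L R` is the probability that the model, started at the residue `r` with the value `1`,
has a value at least `L` at some time up to `i` and no value below `R` until then. One step from
the residue `r` goes to the residue `s` with probability `P r s` and multiplies the value by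
`F 1 r r`; so afterwards the bounds are `L / F 1 r r` and `R / F 1 r r` relative to the value. -/
noncomputable def W : ℕ → Fin 6 → ℝ → ℝ → ℝ
  | 0, _, L, R => if 1 < R then 0 else if L ≤ 1 then 1 else 0
  | i + 1, r, L, R => if 1 < R then 0 else if L ≤ 1 then 1 else
      ∑ s : Fin 6, Pool.Agent.H83.EX.P r s *
        W i s (L / Pool.Agent.H83.EX.F 1 r r) (R / Pool.Agent.H83.EX.F 1 r r)

/-- The probability that the model, started with the value `1` at a residue which is uniformly
distributed modulo 6, reaches a value at least `L` before it falls below `1`. -/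
noncomputable def model (L : ℝ) : ℝ := ⨆ i : ℕ, (∑ r : Fin 6, W i r L 1) / 6

lemma W_eq (i : ℕ) : ∀ (r : Fin 6) (L R : ℝ), W i r L R = Phi i r.val L R := by
  induction i with
  | zero =>
    intro r L R
    rfl
  | succ i ih =>
    intro r L R
    have e0 : Phi (i + 1) r.val L R =
      if 1 < R then 0 else if L ≤ 1 then 1 else Op (Phi i) r.val L R := rfl
    have e1 : W (i + 1) r L R = if 1 < R then 0 else if L ≤ 1 then 1 else
      ∑ s : Fin 6, Pool.Agent.H83.EX.P r s *
        W i s (L / Pool.Agent.H83.EX.F 1 r r) (R / Pool.Agent.H83.EX.F 1 r r) := rfl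
    rw [e0, e1]
    have h2 : ∀ x : ℝ, x / (2 : ℝ) ^ (-1 : ℝ) = 2 * x := by
      intro x
      rw [Real.rpow_neg_one]
      field_simp
    have h3 : ∀ x : ℝ, x / (3 : ℝ) ^ (-1 : ℝ) = 3 * x := by
      intro x
      rw [Real.rpow_neg_one]
      field_simp
    have h5 : ∀ x : ℝ, x / (5 : ℝ) ^ (1 : ℝ) = x / 5 := by
      intro x
      rw [Real.rpow_one]
    have key : ∑ s : Fin 6, Pool.Agent.H83.EX.P r s *
        W i s (L / Pool.Agent.H83.EX.F 1 r r) (R / Pool.Agent.H83.EX.F 1 r r) =
        Op (Phi i) r.val L R := by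
      simp only [ih]
      fin_cases r
      · have hF : Pool.Agent.H83.EX.F 1 0 0 = (2 : ℝ) ^ (-1 : ℝ) := by
          simp [Pool.Agent.H83.EX.F]
        simp [Fin.sum_univ_six, Pool.Agent.H83.EX.P, hF, h2, Op]
        ring
      · have hF : Pool.Agent.H83.EX.F 1 1 1 = (5 : ℝ) ^ (1 : ℝ) := by
          simp [Pool.Agent.H83.EX.F]
        simp [Fin.sum_univ_six, Pool.Agent.H83.EX.P, hF, h5, Op]
      · have hF : Pool.Agent.H83.EX.F 1 2 2 = (2 : ℝ) ^ (-1 : ℝ) := by
          simp [Pool.Agent.H83.EX.F]
        simp [Fin.sum_univ_six, Pool.Agent.H83.EX.P, hF, h2, Op]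
        ring
      · have hF : Pool.Agent.H83.EX.F 1 3 3 = (3 : ℝ) ^ (-1 : ℝ) := by
          simp [Pool.Agent.H83.EX.F]
        simp [Fin.sum_univ_six, Pool.Agent.H83.EX.P, hF, h3, Op]
        ring
      · have hF : Pool.Agent.H83.EX.F 1 4 4 = (2 : ℝ) ^ (-1 : ℝ) := by
          simp [Pool.Agent.H83.EX.F]
        simp [Fin.sum_univ_six, Pool.Agent.H83.EX.P, hF, h2, Op]
        ring
      · have hF : Pool.Agent.H83.EX.F 1 5 5 = (5 : ℝ) ^ (1 : ℝ) := by
          simp [Pool.Agent.H83.EX.F]
        simp [Fin.sum_univ_six, Pool.Agent.H83.EX.P, hF, h5, Op]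
    rw [key]

lemma model_eq (L : ℝ) : model L = mod L 1 := by
  have t1 : Tendsto (fun i : ℕ => (∑ r ∈ range 6, Phi i r L 1) / 6) atTop (nhds (mod L 1)) := by
    unfold mod
    exact (tendsto_finset_sum _ (fun r _ => tendsto_Phi r L 1)).div_const 6
  have e : (fun i : ℕ => (∑ r : Fin 6, W i r L 1) / 6) =
      fun i : ℕ => (∑ r ∈ range 6, Phi i r L 1) / 6 := by
    funext i
    simp only [W_eq]
    rw [Finset.sum_range]
  have hm : Monotone (fun i : ℕ => (∑ r ∈ range 6, Phi i r L 1) / 6) := by
    intro a b hab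
    exact div_le_div_of_nonneg_right
      (Finset.sum_le_sum (fun r _ => Phi_mono r L 1 hab)) (by norm_num)
  have hb : BddAbove (Set.range (fun i : ℕ => (∑ r ∈ range 6, Phi i r L 1) / 6)) := by
    refine ⟨1, ?_⟩
    rintro x ⟨i, rfl⟩
    beta_reduce
    rw [div_le_one (by norm_num)]
    have : ∑ r ∈ range 6, Phi i r L 1 ≤ ∑ r ∈ range 6, (1 : ℝ) :=
      Finset.sum_le_sum (fun r _ => Phi_le_one i r L 1)
    simpa using this
  unfold model
  rw [e]
  exact tendsto_nhds_unique (tendsto_atTop_ciSup hm hb) t1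

lemma model_lim {θ : ℝ} {κ : ℕ → ℝ} (h : Hyp θ κ) :
    Tendsto (fun L : ℝ => model L * L ^ θ) atTop (nhds (mean κ)) := by
  have t1 : Tendsto (fun L : ℝ => (∑ r ∈ range 6, F r L 1 * L ^ θ) / 6) atTop
      (nhds (mean κ)) := by
    unfold mean
    exact (tendsto_finset_sum _ (fun r hr => h.lim r (mem_range.mp hr))).div_const 6
  refine t1.congr ?_
  intro L
  rw [model_eq]
  unfold mod
  rw [← Finset.sum_mul]
  ring

end Pool.Agent.H12.EV
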